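import Pool.Agent.Lib.MP_3c1e96_ag.LocalLift

/-!
Computation of the dimension of the Zariski tangent space from explicit data.
-/

namespace Pool.Agent.Lib.MP_3c1e96_ag

universe u

open IsLocalRing

variable {k : Type u} [Field k] {A : Type u} [CommRing A] [Algebra k A] (p : A →ₐ[k] k)

/-- the residue field of the local ring at `p` maps to `k` -/
noncomputable def resToK : ResidueField (LocalRingAt p) →+* k :=
  Ideal.Quotient.lift (maximalIdeal (LocalRingAt p)) (augLoc p : LocalRingAt p →+* k)
    (fun x hx => (augLoc_eq_zero_iff p x).mpr hx)

lemma resToK_residue (x : LocalRingAt p) : resToK p (residue _ x) = augLoc p x := rfl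

/-- the element `a - p(a)` of the maximal ideal of the local ring -/
noncomputable def toMax (a : A) : maximalIdeal (LocalRingAt p) :=
  ⟨algebraMap A (LocalRingAt p) a - algebraMap k (LocalRingAt p) (p a), by
    rw [← augLoc_eq_zero_iff, map_sub, augLoc_algebraMap, AlgHom.commutes]
    simp⟩

theorem tangentDim_eq {N : ℕ} (s : Fin N → A) (hs : ∀ l, p (s l) = 0)
    (h2 : ∀ δ : A →ₗ[k] k, IsPDer p δ → (∀ l, δ (s l) = 0) → δ = 0)
    (h3 : ∀ l, ∃ ψ : A →ₐ[k] E3 k, (∀ x, c0 (ψ x) = p x) ∧
      ∀ l', c1 (ψ (s l')) = if l' = l then 1 else 0) :
    tangentDim p = N := by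
  let O := LocalRingAt p
  let κ := ResidueField O
  let v : Fin N → CotangentSpace O := fun l => (maximalIdeal O).toCotangent (toMax p (s l))
  have hv : ∀ l, ((toMax p (s l) : maximalIdeal O) : O) = algebraMap A O (s l) := by
    intro l
    change algebraMap A O (s l) - algebraMap k O (p (s l)) = _
    rw [hs, map_zero, sub_zero]
  -- linear independence
  have hli : LinearIndependent κ v := by
    rw [Fintype.linearIndependent_iff]
    intro c hc i
    obtain ⟨c', hc'⟩ : ∃ c' : Fin N → O, ∀ l, residue O (c' l) = c l :=
      ⟨fun l => (residue_surjective (c l)).choose, fun l => (residue_surjective (c l)).choose_spec⟩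
    have h4 : ∑ l, c' l • v l = 0 := by
      rw [← hc]
      refine Finset.sum_congr rfl fun l _ => ?_
      rw [← hc' l]
      rfl
    have h5 : (maximalIdeal O).toCotangent (∑ l, c' l • toMax p (s l)) = 0 := by
      rw [map_sum]
      simp only [map_smul]
      exact h4
    rw [Ideal.toCotangent_eq_zero] at h5
    have h6 : ∑ l, c' l * algebraMap A O (s l) ∈ maximalIdeal O ^ 2 := by
      convert h5 using 1
      rw [Submodule.coe_sum]
      refine Finset.sum_congr rfl fun l _ => ?_
      rw [Submodule.coe_smul, hv, smul_eq_mul]
    obtain ⟨ψ, hψ0, hψ1⟩ := h3 i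
    have hder := isPDer_of_arc (arcLoc p ψ hψ0) (c0_arcLoc p ψ hψ0)
    have h7 := hder.sq (fun x hx => (augLoc_eq_zero_iff p x).mpr hx) h6
    rw [map_sum] at h7
    have h8 : ∀ l, (c1 ∘ₗ (arcLoc p ψ hψ0).toLinearMap) (c' l * algebraMap A O (s l)) =
        if l = i then augLoc p (c' l) else 0 := by
      intro l
      rw [hder]
      rw [augLoc_algebraMap, hs, mul_zero, add_zero]
      rw [LinearMap.comp_apply, AlgHom.toLinearMap_apply, arcLoc_algebraMap, hψ1]
      simp
    simp only [h8] at h7
    simp only [Finset.sum_ite_eq', Finset.mem_univ, if_true] at h7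
    rw [← hc' i, residue_eq_zero_iff]
    exact (augLoc_eq_zero_iff p _).mp h7
  -- spanning
  have hsp : ⊤ ≤ Submodule.span κ (Set.range v) := by
    by_contra hne
    have hlt : Submodule.span κ (Set.range v) < ⊤ := lt_top_iff_ne_top.mpr (fun h => hne h.ge)
    obtain ⟨f, hf0, hf⟩ := Submodule.exists_le_ker_of_lt_top _ hlt
    apply hf0
    -- the associated point derivation on `A`
    have hmk_add : ∀ a b, toMax p (a + b) = toMax p a + toMax p b := by
      intro a b
      apply Subtype.ext
      change algebraMap A O (a + b) - algebraMap k O (p (a + b)) =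
        (algebraMap A O a - algebraMap k O (p a)) + (algebraMap A O b - algebraMap k O (p b))
      rw [map_add, map_add, map_add]; ring
    have hmk_smul : ∀ (r : k) a, toMax p (r • a) = r • toMax p a := by
      intro r a
      apply Subtype.ext
      change algebraMap A O (r • a) - algebraMap k O (p (r • a)) =
        r • (algebraMap A O a - algebraMap k O (p a))
      rw [Algebra.smul_def r a, map_mul, map_mul, ← IsScalarTower.algebraMap_apply k A O,
        AlgHom.commutes, map_mul, Algebra.smul_def]
      simp only [Algebra.algebraMap_self, RingHom.id_apply]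
      ring
    let δ : A →ₗ[k] k :=
      { toFun := fun a => resToK p (f ((maximalIdeal O).toCotangent (toMax p a)))
        map_add' := by
          intro a b
          rw [hmk_add, map_add, map_add, map_add]
        map_smul' := by
          intro r a
          rw [hmk_smul]
          have e1 : (maximalIdeal O).toCotangent (r • toMax p a) =
              residue O (algebraMap k O r) • (maximalIdeal O).toCotangent (toMax p a) := by
            have : r • toMax p a = (algebraMap k O r) • toMax p a := by
              apply Subtype.ext
              change r • ((toMax p a : maximalIdeal O) : O) =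
                algebraMap k O r * ((toMax p a : maximalIdeal O) : O)
              rw [Algebra.smul_def]
            rw [this, map_smul]
            rfl
          rw [e1, map_smul, smul_eq_mul, map_mul, resToK_residue, AlgHom.commutes]
          rfl }
    have hδ : IsPDer p δ := by
      intro x y
      change resToK p (f ((maximalIdeal O).toCotangent (toMax p (x * y)))) =
        p x * resToK p (f ((maximalIdeal O).toCotangent (toMax p y))) +
        resToK p (f ((maximalIdeal O).toCotangent (toMax p x))) * p y
      have e1 : (maximalIdeal O).toCotangent (toMax p (x * y)) =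
          residue O (algebraMap k O (p x)) • (maximalIdeal O).toCotangent (toMax p y) +
          residue O (algebraMap k O (p y)) • (maximalIdeal O).toCotangent (toMax p x) := by
        have e2 : (maximalIdeal O).toCotangent (toMax p (x * y)) =
            (maximalIdeal O).toCotangent
              ((algebraMap k O (p x)) • toMax p y + (algebraMap k O (p y)) • toMax p x) := by
          rw [Ideal.toCotangent_eq]
          have e3 : ((toMax p (x * y) : maximalIdeal O) : O) -
              (((algebraMap k O (p x)) • toMax p y + (algebraMap k O (p y)) • toMax p x :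
                maximalIdeal O) : O) =
              (toMax p x : O) * (toMax p y : O) := by
            rw [Submodule.coe_add, Submodule.coe_smul, Submodule.coe_smul]
            change (algebraMap A O (x * y) - algebraMap k O (p (x * y))) -
              (algebraMap k O (p x) * (algebraMap A O y - algebraMap k O (p y)) +
               algebraMap k O (p y) * (algebraMap A O x - algebraMap k O (p x))) =
              (algebraMap A O x - algebraMap k O (p x)) * (algebraMap A O y - algebraMap k O (p y))
            rw [map_mul, map_mul, map_mul]; ring
          rw [e3, pow_two]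
          exact Ideal.mul_mem_mul (toMax p x).2 (toMax p y).2
        rw [e2, map_add, map_smul, map_smul]
        rfl
      rw [e1, map_add, map_smul, map_smul, map_add, smul_eq_mul, smul_eq_mul, map_mul, map_mul,
        resToK_residue, resToK_residue, AlgHom.commutes, AlgHom.commutes]
      simp only [Algebra.algebraMap_self, RingHom.id_apply]
      ring
    have hδs : ∀ l, δ (s l) = 0 := by
      intro l
      change resToK p (f (v l)) = 0
      have : v l ∈ LinearMap.ker f := hf (Submodule.subset_span ⟨l, rfl⟩)
      rw [LinearMap.mem_ker.mp this, map_zero]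
    have hδ0 := h2 δ hδ hδs
    have hfA : ∀ a, f ((maximalIdeal O).toCotangent (toMax p a)) = 0 := by
      intro a
      have e1 : resToK p (f ((maximalIdeal O).toCotangent (toMax p a))) = 0 :=
        congr_fun (congr_arg DFunLike.coe hδ0) a
      exact (map_eq_zero_iff (resToK p) (RingHom.injective _)).mp e1
    ext x
    obtain ⟨⟨x, hx⟩, rfl⟩ := Ideal.toCotangent_surjective _ x
    obtain ⟨⟨a, t⟩, ht⟩ := IsLocalization.surj (closedPoint p).asIdeal.primeCompl x
    simp only at ht
    have hpa : p a = 0 := by
      rw [← augLoc_algebraMap p a, ← ht, map_mul, (augLoc_eq_zero_iff p x).mpr hx, zero_mul]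
    have e1 : residue O (algebraMap A O (t : A)) • (maximalIdeal O).toCotangent ⟨x, hx⟩ =
        (maximalIdeal O).toCotangent (toMax p a) := by
      have e2 : (algebraMap A O (t : A)) • (⟨x, hx⟩ : maximalIdeal O) = toMax p a := by
        apply Subtype.ext
        rw [Submodule.coe_smul, smul_eq_mul, mul_comm]
        change x * algebraMap A O (t : A) = algebraMap A O a - algebraMap k O (p a)
        rw [hpa, map_zero, sub_zero, ht]
      rw [← e2, map_smul]
      rfl
    have e2 : residue O (algebraMap A O (t : A)) * f ((maximalIdeal O).toCotangent ⟨x, hx⟩) = 0 := by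
      rw [← smul_eq_mul, ← map_smul, e1, hfA]
    rcases mul_eq_zero.mp e2 with e3 | e3
    · exfalso
      rw [residue_eq_zero_iff, ← augLoc_eq_zero_iff, augLoc_algebraMap] at e3
      exact t.2 e3
    · rw [e3]; rfl
  -- conclusion
  have hb : Module.finrank κ (CotangentSpace O) = N := by
    let bas := Module.Basis.mk hli hsp
    rw [Module.finrank_eq_card_basis bas, Fintype.card_fin]
  rw [tangentDim, zariskiDim, Subspace.dual_finrank_eq]
  exact hb

end Pool.Agent.Lib.MP_3c1e96_ag
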