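import Pool.Agent.Lib.MP_3c1e96_ag.LinExt
import Pool.Agent.Lib.MP_3c1e96_ag.Tangent

/-!
The point `I = (x³, y³, x²z, y²z, xz², yz², z³ - xyz, x²y²)` of the Hilbert scheme:
its tangent space has dimension 45, and all tangent vectors lift to second order.
-/

namespace Pool.Agent.Lib.MP_3c1e96_ag

universe u

open Matrix

section

variable {R : Type u} [CommRing R]

/-- a position in the multiplication matrices where the border vector `μ` occurs -/
def pos : Fin 13 → Fin 3 × Fin 13 :=
  ![(0, 4), (2, 4), (2, 7), (1, 6), (2, 6), (2, 8), (2, 9), (0, 10), (1, 10), (2, 10), (1, 11),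
    (2, 11), (2, 12)]

lemma nxt_pos (μ : Fin 13) : nxt (pos μ).1 (pos μ).2 = Sum.inr μ := by
  fin_cases μ <;> rfl

lemma colOf_pos (r : Fin 13 → Fin 13 → R) (μ : Fin 13) :
    colOf r (pos μ).1 (pos μ).2 = r μ := by
  rw [colOf, nxt_pos]

lemma matOf_pos (r : Fin 13 → Fin 13 → R) (μ i : Fin 13) :
    matOf r (pos μ).1 i (pos μ).2 = r μ i := by
  rw [matOf, Matrix.of_apply, colOf_pos]

lemma matOf_injective {r r' : Fin 13 → Fin 13 → R} (h : matOf r = matOf r') : r = r' := by
  funext μ i
  rw [← matOf_pos r, ← matOf_pos r', h]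

lemma Conds.bvec_matOf {r : Fin 13 → Fin 13 → R} (h : Conds r) : bvec (matOf r) = r :=
  (matOf_injective h.isChartPt.eq_matOf).symm

lemma bvec_map {R' : Type u} [CommRing R'] (φ : R →+* R')
    (T : Fin 3 → Matrix (Fin 13) (Fin 13) R) (μ i : Fin 13) :
    bvec (fun a => (T a).map φ) μ i = φ (bvec T μ i) := by
  rw [bvec, bvec, ordMon_map]
  simp

end

section

variable (k : Type u) [Field k]

/-- the coordinate ring of the chart -/
abbrev AA : Type u := ChartRing k bas 0

/-- the universal border vectors -/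
noncomputable def uvec : Fin 13 → Fin 13 → AA k := bvec (chartT k bas 0)

lemma conds_uvec : Conds (uvec k) := (isChartPt_chartT k bas 0).conds

lemma chartT_eq : chartT k bas 0 = matOf (uvec k) := (isChartPt_chartT k bas 0).eq_matOf

variable {k} {R : Type u} [CommRing R] [Algebra k R]

/-- the homomorphism given by border vectors -/
noncomputable def bLift {r : Fin 13 → Fin 13 → R} (h : Conds r) : AA k →ₐ[k] R :=
  chartLift (matOf r) h.isChartPt

lemma bLift_uvec {r : Fin 13 → Fin 13 → R} (h : Conds r) (μ i : Fin 13) :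
    bLift (k := k) h (uvec k μ i) = r μ i := by
  have h1 := bvec_map ((bLift (k := k) h : AA k →ₐ[k] R) : AA k →+* R) (chartT k bas 0) μ i
  have h2 : (fun a => (chartT k bas 0 a).map ((bLift (k := k) h : AA k →ₐ[k] R) : AA k →+* R)) =
      matOf r := by
    funext a
    exact chartLift_T (k := k) (matOf r) h.isChartPt a
  rw [h2, h.bvec_matOf] at h1
  exact h1.symm

lemma hom_ext_uvec {f g : AA k →ₐ[k] R} (h : ∀ μ i, f (uvec k μ i) = g (uvec k μ i)) :
    f = g := by
  apply chart_hom_ext
  intro a i j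
  rw [chartT_eq, matOf, Matrix.of_apply, colOf]
  cases nxt a j with
  | inl j' =>
    by_cases hij : i = j'
    · subst hij; simp
    · simp [Pi.single_eq_of_ne hij]
  | inr μ => exact h μ i

/-- a derivation killing the universal border vectors is zero -/
lemma isPDer_ext_uvec {π : AA k →ₐ[k] k} {δ : AA k →ₗ[k] k} (hδ : IsPDer π δ)
    (h : ∀ μ i, δ (uvec k μ i) = 0) : δ = 0 := by
  have h1 : ∀ a i j, δ (chartT k bas 0 a i j) = 0 := by
    intro a i j
    rw [chartT_eq, matOf, Matrix.of_apply, colOf]
    cases nxt a j with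
    | inl j' =>
      change δ ((Pi.single j' 1 : Fin 13 → AA k) i) = 0
      by_cases hij : i = j'
      · subst hij
        rw [Pi.single_eq_same, hδ.map_one]
      · rw [Pi.single_eq_of_ne hij, map_zero]
    | inr μ => exact h μ i
  have hm : ∀ x y, δ (x * y) = π x * δ y + δ x * π y := hδ
  apply LinearMap.ext
  intro x
  obtain ⟨q, rfl⟩ := Ideal.Quotient.mk_surjective x
  rw [LinearMap.zero_apply]
  induction q using MvPolynomial.induction_on with
  | C c => exact hδ.algebraMap c
  | add p q hp hq => rw [map_add, map_add, hp, hq, add_zero]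
  | mul_X p v hp =>
    rw [map_mul, hm, hp, zero_mul, add_zero]
    obtain ⟨a, i, j⟩ := v
    have := h1 a i j
    rw [show (Ideal.Quotient.mk (Ideal.span (relations k bas 0))) (MvPolynomial.X (a, i, j)) =
      chartT k bas 0 a i j from rfl, this, mul_zero]

end

section

variable (k : Type u) [Field k]

lemma conds_R0 : Conds (R0 : Fin 13 → Fin 13 → k) where
  c1 := by funext i; rw [acty_apply, zy, r0z (by decide)]
  c2 := by funext i; rw [actx_apply, zx, r0z (by decide)]
  c3 := by funext i; rw [acty_apply, zy, r0z (by decide)]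
  c4 := by funext i; rw [actx_apply, zx, r0z (by decide)]
  c5 := by funext i; rw [actx_apply, zx, r0z (by decide)]
  c6 := by funext i; rw [acty_apply, zy, r0z (by decide)]
  c7 := by funext i; rw [actx_apply, actz_apply, zx, zz]
  c8 := by funext i; rw [actx_apply, actz_apply, zx, zz]
  c9 := by funext i; rw [actx_apply, actz_apply, zx, zz]
  c10 := by funext i; rw [acty_apply, actz_apply, zy, zz]
  c11 := by funext i; rw [acty_apply, actz_apply, zy, zz]
  c12 := by funext i; rw [acty_apply, actz_apply, zy, zz]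
  c13 := by funext i; rw [actx_apply, acty_apply, zx, zy]
  c14 := by funext i; rw [actx_apply, acty_apply, zx, zy]
  c15 := by funext i; rw [actx_apply, acty_apply, zx, zy]
  c16 := by funext i; rw [actx_apply, actz_apply, zx, zz]
  c17 := by funext i; rw [actx_apply, actz_apply, zx, zz]
  c18 := by funext i; rw [actx_apply, actz_apply, zx, zz]
  c19 := by funext i; rw [acty_apply, actz_apply, zy, zz]
  c20 := by funext i; rw [acty_apply, actz_apply, zy, zz]
  c21 := by funext i; rw [acty_apply, actz_apply, zy, zz]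

/-- the point `[Γ]` -/
noncomputable def pt : AA k →ₐ[k] k := bLift (conds_R0 k)

lemma pt_uvec (μ i : Fin 13) : pt k (uvec k μ i) = R0 μ i := bLift_uvec _ μ i

/-- the second order arc with direction `w` -/
noncomputable def arc (w : Fin 45 → k) : AA k →ₐ[k] E3 k :=
  bLift (conds_arcR (lin_R1 w) (quad_R w))

lemma arc_uvec (w : Fin 45 → k) (μ i : Fin 13) :
    arc k w (uvec k μ i) = mk3 (R0 μ i) (R1 w μ i) (R2 w μ i) := bLift_uvec _ μ i

lemma c0_arc (w : Fin 45 → k) (x : AA k) : c0 (arc k w x) = pt k x := by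
  have h : aug.comp (arc k w) = pt k := by
    apply hom_ext_uvec
    intro μ i
    rw [AlgHom.comp_apply, arc_uvec, aug_apply, c0_mk3, pt_uvec]
  rw [← h, AlgHom.comp_apply, aug_apply]

/-- the 45 coordinates -/
noncomputable def sfun (l : Fin 45) : AA k :=
  uvec k (freeIdx l).1 (freeIdx l).2 - algebraMap k (AA k) (R0 (freeIdx l).1 (freeIdx l).2)

lemma pt_sfun (l : Fin 45) : pt k (sfun k l) = 0 := by
  rw [sfun, map_sub, pt_uvec, AlgHom.commutes]
  exact sub_self _

lemma c1_arc_sfun (w : Fin 45 → k) (l : Fin 45) : c1 (arc k w (sfun k l)) = w l := by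
  rw [sfun, map_sub, arc_uvec, AlgHom.commutes, map_sub, c1_mk3, c1_algebraMap, sub_zero,
    R1_free]

lemma isPDer_eq_zero {δ : AA k →ₗ[k] k} (hδ : IsPDer (pt k) δ) (h : ∀ l, δ (sfun k l) = 0) :
    δ = 0 := by
  apply isPDer_ext_uvec hδ
  have hl : Lin (fun μ i => δ (uvec k μ i)) := hδ.lin (pt_uvec k) (conds_uvec k)
  have h0 := hl.eq_zero (fun l => by
    have := h l
    rw [sfun, map_sub, hδ.algebraMap, sub_zero] at this
    exact this)
  intro μ i
  exact congr_fun (congr_fun h0 μ) i

/-- every tangent vector at `[Γ]` lifts to second order -/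
theorem lift3_pt : Lift3 (pt k) := by
  intro δ hδ
  refine ⟨arc k (fun l => δ (sfun k l)), c0_arc k _, ?_⟩
  have h1 := isPDer_of_arc (arc k (fun l => δ (sfun k l))) (c0_arc k _)
  have h2 : IsPDer (pt k) (δ - c1 ∘ₗ (arc k (fun l => δ (sfun k l))).toLinearMap) := by
    intro x y
    have e1 := hδ x y
    have e2 := h1 x y
    rw [LinearMap.sub_apply, LinearMap.sub_apply, LinearMap.sub_apply, e1, e2]
    ring
  have h3 := isPDer_eq_zero k h2 (by
    intro l
    rw [LinearMap.sub_apply, LinearMap.comp_apply, AlgHom.toLinearMap_apply, c1_arc_sfun,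
      sub_self])
  intro x
  have h4 := LinearMap.congr_fun h3 x
  rw [LinearMap.sub_apply, LinearMap.zero_apply, sub_eq_zero] at h4
  exact h4.symm

/-- the tangent space at `[Γ]` has dimension `45 = 3 * 13 + 6` -/
theorem tangentDim_pt : tangentDim (pt k) = 45 := by
  apply tangentDim_eq (pt k) (sfun k) (pt_sfun k)
  · intro δ hδ h
    exact isPDer_eq_zero k hδ h
  · intro l
    refine ⟨arc k (Pi.single l 1), c0_arc k _, fun l' => ?_⟩
    rw [c1_arc_sfun, Pi.single_apply]

end

end Pool.Agent.Lib.MP_3c1e96_ag
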