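import Pool.Agent.Lib.MP_3c1e96_ag.MatEval

namespace Pool.Agent.Lib.MP_3c1e96_ag

universe u

open MvPolynomial TensorProduct

section

variable {R R' : Type u} [CommRing R] [CommRing R'] [Algebra R R']

/-- `R' ⊗ (R[x]/J) ≃ R'[x]/J R'[x]`. -/
noncomputable def baseChangeEquiv (J : Ideal (MvPolynomial (Fin 3) R)) :
    R' ⊗[R] (MvPolynomial (Fin 3) R ⧸ J) ≃ₐ[R']
      MvPolynomial (Fin 3) R' ⧸ baseChange (algebraMap R R') J :=
  (Algebra.TensorProduct.tensorQuotientEquiv R' (MvPolynomial (Fin 3) R) R' J).trans
    (Ideal.quotientEquivAlg _ _ (MvPolynomial.algebraTensorAlgEquiv R R') (by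
      have h1 : J.map (Algebra.TensorProduct.includeRight (R := R) (A := R')
          (B := MvPolynomial (Fin 3) R)) =
        J.map ((Algebra.TensorProduct.includeRight (R := R) (A := R')
          (B := MvPolynomial (Fin 3) R) : _ →+* R' ⊗[R] MvPolynomial (Fin 3) R)) := rfl
      rw [h1, baseChange, Ideal.map_map]
      congr 1
      refine RingHom.ext fun f => ?_
      simp only [RingHom.coe_comp, RingHom.coe_coe, Function.comp_apply,
        Algebra.TensorProduct.includeRight_apply]
      rw [MvPolynomial.algebraTensorAlgEquiv_tmul, one_smul]))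

lemma baseChangeEquiv_tmul_mk (J : Ideal (MvPolynomial (Fin 3) R)) (f : MvPolynomial (Fin 3) R) :
    baseChangeEquiv (R' := R') J (1 ⊗ₜ[R] (Ideal.Quotient.mk J f)) =
      Ideal.Quotient.mk _ (MvPolynomial.map (algebraMap R R') f) := by
  rw [baseChangeEquiv, AlgEquiv.trans_apply]
  have := Algebra.TensorProduct.tensorQuotientEquiv_apply_tmul (R := R) R'
    (MvPolynomial (Fin 3) R) R' J 1 f
  erw [this]
  erw [Ideal.quotientEquivAlg_mk]
  simp

lemma IsFamily.baseChange_aux {d : ℕ} {J : Ideal (MvPolynomial (Fin 3) R)} (hJ : IsFamily d R J) :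
    IsFamily d R' (baseChange (algebraMap R R') J) := by
  obtain ⟨h1, h2, h3⟩ := hJ
  refine ⟨?_, ?_, ?_⟩
  · exact Module.Finite.equiv (baseChangeEquiv (R' := R') J).toLinearEquiv
  · exact Module.Projective.of_equiv (baseChangeEquiv (R' := R') J).toLinearEquiv
  · intro q
    rw [← Module.rankAtStalk_eq_of_equiv (baseChangeEquiv (R' := R') J).toLinearEquiv,
      Module.rankAtStalk_baseChange, h3]

end

lemma IsFamily.baseChange {R R' : Type u} [CommRing R] [CommRing R'] (φ : R →+* R') {d : ℕ}
    {J : Ideal (MvPolynomial (Fin 3) R)} (hJ : IsFamily d R J) :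
    IsFamily d R' (baseChange φ J) := by
  let _ := φ.toAlgebra
  exact IsFamily.baseChange_aux hJ

section Spanning

variable {R : Type u} [CommRing R] {d : ℕ} (b : Fin d → (Fin 3 →₀ ℕ))

/-- the `R`-linear map `R^d → R[x]/J`, `e_i ↦ x^{b_i}` -/
noncomputable def combMap (J : Ideal (MvPolynomial (Fin 3) R)) :
    (Fin d → R) →ₗ[R] (MvPolynomial (Fin 3) R ⧸ J) where
  toFun c := Ideal.Quotient.mk J (comb b c)
  map_add' c c' := by rw [comb_add, map_add]
  map_smul' r c := by
    rw [comb_smul]
    rfl

lemma combMap_surjective_iff (J : Ideal (MvPolynomial (Fin 3) R)) :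
    Function.Surjective (combMap b J) ↔
      ∀ f : MvPolynomial (Fin 3) R, ∃ c : Fin d → R, f - comb b c ∈ J := by
  constructor
  · intro h f
    obtain ⟨c, hc⟩ := h (Ideal.Quotient.mk J f)
    exact ⟨c, Ideal.Quotient.eq.mp hc.symm⟩
  · intro h x
    obtain ⟨f, rfl⟩ := Ideal.Quotient.mk_surjective x
    obtain ⟨c, hc⟩ := h f
    exact ⟨c, (Ideal.Quotient.eq.mpr hc).symm⟩

lemma combMap_bijective_iff (J : Ideal (MvPolynomial (Fin 3) R)) :
    Function.Bijective (combMap b J) ↔ HasBasis b J := by
  rw [Function.Bijective, combMap_surjective_iff, HasBasis, and_comm]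
  refine and_congr Iff.rfl ?_
  rw [injective_iff_map_eq_zero]
  refine forall_congr' fun c => ?_
  refine imp_congr ?_ Iff.rfl
  exact Ideal.Quotient.eq_zero_iff_mem

lemma isFamily_of_hasBasis {J : Ideal (MvPolynomial (Fin 3) R)} (hJ : HasBasis b J) :
    IsFamily d R J := by
  let e : (Fin d → R) ≃ₗ[R] (MvPolynomial (Fin 3) R ⧸ J) :=
    LinearEquiv.ofBijective (combMap b J) ((combMap_bijective_iff b J).mpr hJ)
  refine ⟨Module.Finite.equiv e, Module.Projective.of_equiv e, fun q => ?_⟩
  have : Nontrivial R := q.nontrivial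
  rw [← Module.rankAtStalk_eq_of_equiv e, Module.rankAtStalk_eq_finrank_of_free]
  simp

lemma hasBasis_of_spanning {J : Ideal (MvPolynomial (Fin 3) R)} (hJ : IsFamily d R J)
    (h : ∀ f : MvPolynomial (Fin 3) R, ∃ c : Fin d → R, f - comb b c ∈ J) : HasBasis b J := by
  obtain ⟨h1, h2, h3⟩ := hJ
  rw [← combMap_bijective_iff]
  refine Module.bijective_of_surjective_of_rankAtStalk_eq ((combMap_surjective_iff b J).mpr h) ?_
  intro m hm
  have : Nontrivial R := (⟨m, hm.isPrime⟩ : PrimeSpectrum R).nontrivial
  rw [h3, Module.rankAtStalk_eq_finrank_of_free]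
  simp

/-- cokernel of `combMap` -/
abbrev Coker (J : Ideal (MvPolynomial (Fin 3) R)) :=
  (MvPolynomial (Fin 3) R ⧸ J) ⧸ LinearMap.range (combMap b J)

/-- If the annihilator of the cokernel generates the unit ideal, the monomials span. -/
lemma spanning_of_map_annihilator {R' : Type u} [CommRing R'] (φ : R →+* R')
    (J : Ideal (MvPolynomial (Fin 3) R))
    (h : (Module.annihilator R (Coker b J)).map φ = ⊤) :
    ∀ f : MvPolynomial (Fin 3) R', ∃ c : Fin d → R', f - comb b c ∈ baseChange φ J := by
  -- ideal of good scalars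
  let G : Ideal R' :=
    { carrier := {r | ∀ α : Fin 3 →₀ ℕ, ∃ c : Fin d → R',
        (monomial α r : MvPolynomial (Fin 3) R') - comb b c ∈ baseChange φ J}
      add_mem' := by
        intro r s hr hs α
        obtain ⟨c, hc⟩ := hr α
        obtain ⟨c', hc'⟩ := hs α
        refine ⟨c + c', ?_⟩
        rw [comb_add, map_add]
        have := Ideal.add_mem _ hc hc'
        convert this using 1
        ring
      zero_mem' := by
        intro α
        refine ⟨0, ?_⟩
        simp [comb]
      smul_mem' := by
        intro t r hr α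
        obtain ⟨c, hc⟩ := hr α
        refine ⟨t • c, ?_⟩
        rw [comb_smul, ← MvPolynomial.smul_monomial, ← smul_sub]
        exact (baseChange φ J).smul_of_tower_mem t hc }
  have hG : (Module.annihilator R (Coker b J)).map φ ≤ G := by
    rw [Ideal.map_le_iff_le_comap]
    intro a ha
    rw [Ideal.mem_comap]
    intro α
    rw [Module.mem_annihilator] at ha
    have h1 := ha (Submodule.Quotient.mk (Ideal.Quotient.mk J (monomial α 1)))
    rw [← Submodule.Quotient.mk_smul, Submodule.Quotient.mk_eq_zero] at h1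
    obtain ⟨c, hc⟩ := h1
    refine ⟨fun i => φ (c i), ?_⟩
    have h2 : (monomial α a : MvPolynomial (Fin 3) R) - comb b c ∈ J := by
      rw [← Ideal.Quotient.eq]
      have h3 : (Ideal.Quotient.mk J) (comb b c) = a • (Ideal.Quotient.mk J) (monomial α 1) := hc
      rw [h3]
      have h4 : a • (Ideal.Quotient.mk J) (monomial α 1) =
        (Ideal.Quotient.mk J) (a • (monomial α 1 : MvPolynomial (Fin 3) R)) := rfl
      rw [h4, MvPolynomial.smul_monomial, smul_eq_mul, mul_one]
    have h3 := Ideal.mem_map_of_mem (MvPolynomial.map φ) h2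
    rw [map_sub, MvPolynomial.map_monomial, map_comb] at h3
    exact h3
  have h1 : (1 : R') ∈ G := hG (by rw [h]; trivial)
  intro f
  induction f using MvPolynomial.induction_on' with
  | monomial α r =>
    have : r ∈ G := by simpa using G.mul_mem_left r h1
    exact this α
  | add p q hp hq =>
    obtain ⟨c, hc⟩ := hp
    obtain ⟨c', hc'⟩ := hq
    refine ⟨c + c', ?_⟩
    rw [comb_add]
    have := Ideal.add_mem _ hc hc'
    convert this using 1
    ring

/-- If the monomials span after base change to `R'`, no prime of `R'` lies over the support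
of the cokernel. -/
lemma not_mem_support_of_spanning {R' : Type u} [CommRing R'] [Algebra R R']
    (J : Ideal (MvPolynomial (Fin 3) R)) [Module.Finite R (MvPolynomial (Fin 3) R ⧸ J)]
    (h : ∀ f : MvPolynomial (Fin 3) R', ∃ c : Fin d → R',
      f - comb b c ∈ baseChange (algebraMap R R') J) (q' : PrimeSpectrum R') :
    PrimeSpectrum.comap (algebraMap R R') q' ∉ Module.support R (Coker b J) := by
  -- the base change of the cokernel vanishes
  have hzero : ∀ m : Coker b J, (1 : R') ⊗ₜ[R] m = 0 := by
    intro m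
    obtain ⟨x, rfl⟩ := Submodule.Quotient.mk_surjective _ m
    obtain ⟨f, rfl⟩ := Ideal.Quotient.mk_surjective x
    obtain ⟨c, hc⟩ := h (MvPolynomial.map (algebraMap R R') f)
    have h1 : (1 : R') ⊗ₜ[R] (Ideal.Quotient.mk J f) =
        ∑ i, c i ⊗ₜ[R] (Ideal.Quotient.mk J (monomial (b i) 1)) := by
      apply (baseChangeEquiv (R' := R') J).injective
      rw [baseChangeEquiv_tmul_mk, map_sum]
      have h2 : ∀ i, baseChangeEquiv (R' := R') J
          (c i ⊗ₜ[R] (Ideal.Quotient.mk J (monomial (b i) 1))) =
          Ideal.Quotient.mk _ (monomial (b i) (c i)) := by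
        intro i
        have : c i ⊗ₜ[R] (Ideal.Quotient.mk J (monomial (b i) (1 : R))) =
            c i • ((1 : R') ⊗ₜ[R] (Ideal.Quotient.mk J (monomial (b i) (1 : R)))) := by
          rw [TensorProduct.smul_tmul', smul_eq_mul, mul_one]
        rw [this, map_smul, baseChangeEquiv_tmul_mk, MvPolynomial.map_monomial, map_one]
        have h4 : c i • (Ideal.Quotient.mk (baseChange (algebraMap R R') J))
            (monomial (b i) 1) = (Ideal.Quotient.mk (baseChange (algebraMap R R') J))
            (c i • (monomial (b i) 1 : MvPolynomial (Fin 3) R')) := rfl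
        rw [h4, MvPolynomial.smul_monomial, smul_eq_mul, mul_one]
      simp only [h2]
      rw [← map_sum, Ideal.Quotient.eq]
      exact hc
    have h2 := congr_arg (LinearMap.lTensor R' (Submodule.mkQ (LinearMap.range (combMap b J)))) h1
    rw [LinearMap.lTensor_tmul, map_sum] at h2
    have h3 : ∀ i, (LinearMap.lTensor R' (Submodule.mkQ (LinearMap.range (combMap b J))))
        (c i ⊗ₜ[R] (Ideal.Quotient.mk J (monomial (b i) 1))) = 0 := by
      intro i
      rw [LinearMap.lTensor_tmul]
      have : (Submodule.mkQ (LinearMap.range (combMap b J)))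
          (Ideal.Quotient.mk J (monomial (b i) (1 : R))) = 0 := by
        rw [Submodule.mkQ_apply, Submodule.Quotient.mk_eq_zero]
        exact ⟨Pi.single i 1, by rw [← comb_single (b := b)]; rfl⟩
      rw [this, tmul_zero]
    simp only [h3, Finset.sum_const_zero] at h2
    exact h2
  intro hq
  rw [Module.mem_support_iff_nontrivial_residueField_tensorProduct] at hq
  set q := PrimeSpectrum.comap (algebraMap R R') q' with hqdef
  let K := q.asIdeal.ResidueField
  let L := q'.asIdeal.ResidueField
  -- the residue field extension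
  have hqI : q.asIdeal = Ideal.comap (algebraMap R R') q'.asIdeal := by
    rw [hqdef]; rfl
  let algKL : Algebra K L := (Ideal.ResidueField.map q.asIdeal q'.asIdeal
    (algebraMap R R') hqI).toAlgebra
  have : IsScalarTower R K L := by
    refine IsScalarTower.of_algebraMap_eq fun r => ?_
    have h1 : algebraMap R L r = algebraMap R' L (algebraMap R R' r) :=
      IsScalarTower.algebraMap_apply R R' L r
    rw [h1]
    exact (Ideal.ResidueField.map_algebraMap q.asIdeal q'.asIdeal (algebraMap R R') hqI r).symm
  -- `L ⊗_R Coker` is both zero and nonzero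
  have hL0 : Subsingleton (L ⊗[R] (Coker b J)) := by
    refine ⟨fun x y => ?_⟩
    have hall : ∀ x : L ⊗[R] (Coker b J), x = 0 := by
      intro x
      induction x using TensorProduct.induction_on with
      | zero => rfl
      | tmul l m =>
        have h1 : l ⊗ₜ[R] m = l • ((1 : L) ⊗ₜ[R] m) := by
          rw [TensorProduct.smul_tmul', smul_eq_mul, mul_one]
        have h2 : (1 : L) ⊗ₜ[R] m =
            (LinearMap.rTensor (Coker b J) (IsScalarTower.toAlgHom R R' L).toLinearMap)
              ((1 : R') ⊗ₜ[R] m) := by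
          rw [LinearMap.rTensor_tmul]
          simp
        rw [h1, h2, hzero m, map_zero, smul_zero]
      | add x y hx hy => rw [hx, hy, add_zero]
    rw [hall x, hall y]
  have hL1 : Nontrivial (L ⊗[R] (Coker b J)) := by
    have e := (TensorProduct.AlgebraTensorModule.cancelBaseChange R K L L (Coker b J))
    have : Nontrivial (L ⊗[K] (K ⊗[R] (Coker b J))) := by
      have : Nontrivial (K ⊗[R] (Coker b J)) := hq
      infer_instance
    exact e.symm.nontrivial
  exact not_nontrivial _ hL1

end Spanning

end Pool.Agent.Lib.MP_3c1e96_ag
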