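import Pool.Agent.Lib.MP_3c1e96_ag.MatEval

/-!
The border-basis description of the chart of `Hilb_13(𝔸³)` with basis
`1, x, y, z, x², xy, y², xz, yz, z², x²y, xy², xyz`.
The border monomials are numbered
`0:x³ 1:x²z 2:xz² 3:y³ 4:y²z 5:yz² 6:z³ 7:x³y 8:x²y² 9:x²yz 10:xy³ 11:xy²z 12:xyz²`.
-/

namespace Pool.Agent.Lib.MP_3c1e96_ag

universe u

open Matrix

/-- exponents of the 13 basis monomials -/
noncomputable def bas : Fin 13 → (Fin 3 →₀ ℕ) := fun i => Finsupp.equivFunOnFinite.symm
  (![![0,0,0], ![1,0,0], ![0,1,0], ![0,0,1], ![2,0,0], ![1,1,0], ![0,2,0], ![1,0,1], ![0,1,1],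
    ![0,0,2], ![2,1,0], ![1,2,0], ![1,1,1]] i)

lemma bas_zero : bas 0 = 0 := by
  ext j
  fin_cases j <;> rfl

/-- the product of `x_a` and the `j`-th basis monomial: a basis or a border monomial -/
def nxt : Fin 3 → Fin 13 → Fin 13 ⊕ Fin 13 :=
  ![![.inl 1, .inl 4, .inl 5, .inl 7, .inr 0, .inl 10, .inl 11, .inr 1, .inl 12, .inr 2,
      .inr 7, .inr 8, .inr 9],
    ![.inl 2, .inl 5, .inl 6, .inl 8, .inl 10, .inl 11, .inr 3, .inl 12, .inr 4, .inr 5,
      .inr 8, .inr 10, .inr 11],
    ![.inl 3, .inl 7, .inl 8, .inl 9, .inr 1, .inl 12, .inr 4, .inr 2, .inr 5, .inr 6,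
      .inr 9, .inr 11, .inr 12]]

section

variable {R : Type u} [CommRing R]

/-- column `j` of the multiplication matrix of `x_a` determined by the border vectors `r` -/
def colOf (r : Fin 13 → Fin 13 → R) (a : Fin 3) (j : Fin 13) : Fin 13 → R :=
  match nxt a j with
  | .inl j' => Pi.single j' 1
  | .inr μ => r μ

/-- the multiplication matrix -/
def matOf (r : Fin 13 → Fin 13 → R) (a : Fin 3) : Matrix (Fin 13) (Fin 13) R :=
  Matrix.of fun i j => colOf r a j i

/-- multiplication by `x` in coordinates -/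
def actx (r : Fin 13 → Fin 13 → R) (v : Fin 13 → R) : Fin 13 → R := fun i =>
  v 4 * r 0 i + v 7 * r 1 i + v 9 * r 2 i + v 10 * r 7 i + v 11 * r 8 i + v 12 * r 9 i +
    (![0, v 0, 0, 0, v 1, v 2, 0, v 3, 0, 0, v 5, v 6, v 8] : Fin 13 → R) i

/-- multiplication by `y` in coordinates -/
def acty (r : Fin 13 → Fin 13 → R) (v : Fin 13 → R) : Fin 13 → R := fun i =>
  v 6 * r 3 i + v 8 * r 4 i + v 9 * r 5 i + v 10 * r 8 i + v 11 * r 10 i + v 12 * r 11 i +
    (![0, 0, v 0, 0, 0, v 1, v 2, 0, v 3, 0, v 4, v 5, v 7] : Fin 13 → R) i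

/-- multiplication by `z` in coordinates -/
def actz (r : Fin 13 → Fin 13 → R) (v : Fin 13 → R) : Fin 13 → R := fun i =>
  v 4 * r 1 i + v 6 * r 4 i + v 7 * r 2 i + v 8 * r 5 i + v 9 * r 6 i + v 10 * r 9 i +
    v 11 * r 11 i + v 12 * r 12 i +
    (![0, 0, 0, v 0, 0, 0, 0, v 1, v 2, v 3, 0, 0, v 5] : Fin 13 → R) i

lemma mulVec_matOf (r : Fin 13 → Fin 13 → R) (a : Fin 3) (v : Fin 13 → R) (i : Fin 13) :
    ((matOf r a).mulVec v) i = ∑ j, v j * colOf r a j i := by
  simp only [mulVec, dotProduct, matOf, Matrix.of_apply]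
  exact Finset.sum_congr rfl fun j _ => mul_comm _ _

lemma mulVec_matOf_zero (r : Fin 13 → Fin 13 → R) (v : Fin 13 → R) :
    (matOf r 0).mulVec v = actx r v := by
  ext i
  rw [mulVec_matOf]
  simp only [Fin.sum_univ_succ, Fin.sum_univ_zero, colOf, nxt, actx]
  fin_cases i <;> simp <;> ring

lemma mulVec_matOf_one (r : Fin 13 → Fin 13 → R) (v : Fin 13 → R) :
    (matOf r 1).mulVec v = acty r v := by
  ext i
  rw [mulVec_matOf]
  simp only [Fin.sum_univ_succ, Fin.sum_univ_zero, colOf, nxt, acty]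
  fin_cases i <;> simp <;> ring

lemma mulVec_matOf_two (r : Fin 13 → Fin 13 → R) (v : Fin 13 → R) :
    (matOf r 2).mulVec v = actz r v := by
  ext i
  rw [mulVec_matOf]
  simp only [Fin.sum_univ_succ, Fin.sum_univ_zero, colOf, nxt, actz]
  fin_cases i <;> simp <;> ring

/-- the neighbour conditions on the border vectors, equivalent to the commutation of the
multiplication matrices -/
structure Conds (r : Fin 13 → Fin 13 → R) : Prop where
  c1 : acty r (r 0) = r 7
  c2 : actx r (r 3) = r 10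
  c3 : acty r (r 1) = r 9
  c4 : actx r (r 4) = r 11
  c5 : actx r (r 5) = r 12
  c6 : acty r (r 2) = r 12
  c7 : actx r (r 1) = actz r (r 0)
  c8 : actx r (r 2) = actz r (r 1)
  c9 : actx r (r 6) = actz r (r 2)
  c10 : acty r (r 4) = actz r (r 3)
  c11 : acty r (r 5) = actz r (r 4)
  c12 : acty r (r 6) = actz r (r 5)
  c13 : actx r (r 8) = acty r (r 7)
  c14 : actx r (r 10) = acty r (r 8)
  c15 : actx r (r 11) = acty r (r 9)
  c16 : actx r (r 9) = actz r (r 7)
  c17 : actx r (r 11) = actz r (r 8)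
  c18 : actx r (r 12) = actz r (r 9)
  c19 : acty r (r 9) = actz r (r 8)
  c20 : acty r (r 11) = actz r (r 10)
  c21 : acty r (r 12) = actz r (r 11)

lemma actx_single (r : Fin 13 → Fin 13 → R) (j : Fin 13) :
    actx r (Pi.single j 1) = colOf r 0 j := by
  rw [← mulVec_matOf_zero]
  ext i
  simp [matOf]

lemma acty_single (r : Fin 13 → Fin 13 → R) (j : Fin 13) :
    acty r (Pi.single j 1) = colOf r 1 j := by
  rw [← mulVec_matOf_one]
  ext i
  simp [matOf]

lemma actz_single (r : Fin 13 → Fin 13 → R) (j : Fin 13) :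
    actz r (Pi.single j 1) = colOf r 2 j := by
  rw [← mulVec_matOf_two]
  ext i
  simp [matOf]

lemma Conds.comm01 {r : Fin 13 → Fin 13 → R} (h : Conds r) (j : Fin 13) :
    actx r (colOf r 1 j) = acty r (colOf r 0 j) := by
  fin_cases j
  · exact (actx_single r 2).trans (acty_single r 1).symm
  · exact (actx_single r 5).trans (acty_single r 4).symm
  · exact (actx_single r 6).trans (acty_single r 5).symm
  · exact (actx_single r 8).trans (acty_single r 7).symm
  · exact (actx_single r 10).trans h.c1.symm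
  · exact (actx_single r 11).trans (acty_single r 10).symm
  · exact h.c2.trans (acty_single r 11).symm
  · exact (actx_single r 12).trans h.c3.symm
  · exact h.c4.trans (acty_single r 12).symm
  · exact h.c5.trans h.c6.symm
  · exact h.c13
  · exact h.c14
  · exact h.c15

lemma Conds.comm02 {r : Fin 13 → Fin 13 → R} (h : Conds r) (j : Fin 13) :
    actx r (colOf r 2 j) = actz r (colOf r 0 j) := by
  fin_cases j
  · exact (actx_single r 3).trans (actz_single r 1).symm
  · exact (actx_single r 7).trans (actz_single r 4).symm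
  · exact (actx_single r 8).trans (actz_single r 5).symm
  · exact (actx_single r 9).trans (actz_single r 7).symm
  · exact h.c7
  · exact (actx_single r 12).trans (actz_single r 10).symm
  · exact h.c4.trans (actz_single r 11).symm
  · exact h.c8
  · exact h.c5.trans (actz_single r 12).symm
  · exact h.c9
  · exact h.c16
  · exact h.c17
  · exact h.c18

lemma Conds.comm12 {r : Fin 13 → Fin 13 → R} (h : Conds r) (j : Fin 13) :
    acty r (colOf r 2 j) = actz r (colOf r 1 j) := by
  fin_cases j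
  · exact (acty_single r 3).trans (actz_single r 2).symm
  · exact (acty_single r 7).trans (actz_single r 5).symm
  · exact (acty_single r 8).trans (actz_single r 6).symm
  · exact (acty_single r 9).trans (actz_single r 8).symm
  · exact h.c3.trans (actz_single r 10).symm
  · exact (acty_single r 12).trans (actz_single r 11).symm
  · exact h.c10
  · exact h.c6.trans (actz_single r 12).symm
  · exact h.c11
  · exact h.c12
  · exact h.c19
  · exact h.c20
  · exact h.c21

lemma commute_of_cols {r : Fin 13 → Fin 13 → R} {a a' : Fin 3}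
    (h : ∀ j, (matOf r a).mulVec (colOf r a' j) = (matOf r a').mulVec (colOf r a j)) :
    Commute (matOf r a) (matOf r a') := by
  rw [Commute, SemiconjBy]
  refine Matrix.ext_of_mulVec_single fun j => ?_
  have e : ∀ a j, (matOf r a).mulVec (Pi.single j 1) = colOf r a j := by
    intro a j
    ext i
    simp [matOf]
  rw [← mulVec_mulVec, ← mulVec_mulVec, e, e, h]

lemma Conds.pComm {r : Fin 13 → Fin 13 → R} (h : Conds r) : PComm (matOf r) := by
  have h01 : Commute (matOf r 0) (matOf r 1) := commute_of_cols fun j => by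
    rw [mulVec_matOf_zero, mulVec_matOf_one, h.comm01]
  have h02 : Commute (matOf r 0) (matOf r 2) := commute_of_cols fun j => by
    rw [mulVec_matOf_zero, mulVec_matOf_two, h.comm02]
  have h12 : Commute (matOf r 1) (matOf r 2) := commute_of_cols fun j => by
    rw [mulVec_matOf_one, mulVec_matOf_two, h.comm12]
  intro a b
  fin_cases a <;> fin_cases b
  · exact Commute.refl _
  · exact h01
  · exact h02
  · exact h01.symm
  · exact Commute.refl _
  · exact h12
  · exact h02.symm
  · exact h12.symm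
  · exact Commute.refl _

lemma matOf_mulVec_single (r : Fin 13 → Fin 13 → R) (a : Fin 3) (j : Fin 13) :
    (matOf r a).mulVec (Pi.single j 1) = colOf r a j := by
  ext i
  simp [matOf]

lemma norm_matOf (r : Fin 13 → Fin 13 → R) (i : Fin 13) :
    (ordMon (matOf r) (bas i)).mulVec (Pi.single 0 1) = Pi.single i 1 := by
  obtain ⟨E, hE⟩ : ∃ E : Fin 13 → (Fin 13 → R), ∀ j, E j = Pi.single j 1 :=
    ⟨fun j => Pi.single j 1, fun _ => rfl⟩
  have e : ∀ (a : Fin 3) (j j' : Fin 13), nxt a j = Sum.inl j' →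
      (matOf r a).mulVec (E j) = E j' := by
    intro a j j' h
    rw [hE, hE, matOf_mulVec_single, colOf, h]
  have m : ∀ (T : Fin 3 → Matrix (Fin 13) (Fin 13) R) (α : Fin 3 →₀ ℕ) (v : Fin 13 → R),
      (ordMon T α).mulVec v =
        (T 0 ^ α 0).mulVec ((T 1 ^ α 1).mulVec ((T 2 ^ α 2).mulVec v)) := by
    intro T α v
    rw [mulVec_mulVec, mulVec_mulVec, ordMon]
  have m2 : ∀ (M : Matrix (Fin 13) (Fin 13) R) (v : Fin 13 → R),
      (M ^ 2).mulVec v = M.mulVec (M.mulVec v) := by
    intro M v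
    rw [mulVec_mulVec, pow_two]
  rw [m, ← hE, ← hE]
  fin_cases i <;>
    simp [bas, m2, e 0 0 1 rfl, e 1 0 2 rfl, e 2 0 3 rfl, e 0 1 4 rfl, e 0 2 5 rfl, e 1 2 6 rfl,
      e 0 3 7 rfl, e 1 3 8 rfl, e 2 3 9 rfl, e 0 5 10 rfl, e 0 6 11 rfl, e 0 8 12 rfl]

/-- border vectors satisfying the neighbour conditions give a point of the chart -/
lemma Conds.isChartPt {r : Fin 13 → Fin 13 → R} (h : Conds r) :
    IsChartPt bas 0 (matOf r) where
  comm := h.pComm
  norm := norm_matOf r

end

end Pool.Agent.Lib.MP_3c1e96_ag
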