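import Pool.Agent.Lib.MP_3c1e96_ag.Border

/-!
Every point of the chart comes from border vectors satisfying the neighbour conditions.
-/

namespace Pool.Agent.Lib.MP_3c1e96_ag

universe u

open Matrix

/-- exponents of the 13 border monomials -/
noncomputable def bord : Fin 13 → (Fin 3 →₀ ℕ) := fun i => Finsupp.equivFunOnFinite.symm
  (![![3,0,0], ![2,0,1], ![1,0,2], ![0,3,0], ![0,2,1], ![0,1,2], ![0,0,3], ![3,1,0], ![2,2,0],
    ![2,1,1], ![1,3,0], ![1,2,1], ![1,1,2]] i)

lemma nxt_exponent (a : Fin 3) (j : Fin 13) :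
    Finsupp.single a 1 + bas j = Sum.elim bas bord (nxt a j) := by
  ext l
  fin_cases a <;> fin_cases j <;> fin_cases l <;>
    simp [bas, bord, nxt]

section

variable {R : Type u} [CommRing R]

/-- the border vectors of a chart point -/
noncomputable def bvec (T : Fin 3 → Matrix (Fin 13) (Fin 13) R) (μ : Fin 13) : Fin 13 → R :=
  (ordMon T (bord μ)).mulVec (Pi.single 0 1)

lemma ordMon_single (T : Fin 3 → Matrix (Fin 13) (Fin 13) R) (a : Fin 3) :
    ordMon T (Finsupp.single a 1) = T a := by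
  fin_cases a <;> simp [ordMon]

lemma PComm.mulVec_ordMon {T : Fin 3 → Matrix (Fin 13) (Fin 13) R} (hT : PComm T) (a : Fin 3)
    (α : Fin 3 →₀ ℕ) (v : Fin 13 → R) :
    (T a).mulVec ((ordMon T α).mulVec v) = (ordMon T (Finsupp.single a 1 + α)).mulVec v := by
  rw [mulVec_mulVec, ordMon_add hT, ordMon_single]

lemma IsChartPt.mulVec_single {T : Fin 3 → Matrix (Fin 13) (Fin 13) R} (h : IsChartPt bas 0 T)
    (a : Fin 3) (j : Fin 13) :
    (T a).mulVec (Pi.single j 1) = colOf (bvec T) a j := by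
  rw [← h.norm j, h.comm.mulVec_ordMon, nxt_exponent, colOf]
  cases nxt a j with
  | inl j' => exact h.norm j'
  | inr μ => rfl

/-- a chart point is determined by its border vectors -/
lemma IsChartPt.eq_matOf {T : Fin 3 → Matrix (Fin 13) (Fin 13) R} (h : IsChartPt bas 0 T) :
    T = matOf (bvec T) := by
  funext a
  refine Matrix.ext_of_mulVec_single fun j => ?_
  rw [h.mulVec_single, matOf_mulVec_single]

lemma IsChartPt.actx_bvec {T : Fin 3 → Matrix (Fin 13) (Fin 13) R} (h : IsChartPt bas 0 T)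
    (μ : Fin 13) : actx (bvec T) (bvec T μ) =
      (ordMon T (Finsupp.single 0 1 + bord μ)).mulVec (Pi.single 0 1) := by
  rw [← mulVec_matOf_zero, ← h.eq_matOf]
  exact h.comm.mulVec_ordMon 0 _ _

lemma IsChartPt.acty_bvec {T : Fin 3 → Matrix (Fin 13) (Fin 13) R} (h : IsChartPt bas 0 T)
    (μ : Fin 13) : acty (bvec T) (bvec T μ) =
      (ordMon T (Finsupp.single 1 1 + bord μ)).mulVec (Pi.single 0 1) := by
  rw [← mulVec_matOf_one, ← h.eq_matOf]
  exact h.comm.mulVec_ordMon 1 _ _

lemma IsChartPt.actz_bvec {T : Fin 3 → Matrix (Fin 13) (Fin 13) R} (h : IsChartPt bas 0 T)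
    (μ : Fin 13) : actz (bvec T) (bvec T μ) =
      (ordMon T (Finsupp.single 2 1 + bord μ)).mulVec (Pi.single 0 1) := by
  rw [← mulVec_matOf_two, ← h.eq_matOf]
  exact h.comm.mulVec_ordMon 2 _ _

/-- the border vectors of a chart point satisfy the neighbour conditions -/
lemma IsChartPt.conds {T : Fin 3 → Matrix (Fin 13) (Fin 13) R} (h : IsChartPt bas 0 T) :
    Conds (bvec T) where
  c1 := by
    rw [h.acty_bvec, bvec]; congr 2; ext l; fin_cases l <;> simp [bord]
  c2 := by
    rw [h.actx_bvec, bvec]; congr 2; ext l; fin_cases l <;> simp [bord]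
  c3 := by
    rw [h.acty_bvec, bvec]; congr 2; ext l; fin_cases l <;> simp [bord]
  c4 := by
    rw [h.actx_bvec, bvec]; congr 2; ext l; fin_cases l <;> simp [bord]
  c5 := by
    rw [h.actx_bvec, bvec]; congr 2; ext l; fin_cases l <;> simp [bord]
  c6 := by
    rw [h.acty_bvec, bvec]; congr 2; ext l; fin_cases l <;> simp [bord]
  c7 := by
    rw [h.actx_bvec, h.actz_bvec]; congr 2; ext l; fin_cases l <;>
      simp [bord]
  c8 := by
    rw [h.actx_bvec, h.actz_bvec]; congr 2; ext l; fin_cases l <;>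
      simp [bord]
  c9 := by
    rw [h.actx_bvec, h.actz_bvec]; congr 2; ext l; fin_cases l <;>
      simp [bord]
  c10 := by
    rw [h.acty_bvec, h.actz_bvec]; congr 2; ext l; fin_cases l <;>
      simp [bord]
  c11 := by
    rw [h.acty_bvec, h.actz_bvec]; congr 2; ext l; fin_cases l <;>
      simp [bord]
  c12 := by
    rw [h.acty_bvec, h.actz_bvec]; congr 2; ext l; fin_cases l <;>
      simp [bord]
  c13 := by
    rw [h.actx_bvec, h.acty_bvec]; congr 2; ext l; fin_cases l <;>
      simp [bord]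
  c14 := by
    rw [h.actx_bvec, h.acty_bvec]; congr 2; ext l; fin_cases l <;>
      simp [bord]
  c15 := by
    rw [h.actx_bvec, h.acty_bvec]; congr 2; ext l; fin_cases l <;>
      simp [bord]
  c16 := by
    rw [h.actx_bvec, h.actz_bvec]; congr 2; ext l; fin_cases l <;>
      simp [bord]
  c17 := by
    rw [h.actx_bvec, h.actz_bvec]; congr 2; ext l; fin_cases l <;>
      simp [bord]
  c18 := by
    rw [h.actx_bvec, h.actz_bvec]; congr 2; ext l; fin_cases l <;>
      simp [bord]
  c19 := by
    rw [h.acty_bvec, h.actz_bvec]; congr 2; ext l; fin_cases l <;>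
      simp [bord]
  c20 := by
    rw [h.acty_bvec, h.actz_bvec]; congr 2; ext l; fin_cases l <;>
      simp [bord]
  c21 := by
    rw [h.acty_bvec, h.actz_bvec]; congr 2; ext l; fin_cases l <;>
      simp [bord]

end

end Pool.Agent.Lib.MP_3c1e96_ag
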