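import Pool.Agent.Lib.MP_3c1e96_ag.BaseChange

namespace Pool.Agent.Lib.MP_3c1e96_ag

universe u

open MvPolynomial

section ChartRing

variable (k : Type u) [Field k] {d : ℕ} (b : Fin d → (Fin 3 →₀ ℕ)) (i₀ : Fin d)

/-- variables: entries of three `d × d` matrices -/
abbrev Vars (d : ℕ) : Type := Fin 3 × Fin d × Fin d

/-- the generic matrices -/
noncomputable def genT (d : ℕ) (a : Fin 3) : Matrix (Fin d) (Fin d) (MvPolynomial (Vars d) k) :=
  Matrix.of fun i j => X (a, i, j)

/-- the relations: commutation and normalisation -/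
def relations : Set (MvPolynomial (Vars d) k) :=
  {f | (∃ a a' i j, f = (genT k d a * genT k d a' - genT k d a' * genT k d a) i j) ∨
    (∃ i j, f = ((ordMon (genT k d) (b i)).mulVec (Pi.single i₀ 1) - Pi.single i 1 :
      Fin d → MvPolynomial (Vars d) k) j)}

/-- The coordinate ring of the chart of `Hilb_d(𝔸³)` of ideals having the monomials `x^{b_i}`
as a basis of the quotient. -/
abbrev ChartRing : Type u := MvPolynomial (Vars d) k ⧸ Ideal.span (relations k b i₀)

/-- the universal matrices over the chart ring -/
noncomputable def chartT (a : Fin 3) : Matrix (Fin d) (Fin d) (ChartRing k b i₀) :=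
  (genT k d a).map (Ideal.Quotient.mk (Ideal.span (relations k b i₀)))

lemma isChartPt_chartT : IsChartPt b i₀ (chartT k b i₀) where
  comm := by
    intro a a'
    let q : MvPolynomial (Vars d) k →+* ChartRing k b i₀ := Ideal.Quotient.mk _
    have h : ∀ i j, q ((genT k d a * genT k d a' - genT k d a' * genT k d a) i j) = 0 := by
      intro i j
      exact Ideal.Quotient.eq_zero_iff_mem.mpr (Ideal.subset_span (Or.inl ⟨a, a', i, j, rfl⟩))
    have e : ∀ c, chartT k b i₀ c = q.mapMatrix (genT k d c) := fun c => rfl
    rw [Commute, SemiconjBy, e, e, ← map_mul, ← map_mul, ← sub_eq_zero, ← map_sub]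
    ext i j
    exact h i j
  norm := by
    intro i
    let q : MvPolynomial (Vars d) k →+* ChartRing k b i₀ := Ideal.Quotient.mk _
    have h : ∀ j, q (((ordMon (genT k d) (b i)).mulVec (Pi.single i₀ 1) - Pi.single i 1 :
        Fin d → MvPolynomial (Vars d) k) j) = 0 :=
      fun j => Ideal.Quotient.eq_zero_iff_mem.mpr (Ideal.subset_span (Or.inr ⟨i, j, rfl⟩))
    have e : ordMon (chartT k b i₀) (b i) = (ordMon (genT k d) (b i)).map q :=
      ordMon_map q (genT k d) (b i)
    rw [e]
    ext j
    have h2 := h j
    rw [Pi.sub_apply, map_sub, sub_eq_zero] at h2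
    simp only [Matrix.mulVec_single_one, Matrix.col_apply, Matrix.map_apply] at h2 ⊢
    rw [h2]
    by_cases hij : j = i
    · subst hij; simp
    · simp [Pi.single_eq_of_ne hij]

/-- the universal family over the chart -/
noncomputable def chartFamily : Ideal (MvPolynomial (Fin 3) (ChartRing k b i₀)) :=
  idealOf i₀ (chartT k b i₀) (isChartPt_chartT k b i₀).comm

variable {k b i₀}

variable {R : Type u} [CommRing R] [Algebra k R]

/-- the homomorphism from the chart ring given by a chart point -/
noncomputable def chartLift (T : Fin 3 → Matrix (Fin d) (Fin d) R) (h : IsChartPt b i₀ T) :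
    ChartRing k b i₀ →ₐ[k] R :=
  Ideal.Quotient.liftₐ (Ideal.span (relations k b i₀))
    (MvPolynomial.aeval (fun v : Vars d => T v.1 v.2.1 v.2.2)) (by
      let ev : MvPolynomial (Vars d) k →ₐ[k] R :=
        MvPolynomial.aeval (fun v : Vars d => T v.1 v.2.1 v.2.2)
      have e : ∀ a, (genT k d a).map (ev : MvPolynomial (Vars d) k →+* R) = T a := by
        intro a
        ext i j
        simp [genT, ev]
      have hle : Ideal.span (relations k b i₀) ≤ RingHom.ker (ev : MvPolynomial (Vars d) k →+* R) := by
        rw [Ideal.span_le]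
        rintro f (⟨a, a', i, j, rfl⟩ | ⟨i, j, rfl⟩)
        · rw [SetLike.mem_coe, RingHom.mem_ker]
          have h1 : ((genT k d a * genT k d a' - genT k d a' * genT k d a).map
              (ev : MvPolynomial (Vars d) k →+* R)) = 0 := by
            have e2 : ∀ M : Matrix (Fin d) (Fin d) (MvPolynomial (Vars d) k),
              M.map (ev : MvPolynomial (Vars d) k →+* R) =
                (ev : MvPolynomial (Vars d) k →+* R).mapMatrix M := fun M => rfl
            rw [e2, map_sub, map_mul, map_mul, ← e2, ← e2, e, e, (h.comm a a').eq, sub_self]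
          exact congr_fun (congr_fun h1 i) j
        · rw [SetLike.mem_coe, RingHom.mem_ker]
          have h1 := h.norm i
          have h2 : ordMon T (b i) =
              (ordMon (genT k d) (b i)).map (ev : MvPolynomial (Vars d) k →+* R) := by
            rw [← ordMon_map]
            congr 1
            funext a
            exact (e a).symm
          rw [h2] at h1
          have h3 := congr_fun h1 j
          simp only [Matrix.mulVec_single_one, Matrix.col_apply, Matrix.map_apply] at h3
          rw [Pi.sub_apply, map_sub, sub_eq_zero]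
          simp only [Matrix.mulVec_single_one, Matrix.col_apply]
          rw [h3]
          by_cases hij : j = i
          · subst hij; simp
          · simp [Pi.single_eq_of_ne hij]
      intro a ha
      exact hle ha)

lemma chartLift_T (T : Fin 3 → Matrix (Fin d) (Fin d) R) (h : IsChartPt b i₀ T) (a : Fin 3) :
    (chartT k b i₀ a).map (chartLift (k := k) T h : ChartRing k b i₀ →+* R) = T a := by
  ext i j
  have h1 : (chartLift (k := k) T h) (Ideal.Quotient.mk (Ideal.span (relations k b i₀))
      (X (a, i, j))) = MvPolynomial.aeval (fun v : Vars d => T v.1 v.2.1 v.2.2)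
        (X (a, i, j) : MvPolynomial (Vars d) k) := rfl
  rw [MvPolynomial.aeval_X] at h1
  exact h1

lemma chartLift_entry (T : Fin 3 → Matrix (Fin d) (Fin d) R) (h : IsChartPt b i₀ T) (a : Fin 3)
    (i j : Fin d) : chartLift (k := k) T h (chartT k b i₀ a i j) = T a i j :=
  congr_fun (congr_fun (chartLift_T (k := k) T h a) i) j

lemma chart_hom_ext {f g : ChartRing k b i₀ →ₐ[k] R}
    (h : ∀ a i j, f (chartT k b i₀ a i j) = g (chartT k b i₀ a i j)) : f = g := by
  apply Ideal.Quotient.algHom_ext
  apply MvPolynomial.algHom_ext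
  rintro ⟨a, i, j⟩
  exact h a i j

lemma baseChange_chartFamily (f : ChartRing k b i₀ →ₐ[k] R) :
    baseChange (f : ChartRing k b i₀ →+* R) (chartFamily k b i₀) =
      idealOf i₀ (fun a => (chartT k b i₀ a).map (f : ChartRing k b i₀ →+* R))
        ((isChartPt_chartT k b i₀).map (f : ChartRing k b i₀ →+* R)).comm :=
  baseChange_idealOf _ (isChartPt_chartT k b i₀)

lemma hasBasis_baseChange (f : ChartRing k b i₀ →ₐ[k] R) :
    HasBasis b (baseChange (f : ChartRing k b i₀ →+* R) (chartFamily k b i₀)) := by
  rw [baseChange_chartFamily]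
  exact hasBasis_idealOf ((isChartPt_chartT k b i₀).map (f : ChartRing k b i₀ →+* R))

lemma idealOf_congr {T T' : Fin 3 → Matrix (Fin d) (Fin d) R} (h : T = T')
    (hT : PComm T) (hT' : PComm T') : idealOf i₀ T hT = idealOf i₀ T' hT' := by
  subst h; rfl

lemma baseChange_chartLift (T : Fin 3 → Matrix (Fin d) (Fin d) R) (h : IsChartPt b i₀ T) :
    baseChange (chartLift (k := k) T h : ChartRing k b i₀ →+* R) (chartFamily k b i₀) =
      idealOf i₀ T h.comm := by
  rw [baseChange_chartFamily]
  apply idealOf_congr
  funext a
  exact chartLift_T (k := k) T h a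

/-- representability of the chart -/
lemma exists_hom_iff (hi₀ : b i₀ = 0) (J : Ideal (MvPolynomial (Fin 3) R)) :
    (∃ f : ChartRing k b i₀ →ₐ[k] R,
      baseChange (f : ChartRing k b i₀ →+* R) (chartFamily k b i₀) = J) ↔ HasBasis b J := by
  constructor
  · rintro ⟨f, rfl⟩
    exact hasBasis_baseChange f
  · intro hJ
    refine ⟨chartLift hJ.mat (hJ.isChartPt hi₀), ?_⟩
    rw [baseChange_chartLift]
    exact hJ.idealOf_mat hi₀

variable (k)

/-- The chart is an affine open subscheme of the Hilbert scheme. -/
theorem isAffineOpen_chart (hi₀ : b i₀ = 0) :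
    IsAffineOpen k d (ChartRing k b i₀) (chartFamily k b i₀) where
  isFamily := isFamily_of_hasBasis b (hasBasis_idealOf (isChartPt_chartT k b i₀))
  mono := by
    intro R _ _ f g h
    rw [baseChange_chartFamily, baseChange_chartFamily] at h
    have := idealOf_injective ((isChartPt_chartT k b i₀).map (f : ChartRing k b i₀ →+* R))
      ((isChartPt_chartT k b i₀).map (g : ChartRing k b i₀ →+* R)) h
    apply chart_hom_ext
    intro a i j
    exact congr_fun (congr_fun (congr_fun this a) i) j
  isOpen := by
    intro R _ _ J hJ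
    obtain ⟨h1, h2, h3⟩ := id hJ
    refine ⟨⟨(Module.support R (Coker b J))ᶜ, ?_⟩, ?_⟩
    · rw [isOpen_compl_iff, Module.support_eq_zeroLocus]
      exact PrimeSpectrum.isClosed_zeroLocus _
    · intro R' _ _ φ
      rw [exists_hom_iff hi₀]
      constructor
      · rintro hB _ ⟨q', rfl⟩
        let _ := (φ : R →+* R').toAlgebra
        exact not_mem_support_of_spanning b J hB.1 q'
      · intro hU
        apply hasBasis_of_spanning b (hJ.baseChange _)
        apply spanning_of_map_annihilator
        by_contra hne
        obtain ⟨m, hm, hle⟩ := Ideal.exists_le_maximal _ hne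
        have := hU ⟨⟨m, hm.isPrime⟩, rfl⟩
        apply this
        rw [Module.support_eq_zeroLocus]
        intro x hx
        exact hle (Ideal.mem_map_of_mem _ hx)

end ChartRing

end Pool.Agent.Lib.MP_3c1e96_ag
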