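import Pool.Agent.Lib.MP_3c1e96_ag.LinQuad

/-!
Explicit solution of the first and second order neighbour conditions.
-/

namespace Pool.Agent.Lib.MP_3c1e96_ag

universe u

variable {k : Type u} [Field k]

def R1r0 (w : Fin 45 → k) : Fin 13 → k :=
    ![0, 0, 0, 0, w 0, w 1, w 2, w 3, w 4, w 5, w 6, w 7, w 8]

def R1r1 (w : Fin 45 → k) : Fin 13 → k :=
    ![0, 0, 0, 0, w 18, 0, 0, w 19, w 1 + w 5, w 20, w 21, w 22, w 23]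

def R1r2 (w : Fin 45 → k) : Fin 13 → k :=
    ![0, 0, 0, 0, 0, 0, 0, w 29, w 20, w 30, w 31, w 32, w 33]

def R1r3 (w : Fin 45 → k) : Fin 13 → k :=
    ![0, 0, 0, 0, w 9, w 10, w 11, w 12, w 13, w 14, w 15, w 16, w 17]

def R1r4 (w : Fin 45 → k) : Fin 13 → k :=
    ![0, 0, 0, 0, 0, 0, w 18, w 10 + w 14, w 24, w 25, w 26, w 27, w 28]

def R1r5 (w : Fin 45 → k) : Fin 13 → k :=
    ![0, 0, 0, 0, 0, 0, 0, w 25, w 29, w 34, w 35, w 36, w 37]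

def R1r6 (w : Fin 45 → k) : Fin 13 → k :=
    ![0, 0, 0, 0, 0, -w 18, 0, w 34 - w 24, w 30 - w 19, w 38, w 39, w 40, w 41]

def R1r7 (w : Fin 45 → k) : Fin 13 → k :=
    ![0, 0, 0, 0, 0, 0, 0, 0, 0, 0, w 0, w 1, w 3]

def R1r8 (w : Fin 45 → k) : Fin 13 → k :=
    ![0, 0, 0, 0, 0, 0, 0, 0, 0, 0, w 42, w 43, w 44]

def R1r9 (w : Fin 45 → k) : Fin 13 → k :=
    ![0, 0, 0, 0, 0, 0, 0, 0, 0, 0, w 18, 0, w 19]

def R1r10 (w : Fin 45 → k) : Fin 13 → k :=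
    ![0, 0, 0, 0, 0, 0, 0, 0, 0, 0, w 10, w 11, w 13]

def R1r11 (w : Fin 45 → k) : Fin 13 → k :=
    ![0, 0, 0, 0, 0, 0, 0, 0, 0, 0, 0, w 18, w 24]

def R1r12 (w : Fin 45 → k) : Fin 13 → k :=
    ![0, 0, 0, 0, 0, 0, 0, 0, 0, 0, 0, 0, w 29]

/-- border vectors, order 1 part -/
def R1 (w : Fin 45 → k) : Fin 13 → Fin 13 → k :=
  ![R1r0 w, R1r1 w, R1r2 w, R1r3 w, R1r4 w, R1r5 w, R1r6 w, R1r7 w, R1r8 w, R1r9 w, R1r10 w, R1r11 w, R1r12 w]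

lemma R1_0 (w : Fin 45 → k) : R1 w 0 = R1r0 w := rfl
lemma R1_1 (w : Fin 45 → k) : R1 w 1 = R1r1 w := rfl
lemma R1_2 (w : Fin 45 → k) : R1 w 2 = R1r2 w := rfl
lemma R1_3 (w : Fin 45 → k) : R1 w 3 = R1r3 w := rfl
lemma R1_4 (w : Fin 45 → k) : R1 w 4 = R1r4 w := rfl
lemma R1_5 (w : Fin 45 → k) : R1 w 5 = R1r5 w := rfl
lemma R1_6 (w : Fin 45 → k) : R1 w 6 = R1r6 w := rfl
lemma R1_7 (w : Fin 45 → k) : R1 w 7 = R1r7 w := rfl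
lemma R1_8 (w : Fin 45 → k) : R1 w 8 = R1r8 w := rfl
lemma R1_9 (w : Fin 45 → k) : R1 w 9 = R1r9 w := rfl
lemma R1_10 (w : Fin 45 → k) : R1 w 10 = R1r10 w := rfl
lemma R1_11 (w : Fin 45 → k) : R1 w 11 = R1r11 w := rfl
lemma R1_12 (w : Fin 45 → k) : R1 w 12 = R1r12 w := rfl

def R2r0 (w : Fin 45 → k) : Fin 13 → k :=
    ![0, w 3 * w 18 + w 5 * w 24 + w 19 * w 19 + 2 * w 20 * w 29 + w 30 * w 30 - w 0 * w 19 - w 1
      * w 34 - w 2 * w 10 - w 2 * w 14 - w 3 * w 29 - w 4 * w 25 - 2 * w 5 * w 34 - w 18 * w 20 -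
      w 19 * w 30 - w 20 * w 38, w 1 * w 19 + w 4 * w 18 + 2 * w 5 * w 19 + w 20 * w 20 - w 0 * w
      1 - w 0 * w 5 - w 2 * w 24 - w 3 * w 20 - w 4 * w 29 - w 5 * w 30, w 5 * w 18 + w 19 * w 20
      + w 20 * w 30 - w 0 * w 20 - w 2 * w 25 - w 3 * w 30 - w 4 * w 34 - w 5 * w 38, 0, 0, 0, 0,
      0, 0, 0, 0, 0]

def R2r1 (w : Fin 45 → k) : Fin 13 → k :=
    ![0, -w 18 * w 19, -w 1 * w 18 - w 5 * w 18, w 20 * w 29 + w 30 * w 30 - w 1 * w 34 - w 5 * w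
      34 - w 18 * w 20 - w 19 * w 30 - w 20 * w 38, 0, w 2 * w 26 + w 3 * w 31 + w 4 * w 35 + w 5
      * w 39 - w 18 * w 23 - w 19 * w 21 - w 20 * w 31 - w 22 * w 42, w 0 * w 22 + w 2 * w 27 + w
      3 * w 32 + w 4 * w 36 + w 5 * w 40 - w 1 * w 21 - w 19 * w 22 - w 20 * w 32 - w 22 * w 43,
      0, w 0 * w 23 + w 2 * w 28 + w 3 * w 33 + w 4 * w 37 + w 5 * w 41 + w 6 * w 19 + w 7 * w 24
      + w 8 * w 29 - w 3 * w 21 - w 8 * w 18 - 2 * w 19 * w 23 - w 20 * w 33 - w 22 * w 44, 0, 0,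
      0, 0]

def R2r2 (w : Fin 45 → k) : Fin 13 → k :=
    ![0, w 18 * w 18 - w 18 * w 29, -w 18 * w 20, w 1 * w 25 + w 5 * w 25 + w 20 * w 34 - w 20 *
      w 24 - w 29 * w 30, w 0 * w 35 + w 14 * w 32 + 2 * w 18 * w 27 + w 21 * w 25 + w 24 * w 36
      + w 25 * w 40 + w 31 * w 34 + w 36 * w 42 - w 11 * w 36 - w 20 * w 26 - w 27 * w 29 - w 30
      * w 35 - w 31 * w 42 - w 34 * w 36 - w 35 * w 43, w 1 * w 35 + w 5 * w 35 + 2 * w 18 * w 21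
      + w 19 * w 31 + w 20 * w 39 - w 0 * w 31 - w 18 * w 33 - w 21 * w 29 - w 30 * w 31 - w 32 *
      w 42, w 1 * w 36 + w 5 * w 36 + 2 * w 18 * w 22 + w 19 * w 32 + w 20 * w 40 - w 1 * w 31 -
      w 22 * w 29 - w 30 * w 32 - w 32 * w 43, 0, w 1 * w 37 + w 2 * w 26 + w 4 * w 35 + w 5 * w
      37 + w 5 * w 39 + w 20 * w 41 + w 22 * w 24 - w 20 * w 31 - w 22 * w 42 - w 30 * w 33 - w
      32 * w 44, 0, 0, 0, 0]

def R2r3 (w : Fin 45 → k) : Fin 13 → k :=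
    ![0, w 10 * w 24 + w 12 * w 18 + 2 * w 14 * w 24 + w 25 * w 25 - w 9 * w 19 - w 10 * w 11 - w
      11 * w 14 - w 12 * w 29 - w 13 * w 25 - w 14 * w 34, w 13 * w 18 + w 14 * w 19 + w 24 * w
      24 + 2 * w 25 * w 29 + w 34 * w 34 - w 1 * w 9 - w 5 * w 9 - w 10 * w 30 - w 11 * w 24 - w
      12 * w 20 - w 13 * w 29 - 2 * w 14 * w 30 - w 18 * w 25 - w 24 * w 34 - w 25 * w 38, w 14 *
      w 18 + w 24 * w 25 + w 25 * w 34 - w 9 * w 20 - w 11 * w 25 - w 12 * w 30 - w 13 * w 34 - w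
      14 * w 38, 0, 0, 0, 0, 0, 0, 0, 0, 0]

def R2r4 (w : Fin 45 → k) : Fin 13 → k :=
    ![0, -w 10 * w 18 - w 14 * w 18, -w 18 * w 24, w 25 * w 29 + w 34 * w 34 - w 10 * w 30 - w 14
      * w 30 - w 18 * w 25 - w 24 * w 34 - w 25 * w 38, w 9 * w 21 + w 11 * w 26 + w 12 * w 31 +
      w 13 * w 35 + w 14 * w 39 - w 10 * w 27 - w 24 * w 26 - w 25 * w 35 - w 26 * w 42, w 9 * w
      22 + w 12 * w 32 + w 13 * w 36 + w 14 * w 40 - w 18 * w 28 - w 24 * w 27 - w 25 * w 36 - w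
      26 * w 43, w 0 * w 39 + w 5 * w 26 + w 18 * w 36 + w 19 * w 27 + w 21 * w 34 + w 21 * w 42
      + w 29 * w 36 + w 31 * w 38 + w 34 * w 40 + w 40 * w 42 - w 11 * w 40 - w 14 * w 22 - w 18
      * w 31 - w 21 * w 24 - w 27 * w 30 - w 27 * w 43 - w 29 * w 31 - w 30 * w 39 - w 36 * w 38
      - w 39 * w 43, w 9 * w 23 + w 11 * w 28 + w 12 * w 33 + w 13 * w 37 + w 14 * w 41 + w 15 *
      w 19 + w 16 * w 24 + w 17 * w 29 - w 13 * w 27 - w 17 * w 18 - 2 * w 24 * w 28 - w 25 * w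
      37 - w 26 * w 44, 0, 0, 0, 0, 0]

def R2r5 (w : Fin 45 → k) : Fin 13 → k :=
    ![0, -w 18 * w 25, w 18 * w 18 - w 18 * w 29, w 10 * w 20 + w 14 * w 20 + w 25 * w 30 - w 19
      * w 25 - w 29 * w 34, w 10 * w 31 + w 14 * w 31 + 2 * w 18 * w 26 + w 24 * w 35 + w 25 * w
      39 - w 10 * w 36 - w 26 * w 29 - w 34 * w 35 - w 35 * w 42, w 10 * w 32 + w 14 * w 32 + 2 *
      w 18 * w 27 + w 24 * w 36 + w 25 * w 40 - w 11 * w 36 - w 18 * w 37 - w 27 * w 29 - w 34 *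
      w 36 - w 35 * w 43, w 5 * w 35 + w 11 * w 32 + 2 * w 18 * w 21 + w 19 * w 31 + w 20 * w 27
      + w 20 * w 39 + w 30 * w 36 + w 31 * w 43 - w 0 * w 31 - w 21 * w 29 - w 22 * w 25 - w 30 *
      w 31 - w 32 * w 34 - w 32 * w 42 - w 36 * w 43, w 9 * w 22 + w 10 * w 33 + w 12 * w 32 + w
      14 * w 33 + w 14 * w 40 + w 19 * w 26 + w 25 * w 41 - w 25 * w 36 - w 26 * w 43 - w 34 * w
      37 - w 35 * w 44, w 13 * w 32 + w 20 * w 28 + w 24 * w 33 + w 30 * w 37 + w 31 * w 44 - w 3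
      * w 35 - w 19 * w 37 - w 23 * w 25 - w 33 * w 34 - w 36 * w 44, 0, 0, 0, 0]

def R2r6 (w : Fin 45 → k) : Fin 13 → k :=
    ![0, w 18 * w 24 - w 18 * w 34, w 18 * w 19 - w 18 * w 30, w 18 * w 18 + w 19 * w 24 + w 29 *
      w 29 + w 30 * w 34 - w 1 * w 10 - w 1 * w 14 - w 5 * w 10 - w 5 * w 14 - w 18 * w 29 - w 19
      * w 34 - w 24 * w 30 - w 29 * w 38, w 18 * w 35 + w 19 * w 26 + w 24 * w 27 + w 25 * w 36 +
      w 26 * w 43 + w 29 * w 35 + w 34 * w 39 - w 0 * w 26 - w 9 * w 22 - w 10 * w 21 - w 10 * w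
      40 - w 12 * w 32 - w 13 * w 36 - w 14 * w 21 - w 14 * w 40 - w 26 * w 30 - w 27 * w 42 - w
      35 * w 38 - w 39 * w 42, w 18 * w 31 + w 21 * w 24 + w 29 * w 31 + w 30 * w 39 - w 0 * w 39
      - w 1 * w 26 - w 5 * w 26 - w 10 * w 22 - w 18 * w 41 - w 21 * w 34 - w 21 * w 42 - w 31 *
      w 38 - w 40 * w 42, w 18 * w 32 + w 19 * w 21 + w 20 * w 31 + w 22 * w 24 + w 22 * w 42 + w
      29 * w 32 + w 30 * w 40 - w 1 * w 27 - w 1 * w 39 - w 2 * w 26 - w 3 * w 31 - w 4 * w 35 -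
      w 5 * w 27 - w 5 * w 39 - w 11 * w 22 - w 21 * w 43 - w 22 * w 34 - w 32 * w 38 - w 40 * w
      43, w 10 * w 32 + w 14 * w 32 + 2 * w 18 * w 27 + w 19 * w 35 + 2 * w 24 * w 36 + w 25 * w
      40 + 2 * w 29 * w 37 + w 34 * w 41 - w 3 * w 26 - w 10 * w 23 - w 11 * w 36 - w 13 * w 40 -
      w 14 * w 23 - w 18 * w 37 - w 24 * w 41 - w 27 * w 29 - w 27 * w 44 - w 28 * w 30 - w 34 *
      w 36 - w 35 * w 43 - w 37 * w 38 - w 39 * w 44, w 1 * w 35 + w 5 * w 35 + 2 * w 18 * w 21 +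
      2 * w 19 * w 31 + w 20 * w 39 + w 24 * w 32 + 2 * w 29 * w 33 + w 30 * w 41 - w 0 * w 31 -
      w 1 * w 28 - w 3 * w 39 - w 5 * w 28 - w 13 * w 22 - w 18 * w 33 - w 19 * w 41 - w 21 * w
      29 - w 21 * w 44 - w 23 * w 34 - w 30 * w 31 - w 32 * w 42 - w 33 * w 38 - w 40 * w 44, 0,
      0, 0, 0]

def R2r7 (w : Fin 45 → k) : Fin 13 → k :=
    ![0, 0, 0, 0, w 2 * w 9, w 3 * w 18 + w 5 * w 24 + w 19 * w 19 + 2 * w 20 * w 29 + w 30 * w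
      30 - w 0 * w 19 - w 1 * w 34 - w 2 * w 14 - w 3 * w 29 - w 4 * w 25 - 2 * w 5 * w 34 - w 18
      * w 20 - w 19 * w 30 - w 20 * w 38, w 1 * w 19 + w 2 * w 11 + 2 * w 4 * w 18 + 2 * w 5 * w
      19 + w 20 * w 20 - w 0 * w 1 - w 0 * w 5 - w 2 * w 24 - w 3 * w 20 - w 4 * w 29 - w 5 * w
      30, w 2 * w 12 + w 4 * w 10 + w 4 * w 14 + w 5 * w 25, w 2 * w 13 + w 4 * w 24 + w 5 * w 18
      + w 5 * w 29 + w 19 * w 20 + w 20 * w 30 - w 0 * w 20 - w 2 * w 25 - w 3 * w 30 - w 4 * w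
      34 - w 5 * w 38, w 2 * w 14 + w 4 * w 25 + w 5 * w 34, w 2 * w 15 + w 4 * w 26 + w 5 * w 35
      + w 6 * w 42 + w 7 * w 10, w 2 * w 16 + w 4 * w 27 + w 5 * w 36 + w 6 * w 43 + w 7 * w 11 +
      w 8 * w 18, w 2 * w 17 + w 4 * w 28 + w 5 * w 37 + w 6 * w 44 + w 7 * w 13 + w 8 * w 24]

def R2r8 (w : Fin 45 → k) : Fin 13 → k :=
    ![0, 0, 0, 0, w 0 * w 10 + w 11 * w 42 + 2 * w 13 * w 18 + w 14 * w 19 + w 24 * w 24 + 2 * w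
      25 * w 29 + w 34 * w 34 - w 5 * w 9 - w 10 * w 30 - w 10 * w 43 - w 11 * w 24 - w 12 * w 20
      - w 13 * w 29 - 2 * w 14 * w 30 - w 18 * w 25 - w 24 * w 34 - w 25 * w 38 - w 42 * w 42, w
      1 * w 10 + w 2 * w 9 - w 18 * w 44 - w 42 * w 43, w 0 * w 43 + w 1 * w 11 + 2 * w 3 * w 18
      + w 5 * w 24 + w 19 * w 19 + 2 * w 20 * w 29 + w 30 * w 30 - w 0 * w 19 - w 1 * w 34 - w 1
      * w 42 - w 2 * w 14 - w 3 * w 29 - w 4 * w 25 - 2 * w 5 * w 34 - w 18 * w 20 - w 19 * w 30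
      - w 20 * w 38 - w 43 * w 43, w 1 * w 12 + w 3 * w 10 + w 4 * w 9 + w 5 * w 12 + w 11 * w 44
      + w 13 * w 19 + w 14 * w 20 - w 13 * w 43 - w 24 * w 44 - w 42 * w 44, w 0 * w 44 + w 1 * w
      13 + w 2 * w 12 + w 3 * w 24 + w 4 * w 10 + w 4 * w 14 + w 5 * w 25 - w 3 * w 42 - w 19 * w
      44 - w 43 * w 44, w 1 * w 14 + w 5 * w 10 + w 5 * w 14 + 2 * w 18 * w 44 + w 19 * w 24 + w
      20 * w 25 + w 42 * w 43 - w 2 * w 9 - w 19 * w 42 - w 24 * w 43 - w 29 * w 44, 0, 0, 0]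

def R2r9 (w : Fin 45 → k) : Fin 13 → k :=
    ![0, 0, 0, 0, 0, -w 18 * w 19, 0, w 1 * w 10 + w 1 * w 14 + w 5 * w 10 + w 5 * w 14 + w 20 *
      w 25, w 1 * w 24 + w 5 * w 24 + 2 * w 20 * w 29 + w 30 * w 30 - w 1 * w 34 - w 5 * w 34 - w
      18 * w 20 - w 19 * w 30 - w 20 * w 38, w 1 * w 25 + w 5 * w 25 + w 20 * w 34, w 1 * w 26 +
      w 5 * w 26 + w 10 * w 22 + w 20 * w 35 + w 21 * w 42, w 1 * w 27 + w 2 * w 26 + w 3 * w 31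
      + w 4 * w 35 + w 5 * w 27 + w 5 * w 39 + w 11 * w 22 + w 20 * w 36 + w 21 * w 43 - w 19 * w
      21 - w 20 * w 31 - w 22 * w 42, w 1 * w 28 + w 5 * w 28 + w 13 * w 22 + w 20 * w 37 + w 21
      * w 44 + w 23 * w 24]

def R2r10 (w : Fin 45 → k) : Fin 13 → k :=
    ![0, 0, 0, 0, w 0 * w 9 + w 10 * w 24 + 2 * w 12 * w 18 + 2 * w 14 * w 24 + w 25 * w 25 - w 9
      * w 19 - w 10 * w 11 - w 11 * w 14 - w 12 * w 29 - w 13 * w 25 - w 14 * w 34, w 13 * w 18 +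
      w 14 * w 19 + w 24 * w 24 + 2 * w 25 * w 29 + w 34 * w 34 - w 5 * w 9 - w 10 * w 30 - w 11
      * w 24 - w 12 * w 20 - w 13 * w 29 - 2 * w 14 * w 30 - w 18 * w 25 - w 24 * w 34 - w 25 * w
      38, w 2 * w 9, w 3 * w 9 + w 12 * w 19 + w 14 * w 18 + w 14 * w 29 + w 24 * w 25 + w 25 * w
      34 - w 9 * w 20 - w 11 * w 25 - w 12 * w 30 - w 13 * w 34 - w 14 * w 38, w 1 * w 12 + w 4 *
      w 9 + w 5 * w 12 + w 14 * w 20, w 5 * w 9 + w 12 * w 20 + w 14 * w 30, w 0 * w 15 + w 6 * w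
      9 + w 12 * w 21 + w 14 * w 31 + w 16 * w 42 + w 17 * w 18, w 1 * w 15 + w 7 * w 9 + w 12 *
      w 22 + w 14 * w 32 + w 16 * w 43, w 3 * w 15 + w 8 * w 9 + w 12 * w 23 + w 14 * w 33 + w 16
      * w 44 + w 17 * w 19]

def R2r11 (w : Fin 45 → k) : Fin 13 → k :=
    ![0, 0, 0, 0, 0, -w 18 * w 24, 0, w 10 * w 19 + w 14 * w 19 + 2 * w 25 * w 29 + w 34 * w 34 -
      w 10 * w 30 - w 14 * w 30 - w 18 * w 25 - w 24 * w 34 - w 25 * w 38, w 1 * w 10 + w 1 * w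
      14 + w 5 * w 10 + w 5 * w 14 + w 20 * w 25, w 10 * w 20 + w 14 * w 20 + w 25 * w 30, w 0 *
      w 26 + w 9 * w 22 + w 10 * w 21 + w 12 * w 32 + w 13 * w 36 + w 14 * w 21 + w 14 * w 40 + w
      25 * w 31 + w 27 * w 42 - w 24 * w 27 - w 25 * w 36 - w 26 * w 43, w 0 * w 39 + w 1 * w 26
      + w 5 * w 26 + w 10 * w 22 + w 18 * w 36 + w 19 * w 27 + w 21 * w 34 + w 21 * w 42 + w 25 *
      w 32 + w 29 * w 36 + w 31 * w 38 + w 34 * w 40 + w 40 * w 42 - w 11 * w 40 - w 18 * w 31 -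
      w 21 * w 24 - w 27 * w 30 - w 29 * w 31 - w 30 * w 39 - w 36 * w 38 - w 39 * w 43, w 3 * w
      26 + w 10 * w 23 + w 14 * w 23 + w 19 * w 28 + w 25 * w 33 + w 27 * w 44]

def R2r12 (w : Fin 45 → k) : Fin 13 → k :=
    ![0, 0, 0, 0, 0, w 18 * w 18 - w 18 * w 29, 0, w 10 * w 20 + w 14 * w 20 + w 25 * w 30, w 1 *
      w 25 + w 5 * w 25 + w 20 * w 34, w 20 * w 25 + w 30 * w 34, w 0 * w 35 + w 10 * w 32 + w 14
      * w 32 + 2 * w 18 * w 27 + w 21 * w 25 + w 24 * w 36 + w 25 * w 40 + w 31 * w 34 + w 36 * w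
      42 - w 11 * w 36 - w 27 * w 29 - w 34 * w 36 - w 35 * w 43, w 1 * w 35 + w 5 * w 35 + w 11
      * w 32 + 2 * w 18 * w 21 + w 19 * w 31 + w 20 * w 27 + w 20 * w 39 + w 30 * w 36 + w 31 * w
      43 - w 0 * w 31 - w 21 * w 29 - w 30 * w 31 - w 32 * w 42, w 13 * w 32 + w 20 * w 28 + w 24
      * w 33 + w 30 * w 37 + w 31 * w 44]

/-- border vectors, order 2 part -/
def R2 (w : Fin 45 → k) : Fin 13 → Fin 13 → k :=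
  ![R2r0 w, R2r1 w, R2r2 w, R2r3 w, R2r4 w, R2r5 w, R2r6 w, R2r7 w, R2r8 w, R2r9 w, R2r10 w, R2r11 w, R2r12 w]

lemma R2_0 (w : Fin 45 → k) : R2 w 0 = R2r0 w := rfl
lemma R2_1 (w : Fin 45 → k) : R2 w 1 = R2r1 w := rfl
lemma R2_2 (w : Fin 45 → k) : R2 w 2 = R2r2 w := rfl
lemma R2_3 (w : Fin 45 → k) : R2 w 3 = R2r3 w := rfl
lemma R2_4 (w : Fin 45 → k) : R2 w 4 = R2r4 w := rfl
lemma R2_5 (w : Fin 45 → k) : R2 w 5 = R2r5 w := rfl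
lemma R2_6 (w : Fin 45 → k) : R2 w 6 = R2r6 w := rfl
lemma R2_7 (w : Fin 45 → k) : R2 w 7 = R2r7 w := rfl
lemma R2_8 (w : Fin 45 → k) : R2 w 8 = R2r8 w := rfl
lemma R2_9 (w : Fin 45 → k) : R2 w 9 = R2r9 w := rfl
lemma R2_10 (w : Fin 45 → k) : R2 w 10 = R2r10 w := rfl
lemma R2_11 (w : Fin 45 → k) : R2 w 11 = R2r11 w := rfl
lemma R2_12 (w : Fin 45 → k) : R2 w 12 = R2r12 w := rfl

end Pool.Agent.Lib.MP_3c1e96_ag
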