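import Mathlib

/-!
Definitions used in the statement about mildly singular points of `Hilb_d(𝔸³)`.
Everything is over a fixed field `k`; test rings are commutative `k`-algebras.
-/

namespace Pool.Agent.Lib.MP_3c1e96_ag

universe u

open MvPolynomial

section Families

/-- The `R`-module `M` is finite, projective and of constant rank `d`, that is, finite locally
free of rank `d`. -/
def IsLocallyFree (d : ℕ) (R M : Type u) [CommRing R] [AddCommGroup M] [Module R M] : Prop :=
  Module.Finite R M ∧ Module.Projective R M ∧
    ∀ q : PrimeSpectrum R, Module.rankAtStalk (R := R) M q = d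

/-- An `R`-point of the Hilbert scheme `Hilb_d(𝔸³)`: an ideal `J` of `R[x₁,x₂,x₃]` such that
`R[x₁,x₂,x₃]/J` is a finite locally free `R`-module of constant rank `d`. -/
def IsFamily (d : ℕ) (R : Type u) [CommRing R] (J : Ideal (MvPolynomial (Fin 3) R)) : Prop :=
  IsLocallyFree d R (MvPolynomial (Fin 3) R ⧸ J)

/-- Base change of the family `J` along a ring homomorphism `φ : R → R'`:
the ideal of `R'[x₁,x₂,x₃]` generated by the image of `J`. -/
noncomputable def baseChange {R R' : Type u} [CommRing R] [CommRing R'] (φ : R →+* R')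
    (J : Ideal (MvPolynomial (Fin 3) R)) : Ideal (MvPolynomial (Fin 3) R') :=
  J.map (MvPolynomial.map φ)

end Families

section OpenSubschemes

variable (k : Type u) [Field k]

/-- `IsAffineOpen k d A 𝒥` says that the family `𝒥` over the `k`-algebra `A` exhibits `Spec A` as
an affine open subscheme of `Hilb_d(𝔸³)`: the map of functors of points
`Spec A → Hilb_d(𝔸³)`, `f ↦ f_* 𝒥`, is an open immersion, i.e. it is a monomorphism and, for every
`R`-point `J` of `Hilb_d(𝔸³)`, its pull-back to `Spec R` is an open subscheme `U` of `Spec R`. -/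
structure IsAffineOpen (d : ℕ) (A : Type u) [CommRing A] [Algebra k A]
    (𝒥 : Ideal (MvPolynomial (Fin 3) A)) : Prop where
  isFamily : IsFamily d A 𝒥
  mono : ∀ (R : Type u) [CommRing R] [Algebra k R] (f g : A →ₐ[k] R),
    baseChange (f : A →+* R) 𝒥 = baseChange (g : A →+* R) 𝒥 → f = g
  isOpen : ∀ (R : Type u) [CommRing R] [Algebra k R] (J : Ideal (MvPolynomial (Fin 3) R)),
    IsFamily d R J → ∃ U : TopologicalSpace.Opens (PrimeSpectrum R),
      ∀ (R' : Type u) [CommRing R'] [Algebra k R'] (φ : R →ₐ[k] R'),
        (∃ f : A →ₐ[k] R', baseChange (f : A →+* R') 𝒥 = baseChange (φ : R →+* R') J) ↔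
          Set.range (PrimeSpectrum.comap (φ : R →+* R')) ⊆ U

end OpenSubschemes

section Points

variable {k : Type u} [Field k] {A : Type u} [CommRing A] [Algebra k A]

/-- The point of `Spec A` given by a `k`-point `p : A → k`. -/
def closedPoint (p : A →ₐ[k] k) : PrimeSpectrum A :=
  ⟨RingHom.ker (p : A →+* k), RingHom.ker_isPrime _⟩

/-- The local ring of `Spec A` at the `k`-point `p`. -/
abbrev LocalRingAt (p : A →ₐ[k] k) : Type u :=
  Localization.AtPrime (closedPoint p).asIdeal

/-- The completion of a local ring with respect to its maximal ideal. -/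
abbrev Completion (O : Type u) [CommRing O] [IsLocalRing O] : Type u :=
  AdicCompletion (IsLocalRing.maximalIdeal O) O

/-- The completed local ring of `Spec A` at the `k`-point `p`. -/
abbrev CompletedLocalRingAt (p : A →ₐ[k] k) : Type u := Completion (LocalRingAt p)

/-- The Zariski tangent space `(𝔪/𝔪²)^*` of a local ring. -/
abbrev ZariskiTangentSpace (O : Type u) [CommRing O] [IsLocalRing O] : Type u :=
  Module.Dual (IsLocalRing.ResidueField O) (IsLocalRing.CotangentSpace O)

/-- The dimension of the Zariski tangent space of a local ring over its residue field. -/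
noncomputable def zariskiDim (O : Type u) [CommRing O] [IsLocalRing O] : ℕ :=
  Module.finrank (IsLocalRing.ResidueField O) (ZariskiTangentSpace O)

/-- The dimension of the Zariski tangent space of `Spec A` at the `k`-point `p`. -/
noncomputable def tangentDim (p : A →ₐ[k] k) : ℕ := zariskiDim (LocalRingAt p)

/-- The `k`-points of `Spec A` at which the family `𝒥` is a reduced subscheme of `𝔸³`
(over an algebraically closed field and for a family of degree `d`: `d` distinct points). -/
def reducedLocus (𝒥 : Ideal (MvPolynomial (Fin 3) A)) : Set (PrimeSpectrum A) :=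
  {x | ∃ q : A →ₐ[k] k, (baseChange (q : A →+* k) 𝒥).IsRadical ∧ x = closedPoint q}

/-- The trace on the affine open `Spec A` of the smoothable component: the closure of the
locus of reduced subschemes. -/
def smoothableComponent (k : Type u) [Field k] [Algebra k A]
    (𝒥 : Ideal (MvPolynomial (Fin 3) A)) : Set (PrimeSpectrum A) :=
  closure (reducedLocus (k := k) 𝒥)

/-- Smooth equivalence of complete local rings: `A⟦t₁,…,t_a⟧ ≅ B⟦u₁,…,u_b⟧` for some `a, b`. -/
def SmoothlyEquivalent (A B : Type u) [CommRing A] [CommRing B] : Prop :=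
  ∃ a b : ℕ, Nonempty (MvPowerSeries (Fin a) A ≃+* MvPowerSeries (Fin b) B)

/-- Smooth equivalence of the `k`-point `p` of `Spec A` and the `k`-point `q` of `Spec B`: their
completed local rings are smoothly equivalent. -/
def SmoothlyEquivalentAt {B : Type u} [CommRing B] [Algebra k B] (p : A →ₐ[k] k)
    (q : B →ₐ[k] k) : Prop :=
  SmoothlyEquivalent (CompletedLocalRingAt p) (CompletedLocalRingAt q)

end Points

section Cone

variable (k : Type u) [Field k]

/-- Index set of the `15` Plücker coordinates on `Λ²k⁶`. -/
abbrev PluckerIndex : Type := {ij : Fin 6 × Fin 6 // ij.1 < ij.2}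

/-- The Plücker coordinates of `v ∧ w`. -/
def wedge (v w : Fin 6 → k) : PluckerIndex → k :=
  fun ij => v ij.1.1 * w ij.1.2 - v ij.1.2 * w ij.1.1

/-- The affine cone over `Gr(2,6)`: the set of decomposable bivectors `v ∧ w` in `Λ²k⁶`. -/
def grassmannCone : Set (PluckerIndex → k) :=
  {P | ∃ v w : Fin 6 → k, P = wedge k v w}

/-- The coordinate ring of the affine cone over `Gr(2,6)`. -/
abbrev ConeRing : Type u :=
  MvPolynomial PluckerIndex k ⧸ MvPolynomial.vanishingIdeal k (grassmannCone k)

/-- The cone point (the origin), as a `k`-point of the coordinate ring of the cone. -/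
noncomputable def conePoint : ConeRing k →ₐ[k] k :=
  Ideal.Quotient.liftₐ _ (MvPolynomial.aeval (fun _ => (0 : k)))
    (fun _ hf => hf 0 ⟨0, 0, by ext; simp [wedge]⟩)

end Cone

section Point

/-- The ideal `(x³, y³, x²z, y²z, xz², yz², z³ - xyz, x²y²)` in a commutative ring. -/
def gammaGen {S : Type u} [CommRing S] (x y z : S) : Ideal S :=
  Ideal.span {x ^ 3, y ^ 3, x ^ 2 * z, y ^ 2 * z, x * z ^ 2, y * z ^ 2, z ^ 3 - x * y * z,
    x ^ 2 * y ^ 2}

/-- The ideal of `Γ`: `(x³, y³, x²z, y²z, xz², yz², z³ - xyz, x²y²)` in `k[x,y,z]`. -/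
noncomputable def gammaIdeal (k : Type u) [Field k] : Ideal (MvPolynomial (Fin 3) k) :=
  gammaGen (X 0) (X 1) (X 2)

end Point

end Pool.Agent.Lib.MP_3c1e96_ag
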