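import Pool.Agent.Lib.MP_3c1e96_ag.LocalLift

/-!
A complete local ring with the second order lifting property is not smoothly equivalent to the
completed local ring of the cone over `Gr(2,6)` at its vertex.
-/

namespace Pool.Agent.Lib.MP_3c1e96_ag

universe u

section GoodSide

variable {k : Type u} [Field k] {B : Type u} [CommRing B] [Algebra k B]

theorem IsGood.no_quadric (hB : IsGood k B) (r : Fin 6 → B) (M : Ideal B)
    (hM : ∀ x, x ∈ M ↔ ¬ IsUnit x) (hr : ∀ i, r i ∈ M)
    (hind : ∀ c : Fin 6 → B, ∑ i, c i * r i ∈ M ^ 2 → ∀ i, c i ∈ M) :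
    r 0 * r 1 - r 2 * r 3 + r 4 * r 5 ≠ 0 := by
  obtain ⟨π, h1, h2⟩ := hB
  have hM0 : ∀ x, x ∈ M ↔ π x = 0 := by
    intro x
    rw [hM]
    constructor
    · intro h
      by_contra hne
      exact h (h1 x hne)
    · intro h hu
      have := hu.map π
      rw [h] at this
      exact not_isUnit_zero this
  -- the linear map `(a, c) ↦ a + ∑ c_i r_i` modulo `M²`
  let L : (k × (Fin 6 → k)) →ₗ[k] (B ⧸ M ^ 2) :=
    { toFun := fun ac => Ideal.Quotient.mk (M ^ 2)
        (algebraMap k B ac.1 + ∑ i, algebraMap k B (ac.2 i) * r i)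
      map_add' := by
        intro x y
        rw [← map_add]
        congr 1
        simp only [Prod.fst_add, Prod.snd_add, Pi.add_apply, map_add, add_mul,
          Finset.sum_add_distrib]
        ring
      map_smul' := by
        intro c x
        simp only [RingHom.id_apply, Prod.smul_fst, Prod.smul_snd, Pi.smul_apply, smul_eq_mul,
          map_mul]
        have : ∀ y : B, c • (Ideal.Quotient.mk (M ^ 2) y) =
          Ideal.Quotient.mk (M ^ 2) (algebraMap k B c * y) := by
          intro y
          rw [← Algebra.smul_def]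
          rfl
        rw [this]
        congr 1
        rw [mul_add, Finset.mul_sum]
        simp only [mul_assoc] }
  have hL : Function.Injective L := by
    rw [← LinearMap.ker_eq_bot, LinearMap.ker_eq_bot']
    rintro ⟨a, c⟩ h
    have h3 : algebraMap k B a + ∑ i, algebraMap k B (c i) * r i ∈ M ^ 2 :=
      Ideal.Quotient.eq_zero_iff_mem.mp h
    have h4 : a = 0 := by
      have h5 := (hM0 _).mp (Ideal.pow_le_self (by norm_num) h3)
      rw [map_add, map_sum] at h5
      simp only [map_mul, (hM0 _).mp (hr _), mul_zero, Finset.sum_const_zero, add_zero] at h5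
      simpa using h5
    rw [h4, map_zero, zero_add] at h3
    have h6 := hind _ h3
    ext i
    · exact h4
    · have := (hM0 _).mp (h6 i)
      simpa using this
  obtain ⟨g, hg⟩ := LinearMap.exists_leftInverse_of_injective L (LinearMap.ker_eq_bot.mpr hL)
  -- the functional
  let ℓ : B →ₗ[k] k :=
    { toFun := fun x => (g (Ideal.Quotient.mk (M ^ 2) x)).2 0 + (g (Ideal.Quotient.mk (M ^ 2) x)).2 1
      map_add' := by
        intro x y
        rw [map_add, map_add]
        simp only [Prod.snd_add, Pi.add_apply]
        ring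
      map_smul' := by
        intro c x
        have : (Ideal.Quotient.mk (M ^ 2)) (c • x) = c • (Ideal.Quotient.mk (M ^ 2) x) := rfl
        rw [this, map_smul]
        simp only [Prod.smul_snd, Pi.smul_apply, smul_eq_mul, RingHom.id_apply]
        ring }
  have hgL : ∀ x, g (L x) = x := fun x => congr_fun (congr_arg DFunLike.coe hg) x
  have hℓ1 : ∀ a : k, ℓ (algebraMap k B a) = 0 := by
    intro a
    have : Ideal.Quotient.mk (M ^ 2) (algebraMap k B a) = L (a, 0) := by
      simp [L]
    change (g (Ideal.Quotient.mk (M ^ 2) (algebraMap k B a))).2 0 +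
      (g (Ideal.Quotient.mk (M ^ 2) (algebraMap k B a))).2 1 = 0
    rw [this, hgL]
    simp
  have hℓr : ∀ i, ℓ (r i) = if i = 0 ∨ i = 1 then 1 else 0 := by
    intro i
    have : Ideal.Quotient.mk (M ^ 2) (r i) = L (0, Pi.single i 1) := by
      change _ = Ideal.Quotient.mk (M ^ 2) _
      congr 1
      simp only [map_zero, zero_add]
      rw [Finset.sum_eq_single i]
      · simp
      · intro j _ hj
        simp [Pi.single_eq_of_ne hj]
      · simp
    change (g (Ideal.Quotient.mk (M ^ 2) (r i))).2 0 +
      (g (Ideal.Quotient.mk (M ^ 2) (r i))).2 1 = _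
    rw [this, hgL]
    fin_cases i <;> simp
  have hℓ2 : ∀ x ∈ M ^ 2, ℓ x = 0 := by
    intro x hx
    change (g (Ideal.Quotient.mk (M ^ 2) x)).2 0 + (g (Ideal.Quotient.mk (M ^ 2) x)).2 1 = 0
    rw [Ideal.Quotient.eq_zero_iff_mem.mpr hx, map_zero]
    simp
  have hder : IsPDer π ℓ := by
    intro x y
    have hx : x - algebraMap k B (π x) ∈ M := by rw [hM0]; simp
    have hy : y - algebraMap k B (π y) ∈ M := by rw [hM0]; simp
    have h3 := hℓ2 _ (by rw [pow_two]; exact Ideal.mul_mem_mul hx hy)
    have h4 : (x - algebraMap k B (π x)) * (y - algebraMap k B (π y)) =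
        x * y - (π x) • y - (π y) • x + algebraMap k B (π x * π y) := by
      rw [Algebra.smul_def, Algebra.smul_def, map_mul]; ring
    rw [h4, map_add, hℓ1, map_sub, map_sub, map_smul, map_smul] at h3
    simp only [smul_eq_mul] at h3
    linear_combination h3
  obtain ⟨ψ, h3, h4⟩ := h2 ℓ hder
  intro hzero
  have h5 := congr_arg (fun z => c2 (ψ z)) hzero
  simp only [map_add, map_sub, map_mul, map_zero, c2_mul, h3, h4, (hM0 _).mp (hr _), hℓr] at h5
  simp at h5

end GoodSide

section ConeSide

/-- coordinate axes lie on the cone -/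
lemma axis_mem (k : Type u) [Field k] (l : PluckerIndex) (t : k) :
    (fun m => if m = l then t else 0) ∈ grassmannCone k := by
  refine ⟨fun i => if i = l.1.1 then t else 0, fun i => if i = l.1.2 then 1 else 0, ?_⟩
  ext m
  obtain ⟨⟨i, j⟩, hij⟩ := m
  obtain ⟨⟨i', j'⟩, hij'⟩ := l
  simp only [wedge, Subtype.mk.injEq, Prod.mk.injEq]
  by_cases h1 : i = i' <;> by_cases h2 : j = j' <;> by_cases h3 : j = i' <;> by_cases h4 : i = j' <;>
    simp_all
  all_goals first | omega | (subst_vars; exact absurd hij (lt_asymm hij'))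

variable {k : Type u} [Field k]

/-- the class of a Plücker coordinate in the cone ring -/
noncomputable def coneX (l : PluckerIndex) : ConeRing k := Ideal.Quotient.mk _ (MvPolynomial.X l)

lemma conePoint_coneX (l : PluckerIndex) : conePoint k (coneX l) = 0 := by
  change MvPolynomial.aeval (fun _ => (0 : k)) (MvPolynomial.X l) = 0
  rw [MvPolynomial.aeval_X]

open MvPolynomial in
/-- the arc `t ↦ t e_l` -/
noncomputable def coneArc [Infinite k] (l : PluckerIndex) : ConeRing k →ₐ[k] E3 k :=
  Ideal.Quotient.liftₐ _ (MvPolynomial.aeval (fun m => if m = l then (eps : E3 k) else 0)) (by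
    intro f hf
    -- `f` vanishes on the coordinate axis, hence so does the restriction as a polynomial
    have h1 : (MvPolynomial.aeval (fun m => if m = l then (Polynomial.X : Polynomial k) else 0) f)
        = 0 := by
      apply Polynomial.funext
      intro t
      have h2 := hf _ (axis_mem k l t)
      rw [Polynomial.eval_zero, ← h2, ← Polynomial.coe_evalRingHom]
      have h3 : ((Polynomial.evalRingHom t : Polynomial k →+* k).comp
          ((MvPolynomial.aeval (fun m => if m = l then (Polynomial.X : Polynomial k) else 0) :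
            MvPolynomial PluckerIndex k →ₐ[k] Polynomial k) : MvPolynomial PluckerIndex k →+* _)) =
          ((MvPolynomial.aeval (fun m => if m = l then t else 0) :
            MvPolynomial PluckerIndex k →ₐ[k] k) : MvPolynomial PluckerIndex k →+* k) := by
        apply MvPolynomial.ringHom_ext
        · intro r
          simp
        · intro m
          by_cases h : m = l <;> simp [h]
      exact congr_fun (congr_arg DFunLike.coe h3) f
    have h4 : (MvPolynomial.aeval (fun m => if m = l then (eps : E3 k) else 0) :
        MvPolynomial PluckerIndex k →ₐ[k] E3 k) =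
        (Ideal.Quotient.mkₐ k (Ideal.span {(Polynomial.X : Polynomial k) ^ 3})).comp
          (MvPolynomial.aeval (fun m => if m = l then (Polynomial.X : Polynomial k) else 0)) := by
      apply MvPolynomial.algHom_ext
      intro m
      by_cases h : m = l <;> simp [h, eps]
    rw [h4, AlgHom.comp_apply, h1, map_zero])

lemma coneArc_coneX [Infinite k] (l m : PluckerIndex) :
    coneArc l (coneX m) = if m = l then (eps : E3 k) else 0 := by
  change MvPolynomial.aeval (fun m => if m = l then (eps : E3 k) else 0) (MvPolynomial.X m) = _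
  rw [MvPolynomial.aeval_X]

lemma c0_coneArc [Infinite k] (l : PluckerIndex) (x : ConeRing k) :
    c0 (coneArc l x) = conePoint k x := by
  have : aug.comp (coneArc l) = conePoint k := by
    apply Ideal.Quotient.algHom_ext
    apply MvPolynomial.algHom_ext
    intro m
    change c0 (coneArc l (coneX m)) = conePoint k (coneX m)
    rw [coneArc_coneX, conePoint_coneX]
    by_cases h : m = l <;> simp [h, c0_eps]
  rw [← this]
  rfl

/-- index of a Plücker coordinate -/
def plIdx (i j : Fin 6) (h : i < j) : PluckerIndex := ⟨(i, j), h⟩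

/-- the six Plücker coordinates in the first Plücker relation -/
def six : Fin 6 → PluckerIndex :=
  ![plIdx 0 1 (by decide), plIdx 2 3 (by decide), plIdx 0 2 (by decide), plIdx 1 3 (by decide),
    plIdx 0 3 (by decide), plIdx 1 2 (by decide)]

lemma six_injective : Function.Injective six := by decide

lemma pluckerRel : (coneX (six 0) * coneX (six 1) - coneX (six 2) * coneX (six 3) +
    coneX (six 4) * coneX (six 5) : ConeRing k) = 0 := by
  simp only [coneX, ← map_mul, ← map_sub, ← map_add]
  rw [Ideal.Quotient.eq_zero_iff_mem, MvPolynomial.mem_vanishingIdeal_iff]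
  rintro _ ⟨v, w, rfl⟩
  simp only [map_add, map_sub, map_mul, MvPolynomial.aeval_X, wedge, six, plIdx, Matrix.cons_val]
  ring

end ConeSide

section Main

variable {k : Type u} [Field k] [Infinite k]

theorem not_smoothlyEquivalent_of_lift3 {A : Type u} [CommRing A] [Algebra k A]
    [IsNoetherianRing A] (p : A →ₐ[k] k) (h : Lift3 p) :
    ¬ SmoothlyEquivalent (CompletedLocalRingAt p) (CompletedLocalRingAt (conePoint k)) := by
  rintro ⟨n, m, ⟨e⟩⟩
  have hgood := isGood_of_lift3 p h n
  let q := conePoint k
  have hnoeth : IsNoetherianRing (LocalRingAt q) :=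
    IsLocalization.isNoetherianRing (closedPoint q).asIdeal.primeCompl _ inferInstance
  -- the ring `B₂` and its augmentation
  let ρ : MvPowerSeries (Fin m) (CompletedLocalRingAt q) →+* k :=
    (augCpl (augLoc q) (augLoc_eq_zero_iff q) : CompletedLocalRingAt q →+* k).comp
      (MvPowerSeries.constantCoeff (σ := Fin m) (R := CompletedLocalRingAt q))
  have hρ : ∀ x, ρ x = 0 ↔ ¬ IsUnit x := by
    intro x
    rw [MvPowerSeries.isUnit_iff_constantCoeff]
    exact augCpl_eq_zero_iff (augLoc q) (augLoc_eq_zero_iff q) _
  let j : ConeRing k →+* MvPowerSeries (Fin m) (CompletedLocalRingAt q) :=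
    (MvPowerSeries.C (σ := Fin m) (R := CompletedLocalRingAt q)).comp
      ((algebraMap (LocalRingAt q) (CompletedLocalRingAt q)).comp
        (algebraMap (ConeRing k) (LocalRingAt q)))
  have hρj : ∀ x, ρ (j x) = q x := by
    intro x
    change augCpl (augLoc q) (augLoc_eq_zero_iff q) (MvPowerSeries.constantCoeff
      (MvPowerSeries.C (σ := Fin m) (algebraMap (LocalRingAt q) (CompletedLocalRingAt q)
        (algebraMap (ConeRing k) (LocalRingAt q) x)))) = q x
    rw [MvPowerSeries.constantCoeff_C, augCpl_of, augLoc_algebraMap]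
  -- extension of the arcs
  have harc : ∀ l : PluckerIndex, ∃ χ : MvPowerSeries (Fin m) (CompletedLocalRingAt q) →+* E3 k,
      (∀ x, c0 (χ x) = ρ x) ∧ ∀ x, χ (j x) = coneArc l x := by
    intro l
    let χ₁ := arcLoc q (coneArc l) (c0_coneArc l)
    have hχ₁ : ∀ x, c0 (χ₁ x) = augLoc q x := c0_arcLoc q (coneArc l) (c0_coneArc l)
    let χ₂ := arcCpl χ₁ (fun y hy => by rw [hχ₁]; exact (augLoc_eq_zero_iff q y).mpr hy)
    have hχ₂ : ∀ x, c0 (χ₂ x) = augCpl (augLoc q) (augLoc_eq_zero_iff q) x :=
      c0_arcCpl (augLoc q) (augLoc_eq_zero_iff q) χ₁ hχ₁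
    refine ⟨(χ₂ : CompletedLocalRingAt q →+* E3 k).comp
      (MvPowerSeries.constantCoeff (σ := Fin m) (R := CompletedLocalRingAt q)), ?_, ?_⟩
    · intro x
      exact hχ₂ _
    · intro x
      change χ₂ (MvPowerSeries.constantCoeff
        (MvPowerSeries.C (σ := Fin m) (algebraMap (LocalRingAt q) (CompletedLocalRingAt q)
          (algebraMap (ConeRing k) (LocalRingAt q) x)))) = _
      rw [MvPowerSeries.constantCoeff_C]
      change arcCpl χ₁ _ _ = _
      rw [arcCpl_of]
      exact arcLoc_algebraMap q (coneArc l) (c0_coneArc l) x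
  -- the maximal ideals
  let M₂ : Ideal (MvPowerSeries (Fin m) (CompletedLocalRingAt q)) := RingHom.ker ρ
  let M₁ : Ideal (MvPowerSeries (Fin n) (CompletedLocalRingAt p)) :=
    M₂.comap (e : MvPowerSeries (Fin n) (CompletedLocalRingAt p) →+* _)
  have hM₁ : ∀ x, x ∈ M₁ ↔ ¬ IsUnit x := by
    intro x
    change ρ (e x) = 0 ↔ _
    rw [hρ]
    rw [MulEquiv.isUnit_map e]
  let r : Fin 6 → MvPowerSeries (Fin n) (CompletedLocalRingAt p) :=
    fun i => e.symm (j (coneX (six i)))
  refine hgood.no_quadric r M₁ hM₁ ?_ ?_ ?_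
  · intro i
    change ρ (e (e.symm (j (coneX (six i))))) = 0
    rw [RingEquiv.apply_symm_apply, hρj]
    exact conePoint_coneX _
  · intro c hc i
    change ρ (e (c i)) = 0
    have h1 : e (∑ i, c i * r i) ∈ M₂ ^ 2 := by
      have h2 := Ideal.le_comap_pow (K := M₂)
        (e : MvPowerSeries (Fin n) (CompletedLocalRingAt p) →+* _) 2
      exact h2 hc
    rw [map_sum] at h1
    have h3 : ∀ i, e (c i * r i) = e (c i) * j (coneX (six i)) := by
      intro i
      rw [map_mul, RingEquiv.apply_symm_apply]
    simp only [h3] at h1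
    obtain ⟨χ, hχ0, hχj⟩ := harc (six i)
    -- `c1 ∘ χ` kills `M₂²`
    have h4 : ∀ x ∈ M₂ ^ 2, c1 (χ x) = 0 := by
      intro x hx
      rw [pow_two] at hx
      induction hx using Submodule.mul_induction_on' with
      | mem_mul_mem a ha b hb =>
        have ha' : ρ a = 0 := ha
        have hb' : ρ b = 0 := hb
        rw [map_mul, c1_mul, hχ0, hχ0, ha', hb']; ring
      | add a ha b hb h1 h2 => rw [map_add, map_add, h1, h2, add_zero]
    have h5 := h4 _ h1
    rw [map_sum, map_sum] at h5
    have h6 : ∀ l, c1 (χ (e (c l) * j (coneX (six l)))) = if l = i then ρ (e (c l)) else 0 := by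
      intro l
      rw [map_mul, c1_mul, hχ0, hχ0, hρj, hχj, coneArc_coneX]
      rw [show q (coneX (six l)) = 0 from conePoint_coneX _]
      by_cases hl : l = i
      · subst hl
        simp [c1_eps]
      · have : six l ≠ six i := fun h => hl (six_injective h)
        simp [hl, this]
    simp only [h6] at h5
    simpa using h5
  · have h1 : j (coneX (six 0) * coneX (six 1) - coneX (six 2) * coneX (six 3) +
        coneX (six 4) * coneX (six 5)) = 0 := by rw [pluckerRel, map_zero]
    have h2 := congr_arg e.symm h1
    simp only [map_add, map_sub, map_mul, map_zero] at h2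
    exact h2

end Main

end Pool.Agent.Lib.MP_3c1e96_ag
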