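import Pool.Agent.Lib.MP_3c1e96_ag.Base

/-!
The ideal of the base point.
-/

namespace Pool.Agent.Lib.MP_3c1e96_ag

universe u

open MvPolynomial Matrix

variable (k : Type u) [Field k]

variable {k}

lemma monomial_eq_X (α : Fin 3 →₀ ℕ) :
    (monomial α 1 : MvPolynomial (Fin 3) k) = X 0 ^ α 0 * X 1 ^ α 1 * X 2 ^ α 2 := by
  rw [MvPolynomial.monomial_eq, Finsupp.prod_fintype _ _ (by simp)]
  simp [Fin.prod_univ_three]

lemma comb_zero' : comb bas (0 : Fin 13 → k) = 0 := by
  simp [comb]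

lemma exists_comb {J : Ideal (MvPolynomial (Fin 3) k)} {r : Fin 13 → Fin 13 → k}
    (hJ : ∀ μ, monomial (bord μ) 1 - comb bas (r μ) ∈ J) (f : MvPolynomial (Fin 3) k) :
    ∃ c, f - comb bas c ∈ J := by
  have hnx : ∀ a j, X a * monomial (bas j) 1 - comb bas (colOf r a j) ∈ J := by
    intro a j
    rw [X, monomial_mul, one_mul, nxt_exponent, colOf]
    cases nxt a j with
    | inl j' => simp [comb_single]
    | inr μ => exact hJ μ
  have hcomb : ∀ (a : Fin 3) (c : Fin 13 → k) (s : Finset (Fin 13)),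
      ∃ c', X a * (∑ i ∈ s, monomial (bas i) (c i)) - comb bas c' ∈ J := by
    intro a c s
    induction s using Finset.induction_on with
    | empty => exact ⟨0, by simp [comb_zero']⟩
    | insert i s hi ih =>
      obtain ⟨c', hc'⟩ := ih
      refine ⟨c i • colOf r a i + c', ?_⟩
      have h1 := J.mul_mem_left (C (c i)) (hnx a i)
      have h2 := J.add_mem h1 hc'
      have e : monomial (bas i) (c i) = C (c i) * monomial (bas i) (1 : k) := by
        rw [C_mul_monomial, mul_one]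
      rw [Finset.sum_insert hi, comb_add, comb_smul, e, smul_eq_C_mul]
      convert h2 using 1
      ring
  induction f using MvPolynomial.induction_on with
  | C c =>
    refine ⟨Pi.single 0 c, ?_⟩
    rw [comb_single, bas_zero]
    simp
  | add p q hp hq =>
    obtain ⟨c, hc⟩ := hp
    obtain ⟨c', hc'⟩ := hq
    refine ⟨c + c', ?_⟩
    have := J.add_mem hc hc'
    rw [comb_add]
    convert this using 1
    ring
  | mul_X p a hp =>
    obtain ⟨c, hc⟩ := hp
    obtain ⟨c', hc'⟩ := hcomb a c Finset.univ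
    refine ⟨c', ?_⟩
    change X a * comb bas c - comb bas c' ∈ J at hc'
    have h1 := J.mul_mem_left (X a) hc
    have h2 := J.add_mem h1 hc'
    convert h2 using 1
    ring

lemma evalVec_bord {r : Fin 13 → Fin 13 → k} (h : Conds r) (μ : Fin 13) :
    evalVec 0 (matOf r) h.pComm (monomial (bord μ) 1) = r μ := by
  rw [evalVec_apply, evalMat_monomial, one_smul]
  change bvec (matOf r) μ = r μ
  rw [h.bvec_matOf]

/-- an ideal which contains the border relations and is contained in the ideal of the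
chart point is equal to it -/
lemma idealOf_eq {J : Ideal (MvPolynomial (Fin 3) k)} {r : Fin 13 → Fin 13 → k} (h : Conds r)
    (hJ : ∀ μ, monomial (bord μ) 1 - comb bas (r μ) ∈ J)
    (hle : J ≤ idealOf 0 (matOf r) h.pComm) : idealOf 0 (matOf r) h.pComm = J := by
  refine le_antisymm ?_ hle
  intro f hf
  obtain ⟨c, hc⟩ := exists_comb hJ f
  have h1 := Ideal.sub_mem _ hf (hle hc)
  rw [sub_sub_cancel] at h1
  have h2 : c = 0 := (hasBasis_idealOf h.isChartPt).2 c h1
  rw [h2, comb_zero', sub_zero] at hc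
  exact hc

variable (k)

lemma gens_aux (V : MvPolynomial (Fin 3) k →ₗ[k] (Fin 13 → k))
    (hb : ∀ μ, V (X 0 ^ (bord μ) 0 * X 1 ^ (bord μ) 1 * X 2 ^ (bord μ) 2) = R0 μ)
    (h12 : V (X 0 * X 1 * X 2) = Pi.single 12 1) {f : MvPolynomial (Fin 3) k}
    (hf : f ∈ ({X 0 ^ 3, X 1 ^ 3, X 0 ^ 2 * X 2, X 1 ^ 2 * X 2, X 0 * X 2 ^ 2, X 1 * X 2 ^ 2,
      X 2 ^ 3 - X 0 * X 1 * X 2, X 0 ^ 2 * X 1 ^ 2} : Set (MvPolynomial (Fin 3) k))) :
    V f = 0 := by
  have hb' : ∀ μ, μ ≠ 6 →
      V (X 0 ^ (bord μ) 0 * X 1 ^ (bord μ) 1 * X 2 ^ (bord μ) 2) = 0 := by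
    intro μ hμ
    rw [hb, R0_of_ne hμ]
  have b0 : V (X 0 ^ 3) = 0 := by
    have := hb' 0 (by decide)
    simpa [bord] using this
  have b1 : V (X 0 ^ 2 * X 2) = 0 := by
    have := hb' 1 (by decide)
    simpa [bord] using this
  have b2 : V (X 0 * X 2 ^ 2) = 0 := by
    have := hb' 2 (by decide)
    simpa [bord] using this
  have b3 : V (X 1 ^ 3) = 0 := by
    have := hb' 3 (by decide)
    simpa [bord] using this
  have b4 : V (X 1 ^ 2 * X 2) = 0 := by
    have := hb' 4 (by decide)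
    simpa [bord] using this
  have b5 : V (X 1 * X 2 ^ 2) = 0 := by
    have := hb' 5 (by decide)
    simpa [bord] using this
  have b6 : V (X 2 ^ 3) = Pi.single 12 1 := by
    have := hb 6
    rw [R0_six] at this
    simpa [bord] using this
  have b8 : V (X 0 ^ 2 * X 1 ^ 2) = 0 := by
    have := hb' 8 (by decide)
    simpa [bord] using this
  simp only [Set.mem_insert_iff, Set.mem_singleton_iff] at hf
  rcases hf with rfl | rfl | rfl | rfl | rfl | rfl | rfl | rfl
  · exact b0
  · exact b3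
  · exact b1
  · exact b4
  · exact b2
  · exact b5
  · rw [map_sub, h12, b6, sub_self]
  · exact b8

lemma gammaIdeal_le : gammaIdeal k ≤ idealOf 0 (matOf R0) (conds_R0 k).pComm := by
  rw [gammaIdeal, gammaGen, Ideal.span_le]
  intro f hf
  rw [SetLike.mem_coe, mem_idealOf]
  refine gens_aux k _ ?_ ?_ hf
  · intro μ
    rw [← monomial_eq_X, evalVec_bord (conds_R0 k)]
  · rw [← evalVec_basis (conds_R0 k).isChartPt 12, monomial_eq_X]
    congr 1
    simp [bas]

lemma mem_gammaIdeal (μ : Fin 13) :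
    monomial (bord μ) 1 - comb bas (R0 μ : Fin 13 → k) ∈ gammaIdeal k := by
  have hs : ∀ f ∈ ({X 0 ^ 3, X 1 ^ 3, X 0 ^ 2 * X 2, X 1 ^ 2 * X 2, X 0 * X 2 ^ 2, X 1 * X 2 ^ 2,
    X 2 ^ 3 - X 0 * X 1 * X 2, X 0 ^ 2 * X 1 ^ 2} : Set (MvPolynomial (Fin 3) k)),
      f ∈ gammaIdeal k := fun f hf => Ideal.subset_span hf
  have g0 := hs (X 0 ^ 3) (by simp)
  have g1 := hs (X 1 ^ 3) (by simp)
  have g2 := hs (X 0 ^ 2 * X 2) (by simp)
  have g3 := hs (X 1 ^ 2 * X 2) (by simp)
  have g4 := hs (X 0 * X 2 ^ 2) (by simp)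
  have g5 := hs (X 1 * X 2 ^ 2) (by simp)
  have g6 := hs (X 2 ^ 3 - X 0 * X 1 * X 2) (by simp)
  have g7 := hs (X 0 ^ 2 * X 1 ^ 2) (by simp)
  rw [monomial_eq_X]
  by_cases hμ : μ = 6
  · subst hμ
    rw [R0_six, comb_single, monomial_eq_X]
    simpa [bord, bas] using g6
  · rw [R0_of_ne hμ, comb_zero', sub_zero]
    fin_cases μ
    · simpa [bord] using g0
    · simpa [bord] using g2
    · simpa [bord] using g4
    · simpa [bord] using g1
    · simpa [bord] using g3
    · simpa [bord] using g5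
    · exact absurd rfl hμ
    · simpa [bord] using Ideal.mul_mem_right (X 1) _ g0
    · simpa [bord] using g7
    · have := Ideal.mul_mem_left _ (X 1) g2
      rw [show (X 1 * (X 0 ^ 2 * X 2) : MvPolynomial (Fin 3) k) = X 0 ^ 2 * X 1 * X 2 by ring]
        at this
      simpa [bord] using this
    · simpa [bord] using Ideal.mul_mem_left _ (X 0) g1
    · have := Ideal.mul_mem_left _ (X 0) g3
      rw [show (X 0 * (X 1 ^ 2 * X 2) : MvPolynomial (Fin 3) k) = X 0 * X 1 ^ 2 * X 2 by ring]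
        at this
      simpa [bord] using this
    · have := Ideal.mul_mem_left _ (X 1) g4
      rw [show (X 1 * (X 0 * X 2 ^ 2) : MvPolynomial (Fin 3) k) = X 0 * X 1 * X 2 ^ 2 by ring]
        at this
      simpa [bord] using this

/-- the fibre of the universal family at `pt` is the ideal `gammaIdeal` -/
theorem baseChange_pt : baseChange (pt k : AA k →+* k) (chartFamily k bas 0) = gammaIdeal k := by
  rw [pt, bLift, baseChange_chartLift]
  exact idealOf_eq (conds_R0 k) (mem_gammaIdeal k) (gammaIdeal_le k)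

end Pool.Agent.Lib.MP_3c1e96_ag
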