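import Pool.Agent.Lib.MP_3c1e96_ag.Smoothable
import Pool.Agent.Lib.MP_3c1e96_ag.Point
import Pool.Agent.Lib.MP_3c1e96_ag.NotEquiv

/-!
Assembly of the counterexample.
-/

namespace Pool.Agent.Lib.MP_3c1e96_ag

universe u

variable (k : Type u) [Field k]

instance : IsNoetherianRing (AA k) := Ideal.Quotient.isNoetherianRing _

/-- the counterexample, over any infinite field -/
theorem counterexample [Infinite k] :
    ∃ (A : Type u) (_ : CommRing A) (_ : Algebra k A) (𝒥 : Ideal (MvPolynomial (Fin 3) A))
      (p : A →ₐ[k] k),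
      IsAffineOpen k 13 A 𝒥 ∧
      baseChange (p : A →+* k) 𝒥 = gammaIdeal k ∧
      closedPoint p ∈ smoothableComponent k 𝒥 ∧
      tangentDim p = 3 * 13 + 6 ∧
      ¬ SmoothlyEquivalentAt p (conePoint k) :=
  ⟨AA k, inferInstance, inferInstance, chartFamily k bas 0, pt k,
    isAffineOpen_chart k bas_zero, baseChange_pt k, pt_mem_smoothable k, tangentDim_pt k,
    not_smoothlyEquivalent_of_lift3 (pt k) (lift3_pt k)⟩

/-- Hu's statement over `k`: for every `d`, every affine open subscheme `Spec A` of
`Hilb_d(𝔸³)` and every `k`-point `[Γ]` of it which lies on the smoothable component and has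
tangent space of dimension `3d+6`, the point `[Γ]` is smoothly equivalent to the cone point of
the affine cone over `Gr(2,6)`. -/
def HuStatement (k : Type u) [Field k] : Prop :=
  ∀ (d : ℕ) (A : Type u) [CommRing A] [Algebra k A] (𝒥 : Ideal (MvPolynomial (Fin 3) A)),
    IsAffineOpen k d A 𝒥 →
    ∀ p : A →ₐ[k] k, closedPoint p ∈ smoothableComponent k 𝒥 →
      tangentDim p = 3 * d + 6 →
      SmoothlyEquivalentAt p (conePoint k)

/-- the statement of the question is false -/
theorem not_huStatement [Infinite k] : ¬ HuStatement k := by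
  intro h
  exact not_smoothlyEquivalent_of_lift3 (pt k) (lift3_pt k)
    (h 13 (AA k) (chartFamily k bas 0) (isAffineOpen_chart k bas_zero) (pt k)
      (pt_mem_smoothable k) (tangentDim_pt k))

end Pool.Agent.Lib.MP_3c1e96_ag
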