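import Pool.Agent.Lib.MP_3c1e96_ag.Verify

/-!
A solution of the linearised conditions is determined by its 45 free coordinates.
-/

set_option linter.unusedSimpArgs false

namespace Pool.Agent.Lib.MP_3c1e96_ag

universe u

variable {k : Type u} [Field k]

/-- the 45 free coordinates: pairs (border monomial, basis monomial) -/
def freeIdx : Fin 45 → Fin 13 × Fin 13 :=
  ![(0, 4), (0, 5), (0, 6), (0, 7), (0, 8), (0, 9), (0, 10), (0, 11), (0, 12), (3, 4), (3, 5), (3,
    6), (3, 7), (3, 8), (3, 9), (3, 10), (3, 11), (3, 12), (1, 4), (1, 7), (1, 9), (1, 10), (1,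
    11), (1, 12), (4, 8), (4, 9), (4, 10), (4, 11), (4, 12), (2, 7), (2, 9), (2, 10), (2, 11), (2,
    12), (5, 9), (5, 10), (5, 11), (5, 12), (6, 9), (6, 10), (6, 11), (6, 12), (8, 10), (8, 11),
    (8, 12)]

lemma R1_free (w : Fin 45 → k) (l : Fin 45) : R1 w (freeIdx l).1 (freeIdx l).2 = w l := by
  fin_cases l <;> rfl

theorem Lin.eq_zero {r : Fin 13 → Fin 13 → k} (h : Lin r)
    (hz : ∀ l : Fin 45, r (freeIdx l).1 (freeIdx l).2 = 0) : r = 0 := by
  have z0_4 : r 0 4 = 0 := hz 0
  have z0_5 : r 0 5 = 0 := hz 1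
  have z0_6 : r 0 6 = 0 := hz 2
  have z0_7 : r 0 7 = 0 := hz 3
  have z0_8 : r 0 8 = 0 := hz 4
  have z0_9 : r 0 9 = 0 := hz 5
  have z0_10 : r 0 10 = 0 := hz 6
  have z0_11 : r 0 11 = 0 := hz 7
  have z0_12 : r 0 12 = 0 := hz 8
  have z3_4 : r 3 4 = 0 := hz 9
  have z3_5 : r 3 5 = 0 := hz 10
  have z3_6 : r 3 6 = 0 := hz 11
  have z3_7 : r 3 7 = 0 := hz 12
  have z3_8 : r 3 8 = 0 := hz 13
  have z3_9 : r 3 9 = 0 := hz 14
  have z3_10 : r 3 10 = 0 := hz 15
  have z3_11 : r 3 11 = 0 := hz 16
  have z3_12 : r 3 12 = 0 := hz 17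
  have z1_4 : r 1 4 = 0 := hz 18
  have z1_7 : r 1 7 = 0 := hz 19
  have z1_9 : r 1 9 = 0 := hz 20
  have z1_10 : r 1 10 = 0 := hz 21
  have z1_11 : r 1 11 = 0 := hz 22
  have z1_12 : r 1 12 = 0 := hz 23
  have z4_8 : r 4 8 = 0 := hz 24
  have z4_9 : r 4 9 = 0 := hz 25
  have z4_10 : r 4 10 = 0 := hz 26
  have z4_11 : r 4 11 = 0 := hz 27
  have z4_12 : r 4 12 = 0 := hz 28
  have z2_7 : r 2 7 = 0 := hz 29
  have z2_9 : r 2 9 = 0 := hz 30
  have z2_10 : r 2 10 = 0 := hz 31
  have z2_11 : r 2 11 = 0 := hz 32
  have z2_12 : r 2 12 = 0 := hz 33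
  have z5_9 : r 5 9 = 0 := hz 34
  have z5_10 : r 5 10 = 0 := hz 35
  have z5_11 : r 5 11 = 0 := hz 36
  have z5_12 : r 5 12 = 0 := hz 37
  have z6_9 : r 6 9 = 0 := hz 38
  have z6_10 : r 6 10 = 0 := hz 39
  have z6_11 : r 6 11 = 0 := hz 40
  have z6_12 : r 6 12 = 0 := hz 41
  have z8_10 : r 8 10 = 0 := hz 42
  have z8_11 : r 8 11 = 0 := hz 43
  have z8_12 : r 8 12 = 0 := hz 44
  have z7_0 : r 7 0 = 0 := by
    have E := h.l1 0
    simp only [o1y, shy, Matrix.cons_val, Fin.reduceEq, ↓reduceIte] at E
    linear_combination -E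
  have z7_1 : r 7 1 = 0 := by
    have E := h.l1 1
    simp only [o1y, shy, Matrix.cons_val, Fin.reduceEq, ↓reduceIte] at E
    linear_combination -E
  have z7_3 : r 7 3 = 0 := by
    have E := h.l1 3
    simp only [o1y, shy, Matrix.cons_val, Fin.reduceEq, ↓reduceIte] at E
    linear_combination -E
  have z7_4 : r 7 4 = 0 := by
    have E := h.l1 4
    simp only [o1y, shy, Matrix.cons_val, Fin.reduceEq, ↓reduceIte] at E
    linear_combination -E
  have z7_7 : r 7 7 = 0 := by
    have E := h.l1 7
    simp only [o1y, shy, Matrix.cons_val, Fin.reduceEq, ↓reduceIte] at E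
    linear_combination -E
  have z7_9 : r 7 9 = 0 := by
    have E := h.l1 9
    simp only [o1y, shy, Matrix.cons_val, Fin.reduceEq, ↓reduceIte] at E
    linear_combination -E
  have z7_10 : r 7 10 = 0 := by
    have E := h.l1 10
    simp only [o1y, shy, Matrix.cons_val, Fin.reduceEq, ↓reduceIte] at E
    linear_combination -E + z0_4
  have z7_11 : r 7 11 = 0 := by
    have E := h.l1 11
    simp only [o1y, shy, Matrix.cons_val, Fin.reduceEq, ↓reduceIte] at E
    linear_combination -E + z0_5
  have z7_12 : r 7 12 = 0 := by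
    have E := h.l1 12
    simp only [o1y, shy, Matrix.cons_val, Fin.reduceEq, ↓reduceIte] at E
    linear_combination -E + z0_7
  have z10_0 : r 10 0 = 0 := by
    have E := h.l2 0
    simp only [o1x, shx, Matrix.cons_val, Fin.reduceEq, ↓reduceIte] at E
    linear_combination -E
  have z10_2 : r 10 2 = 0 := by
    have E := h.l2 2
    simp only [o1x, shx, Matrix.cons_val, Fin.reduceEq, ↓reduceIte] at E
    linear_combination -E
  have z10_3 : r 10 3 = 0 := by
    have E := h.l2 3
    simp only [o1x, shx, Matrix.cons_val, Fin.reduceEq, ↓reduceIte] at E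
    linear_combination -E
  have z10_6 : r 10 6 = 0 := by
    have E := h.l2 6
    simp only [o1x, shx, Matrix.cons_val, Fin.reduceEq, ↓reduceIte] at E
    linear_combination -E
  have z10_8 : r 10 8 = 0 := by
    have E := h.l2 8
    simp only [o1x, shx, Matrix.cons_val, Fin.reduceEq, ↓reduceIte] at E
    linear_combination -E
  have z10_9 : r 10 9 = 0 := by
    have E := h.l2 9
    simp only [o1x, shx, Matrix.cons_val, Fin.reduceEq, ↓reduceIte] at E
    linear_combination -E
  have z10_10 : r 10 10 = 0 := by
    have E := h.l2 10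
    simp only [o1x, shx, Matrix.cons_val, Fin.reduceEq, ↓reduceIte] at E
    linear_combination -E + z3_5
  have z10_11 : r 10 11 = 0 := by
    have E := h.l2 11
    simp only [o1x, shx, Matrix.cons_val, Fin.reduceEq, ↓reduceIte] at E
    linear_combination -E + z3_6
  have z10_12 : r 10 12 = 0 := by
    have E := h.l2 12
    simp only [o1x, shx, Matrix.cons_val, Fin.reduceEq, ↓reduceIte] at E
    linear_combination -E + z3_8
  have z9_0 : r 9 0 = 0 := by
    have E := h.l3 0
    simp only [o1y, shy, Matrix.cons_val, Fin.reduceEq, ↓reduceIte] at E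
    linear_combination -E
  have z9_1 : r 9 1 = 0 := by
    have E := h.l3 1
    simp only [o1y, shy, Matrix.cons_val, Fin.reduceEq, ↓reduceIte] at E
    linear_combination -E
  have z9_3 : r 9 3 = 0 := by
    have E := h.l3 3
    simp only [o1y, shy, Matrix.cons_val, Fin.reduceEq, ↓reduceIte] at E
    linear_combination -E
  have z9_4 : r 9 4 = 0 := by
    have E := h.l3 4
    simp only [o1y, shy, Matrix.cons_val, Fin.reduceEq, ↓reduceIte] at E
    linear_combination -E
  have z9_7 : r 9 7 = 0 := by
    have E := h.l3 7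
    simp only [o1y, shy, Matrix.cons_val, Fin.reduceEq, ↓reduceIte] at E
    linear_combination -E
  have z9_9 : r 9 9 = 0 := by
    have E := h.l3 9
    simp only [o1y, shy, Matrix.cons_val, Fin.reduceEq, ↓reduceIte] at E
    linear_combination -E
  have z9_10 : r 9 10 = 0 := by
    have E := h.l3 10
    simp only [o1y, shy, Matrix.cons_val, Fin.reduceEq, ↓reduceIte] at E
    linear_combination -E + z1_4
  have z9_12 : r 9 12 = 0 := by
    have E := h.l3 12
    simp only [o1y, shy, Matrix.cons_val, Fin.reduceEq, ↓reduceIte] at E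
    linear_combination -E + z1_7
  have z11_0 : r 11 0 = 0 := by
    have E := h.l4 0
    simp only [o1x, shx, Matrix.cons_val, Fin.reduceEq, ↓reduceIte] at E
    linear_combination -E
  have z11_2 : r 11 2 = 0 := by
    have E := h.l4 2
    simp only [o1x, shx, Matrix.cons_val, Fin.reduceEq, ↓reduceIte] at E
    linear_combination -E
  have z11_3 : r 11 3 = 0 := by
    have E := h.l4 3
    simp only [o1x, shx, Matrix.cons_val, Fin.reduceEq, ↓reduceIte] at E
    linear_combination -E
  have z11_6 : r 11 6 = 0 := by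
    have E := h.l4 6
    simp only [o1x, shx, Matrix.cons_val, Fin.reduceEq, ↓reduceIte] at E
    linear_combination -E
  have z11_8 : r 11 8 = 0 := by
    have E := h.l4 8
    simp only [o1x, shx, Matrix.cons_val, Fin.reduceEq, ↓reduceIte] at E
    linear_combination -E
  have z11_9 : r 11 9 = 0 := by
    have E := h.l4 9
    simp only [o1x, shx, Matrix.cons_val, Fin.reduceEq, ↓reduceIte] at E
    linear_combination -E
  have z11_12 : r 11 12 = 0 := by
    have E := h.l4 12
    simp only [o1x, shx, Matrix.cons_val, Fin.reduceEq, ↓reduceIte] at E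
    linear_combination -E + z4_8
  have z12_0 : r 12 0 = 0 := by
    have E := h.l5 0
    simp only [o1x, shx, Matrix.cons_val, Fin.reduceEq, ↓reduceIte] at E
    linear_combination -E
  have z12_2 : r 12 2 = 0 := by
    have E := h.l5 2
    simp only [o1x, shx, Matrix.cons_val, Fin.reduceEq, ↓reduceIte] at E
    linear_combination -E
  have z12_3 : r 12 3 = 0 := by
    have E := h.l5 3
    simp only [o1x, shx, Matrix.cons_val, Fin.reduceEq, ↓reduceIte] at E
    linear_combination -E
  have z12_6 : r 12 6 = 0 := by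
    have E := h.l5 6
    simp only [o1x, shx, Matrix.cons_val, Fin.reduceEq, ↓reduceIte] at E
    linear_combination -E
  have z12_8 : r 12 8 = 0 := by
    have E := h.l5 8
    simp only [o1x, shx, Matrix.cons_val, Fin.reduceEq, ↓reduceIte] at E
    linear_combination -E
  have z12_9 : r 12 9 = 0 := by
    have E := h.l5 9
    simp only [o1x, shx, Matrix.cons_val, Fin.reduceEq, ↓reduceIte] at E
    linear_combination -E
  have z12_1 : r 12 1 = 0 := by
    have E := h.l6 1
    simp only [o1y, shy, Matrix.cons_val, Fin.reduceEq, ↓reduceIte] at E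
    linear_combination -E
  have z2_0 : r 2 0 = 0 := by
    have E := h.l6 2
    simp only [o1y, shy, Matrix.cons_val, Fin.reduceEq, ↓reduceIte] at E
    linear_combination E + z12_2
  have z12_4 : r 12 4 = 0 := by
    have E := h.l6 4
    simp only [o1y, shy, Matrix.cons_val, Fin.reduceEq, ↓reduceIte] at E
    linear_combination -E
  have z2_2 : r 2 2 = 0 := by
    have E := h.l6 6
    simp only [o1y, shy, Matrix.cons_val, Fin.reduceEq, ↓reduceIte] at E
    linear_combination E + z12_6
  have z12_7 : r 12 7 = 0 := by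
    have E := h.l6 7
    simp only [o1y, shy, Matrix.cons_val, Fin.reduceEq, ↓reduceIte] at E
    linear_combination -E
  have z2_3 : r 2 3 = 0 := by
    have E := h.l6 8
    simp only [o1y, shy, Matrix.cons_val, Fin.reduceEq, ↓reduceIte] at E
    linear_combination E + z12_8
  have z12_12 : r 12 12 = 0 := by
    have E := h.l6 12
    simp only [o1y, shy, Matrix.cons_val, Fin.reduceEq, ↓reduceIte] at E
    linear_combination -E + z2_7
  have z1_0 : r 1 0 = 0 := by
    have E := h.l7 1
    simp only [o1x, shx, o1z, shz, Matrix.cons_val, Fin.reduceEq, ↓reduceIte] at E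
    linear_combination E
  have z0_0 : r 0 0 = 0 := by
    have E := h.l7 3
    simp only [o1x, shx, o1z, shz, Matrix.cons_val, Fin.reduceEq, ↓reduceIte] at E
    linear_combination -E
  have z1_1 : r 1 1 = 0 := by
    have E := h.l7 4
    simp only [o1x, shx, o1z, shz, Matrix.cons_val, Fin.reduceEq, ↓reduceIte] at E
    linear_combination E
  have z1_2 : r 1 2 = 0 := by
    have E := h.l7 5
    simp only [o1x, shx, o1z, shz, Matrix.cons_val, Fin.reduceEq, ↓reduceIte] at E
    linear_combination E
  have z0_2 : r 0 2 = 0 := by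
    have E := h.l7 8
    simp only [o1x, shx, o1z, shz, Matrix.cons_val, Fin.reduceEq, ↓reduceIte] at E
    linear_combination -E
  have z0_3 : r 0 3 = 0 := by
    have E := h.l7 9
    simp only [o1x, shx, o1z, shz, Matrix.cons_val, Fin.reduceEq, ↓reduceIte] at E
    linear_combination -E
  have z1_5 : r 1 5 = 0 := by
    have E := h.l7 10
    simp only [o1x, shx, o1z, shz, Matrix.cons_val, Fin.reduceEq, ↓reduceIte] at E
    linear_combination E
  have z1_6 : r 1 6 = 0 := by
    have E := h.l7 11
    simp only [o1x, shx, o1z, shz, Matrix.cons_val, Fin.reduceEq, ↓reduceIte] at E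
    linear_combination E
  have z1_8 : r 1 8 = 0 := by
    have E := h.l7 12
    simp only [o1x, shx, o1z, shz, Matrix.cons_val, Fin.reduceEq, ↓reduceIte] at E
    linear_combination E + z0_9 + z0_5
  have z2_1 : r 2 1 = 0 := by
    have E := h.l8 4
    simp only [o1x, shx, o1z, shz, Matrix.cons_val, Fin.reduceEq, ↓reduceIte] at E
    linear_combination E
  have z1_3 : r 1 3 = 0 := by
    have E := h.l8 9
    simp only [o1x, shx, o1z, shz, Matrix.cons_val, Fin.reduceEq, ↓reduceIte] at E
    linear_combination -E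
  have z2_5 : r 2 5 = 0 := by
    have E := h.l8 10
    simp only [o1x, shx, o1z, shz, Matrix.cons_val, Fin.reduceEq, ↓reduceIte] at E
    linear_combination E
  have z2_6 : r 2 6 = 0 := by
    have E := h.l8 11
    simp only [o1x, shx, o1z, shz, Matrix.cons_val, Fin.reduceEq, ↓reduceIte] at E
    linear_combination E
  have z2_8 : r 2 8 = 0 := by
    have E := h.l8 12
    simp only [o1x, shx, o1z, shz, Matrix.cons_val, Fin.reduceEq, ↓reduceIte] at E
    linear_combination E + z1_9 + z1_5
  have z6_0 : r 6 0 = 0 := by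
    have E := h.l9 1
    simp only [o1x, shx, o1z, shz, Matrix.cons_val, Fin.reduceEq, ↓reduceIte] at E
    linear_combination E - z9_1
  have z9_2 : r 9 2 = 0 := by
    have E := h.l9 2
    simp only [o1x, shx, o1z, shz, Matrix.cons_val, Fin.reduceEq, ↓reduceIte] at E
    linear_combination E
  have z6_1 : r 6 1 = 0 := by
    have E := h.l9 4
    simp only [o1x, shx, o1z, shz, Matrix.cons_val, Fin.reduceEq, ↓reduceIte] at E
    linear_combination E - z9_4
  have z9_6 : r 9 6 = 0 := by
    have E := h.l9 6
    simp only [o1x, shx, o1z, shz, Matrix.cons_val, Fin.reduceEq, ↓reduceIte] at E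
    linear_combination E
  have z6_3 : r 6 3 = 0 := by
    have E := h.l9 7
    simp only [o1x, shx, o1z, shz, Matrix.cons_val, Fin.reduceEq, ↓reduceIte] at E
    linear_combination E - z9_7 + z2_1
  have z9_8 : r 9 8 = 0 := by
    have E := h.l9 8
    simp only [o1x, shx, o1z, shz, Matrix.cons_val, Fin.reduceEq, ↓reduceIte] at E
    linear_combination E + z2_2
  have z6_5 : r 6 5 = 0 := by
    have E := h.l9 10
    simp only [o1x, shx, o1z, shz, Matrix.cons_val, Fin.reduceEq, ↓reduceIte] at E
    linear_combination E - z9_10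
  have z6_8 : r 6 8 = 0 := by
    have E := h.l9 12
    simp only [o1x, shx, o1z, shz, Matrix.cons_val, Fin.reduceEq, ↓reduceIte] at E
    linear_combination E - z9_12 + z2_9 + z2_5
  have z4_0 : r 4 0 = 0 := by
    have E := h.l10 2
    simp only [o1y, shy, o1z, shz, Matrix.cons_val, Fin.reduceEq, ↓reduceIte] at E
    linear_combination E
  have z3_0 : r 3 0 = 0 := by
    have E := h.l10 3
    simp only [o1y, shy, o1z, shz, Matrix.cons_val, Fin.reduceEq, ↓reduceIte] at E
    linear_combination -E
  have z4_1 : r 4 1 = 0 := by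
    have E := h.l10 5
    simp only [o1y, shy, o1z, shz, Matrix.cons_val, Fin.reduceEq, ↓reduceIte] at E
    linear_combination E
  have z4_2 : r 4 2 = 0 := by
    have E := h.l10 6
    simp only [o1y, shy, o1z, shz, Matrix.cons_val, Fin.reduceEq, ↓reduceIte] at E
    linear_combination E
  have z3_1 : r 3 1 = 0 := by
    have E := h.l10 7
    simp only [o1y, shy, o1z, shz, Matrix.cons_val, Fin.reduceEq, ↓reduceIte] at E
    linear_combination -E
  have z3_3 : r 3 3 = 0 := by
    have E := h.l10 9
    simp only [o1y, shy, o1z, shz, Matrix.cons_val, Fin.reduceEq, ↓reduceIte] at E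
    linear_combination -E
  have z4_4 : r 4 4 = 0 := by
    have E := h.l10 10
    simp only [o1y, shy, o1z, shz, Matrix.cons_val, Fin.reduceEq, ↓reduceIte] at E
    linear_combination E
  have z4_5 : r 4 5 = 0 := by
    have E := h.l10 11
    simp only [o1y, shy, o1z, shz, Matrix.cons_val, Fin.reduceEq, ↓reduceIte] at E
    linear_combination E
  have z4_7 : r 4 7 = 0 := by
    have E := h.l10 12
    simp only [o1y, shy, o1z, shz, Matrix.cons_val, Fin.reduceEq, ↓reduceIte] at E
    linear_combination E + z3_9 + z3_5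
  have z5_0 : r 5 0 = 0 := by
    have E := h.l11 2
    simp only [o1y, shy, o1z, shz, Matrix.cons_val, Fin.reduceEq, ↓reduceIte] at E
    linear_combination E
  have z5_1 : r 5 1 = 0 := by
    have E := h.l11 5
    simp only [o1y, shy, o1z, shz, Matrix.cons_val, Fin.reduceEq, ↓reduceIte] at E
    linear_combination E
  have z5_2 : r 5 2 = 0 := by
    have E := h.l11 6
    simp only [o1y, shy, o1z, shz, Matrix.cons_val, Fin.reduceEq, ↓reduceIte] at E
    linear_combination E
  have z5_3 : r 5 3 = 0 := by
    have E := h.l11 8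
    simp only [o1y, shy, o1z, shz, Matrix.cons_val, Fin.reduceEq, ↓reduceIte] at E
    linear_combination E + z4_2
  have z4_3 : r 4 3 = 0 := by
    have E := h.l11 9
    simp only [o1y, shy, o1z, shz, Matrix.cons_val, Fin.reduceEq, ↓reduceIte] at E
    linear_combination -E
  have z5_4 : r 5 4 = 0 := by
    have E := h.l11 10
    simp only [o1y, shy, o1z, shz, Matrix.cons_val, Fin.reduceEq, ↓reduceIte] at E
    linear_combination E
  have z5_5 : r 5 5 = 0 := by
    have E := h.l11 11
    simp only [o1y, shy, o1z, shz, Matrix.cons_val, Fin.reduceEq, ↓reduceIte] at E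
    linear_combination E
  have z5_7 : r 5 7 = 0 := by
    have E := h.l11 12
    simp only [o1y, shy, o1z, shz, Matrix.cons_val, Fin.reduceEq, ↓reduceIte] at E
    linear_combination E + z4_9 + z4_5
  have z11_1 : r 11 1 = 0 := by
    have E := h.l12 1
    simp only [o1y, shy, o1z, shz, Matrix.cons_val, Fin.reduceEq, ↓reduceIte] at E
    linear_combination E
  have z11_4 : r 11 4 = 0 := by
    have E := h.l12 4
    simp only [o1y, shy, o1z, shz, Matrix.cons_val, Fin.reduceEq, ↓reduceIte] at E
    linear_combination E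
  have z11_5 : r 11 5 = 0 := by
    have E := h.l12 5
    simp only [o1y, shy, o1z, shz, Matrix.cons_val, Fin.reduceEq, ↓reduceIte] at E
    linear_combination E - z6_1
  have z6_2 : r 6 2 = 0 := by
    have E := h.l12 6
    simp only [o1y, shy, o1z, shz, Matrix.cons_val, Fin.reduceEq, ↓reduceIte] at E
    linear_combination E - z11_6
  have z11_7 : r 11 7 = 0 := by
    have E := h.l12 7
    simp only [o1y, shy, o1z, shz, Matrix.cons_val, Fin.reduceEq, ↓reduceIte] at E
    linear_combination E + z5_1
  have z11_11 : r 11 11 = 0 := by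
    have E := h.l12 11
    simp only [o1y, shy, o1z, shz, Matrix.cons_val, Fin.reduceEq, ↓reduceIte] at E
    linear_combination E - z6_5
  have z6_7 : r 6 7 = 0 := by
    have E := h.l12 12
    simp only [o1y, shy, o1z, shz, Matrix.cons_val, Fin.reduceEq, ↓reduceIte] at E
    linear_combination E - z11_12 + z5_9 + z5_5
  have z8_0 : r 8 0 = 0 := by
    have E := h.l13 1
    simp only [o1x, shx, o1y, shy, Matrix.cons_val, Fin.reduceEq, ↓reduceIte] at E
    linear_combination E
  have z8_1 : r 8 1 = 0 := by
    have E := h.l13 4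
    simp only [o1x, shx, o1y, shy, Matrix.cons_val, Fin.reduceEq, ↓reduceIte] at E
    linear_combination E
  have z8_2 : r 8 2 = 0 := by
    have E := h.l13 5
    simp only [o1x, shx, o1y, shy, Matrix.cons_val, Fin.reduceEq, ↓reduceIte] at E
    linear_combination E + z7_1
  have z7_2 : r 7 2 = 0 := by
    have E := h.l13 6
    simp only [o1x, shx, o1y, shy, Matrix.cons_val, Fin.reduceEq, ↓reduceIte] at E
    linear_combination -E
  have z8_3 : r 8 3 = 0 := by
    have E := h.l13 7
    simp only [o1x, shx, o1y, shy, Matrix.cons_val, Fin.reduceEq, ↓reduceIte] at E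
    linear_combination E
  have z8_5 : r 8 5 = 0 := by
    have E := h.l13 10
    simp only [o1x, shx, o1y, shy, Matrix.cons_val, Fin.reduceEq, ↓reduceIte] at E
    linear_combination E + z7_4
  have z8_8 : r 8 8 = 0 := by
    have E := h.l13 12
    simp only [o1x, shx, o1y, shy, Matrix.cons_val, Fin.reduceEq, ↓reduceIte] at E
    linear_combination E + z7_7
  have z10_1 : r 10 1 = 0 := by
    have E := h.l14 4
    simp only [o1x, shx, o1y, shy, Matrix.cons_val, Fin.reduceEq, ↓reduceIte] at E
    linear_combination E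
  have z8_7 : r 8 7 = 0 := by
    have E := h.l14 12
    simp only [o1x, shx, o1y, shy, Matrix.cons_val, Fin.reduceEq, ↓reduceIte] at E
    linear_combination -E + z10_8
  have z9_5 : r 9 5 = 0 := by
    have E := h.l15 11
    simp only [o1x, shx, o1y, shy, Matrix.cons_val, Fin.reduceEq, ↓reduceIte] at E
    linear_combination -E + z11_6
  have z7_5 : r 7 5 = 0 := by
    have E := h.l16 12
    simp only [o1x, shx, o1z, shz, Matrix.cons_val, Fin.reduceEq, ↓reduceIte] at E
    linear_combination -E + z9_8 - z7_9
  have z8_9 : r 8 9 = 0 := by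
    have E := h.l17 12
    simp only [o1x, shx, o1z, shz, Matrix.cons_val, Fin.reduceEq, ↓reduceIte] at E
    linear_combination -E + z11_8 - z8_5
  have z12_5 : r 12 5 = 0 := by
    have E := h.l18 10
    simp only [o1x, shx, o1z, shz, Matrix.cons_val, Fin.reduceEq, ↓reduceIte] at E
    linear_combination E
  have z10_5 : r 10 5 = 0 := by
    have E := h.l20 12
    simp only [o1y, shy, o1z, shz, Matrix.cons_val, Fin.reduceEq, ↓reduceIte] at E
    linear_combination -E + z11_7 - z10_9
  have z0_1 : r 0 1 = 0 := by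
    have E := h.l1 5
    simp only [o1y, shy, Matrix.cons_val, Fin.reduceEq, ↓reduceIte] at E
    linear_combination E + z7_5
  have z7_6 : r 7 6 = 0 := by
    have E := h.l1 6
    simp only [o1y, shy, Matrix.cons_val, Fin.reduceEq, ↓reduceIte] at E
    linear_combination -E + z0_2
  have z7_8 : r 7 8 = 0 := by
    have E := h.l1 8
    simp only [o1y, shy, Matrix.cons_val, Fin.reduceEq, ↓reduceIte] at E
    linear_combination -E + z0_3
  have z10_4 : r 10 4 = 0 := by
    have E := h.l2 4
    simp only [o1x, shx, Matrix.cons_val, Fin.reduceEq, ↓reduceIte] at E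
    linear_combination -E + z3_1
  have z3_2 : r 3 2 = 0 := by
    have E := h.l2 5
    simp only [o1x, shx, Matrix.cons_val, Fin.reduceEq, ↓reduceIte] at E
    linear_combination E + z10_5
  have z10_7 : r 10 7 = 0 := by
    have E := h.l2 7
    simp only [o1x, shx, Matrix.cons_val, Fin.reduceEq, ↓reduceIte] at E
    linear_combination -E + z3_3
  have z9_11 : r 9 11 = 0 := by
    have E := h.l3 11
    simp only [o1y, shy, Matrix.cons_val, Fin.reduceEq, ↓reduceIte] at E
    linear_combination -E + z1_5
  have z11_10 : r 11 10 = 0 := by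
    have E := h.l4 10
    simp only [o1x, shx, Matrix.cons_val, Fin.reduceEq, ↓reduceIte] at E
    linear_combination -E + z4_5
  have z4_6 : r 4 6 = 0 := by
    have E := h.l4 11
    simp only [o1x, shx, Matrix.cons_val, Fin.reduceEq, ↓reduceIte] at E
    linear_combination E + z11_11
  have z12_10 : r 12 10 = 0 := by
    have E := h.l5 10
    simp only [o1x, shx, Matrix.cons_val, Fin.reduceEq, ↓reduceIte] at E
    linear_combination -E + z5_5
  have z5_8 : r 5 8 = 0 := by
    have E := h.l5 12
    simp only [o1x, shx, Matrix.cons_val, Fin.reduceEq, ↓reduceIte] at E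
    linear_combination E + z12_12
  have z2_4 : r 2 4 = 0 := by
    have E := h.l6 10
    simp only [o1y, shy, Matrix.cons_val, Fin.reduceEq, ↓reduceIte] at E
    linear_combination E + z12_10
  have z12_11 : r 12 11 = 0 := by
    have E := h.l6 11
    simp only [o1y, shy, Matrix.cons_val, Fin.reduceEq, ↓reduceIte] at E
    linear_combination -E + z2_5
  have z6_6 : r 6 6 = 0 := by
    have E := h.l9 11
    simp only [o1x, shx, o1z, shz, Matrix.cons_val, Fin.reduceEq, ↓reduceIte] at E
    linear_combination E - z9_11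
  have z6_4 : r 6 4 = 0 := by
    have E := h.l12 10
    simp only [o1y, shy, o1z, shz, Matrix.cons_val, Fin.reduceEq, ↓reduceIte] at E
    linear_combination E - z11_10
  have z8_6 : r 8 6 = 0 := by
    have E := h.l13 11
    simp only [o1x, shx, o1y, shy, Matrix.cons_val, Fin.reduceEq, ↓reduceIte] at E
    linear_combination E + z7_5
  have z8_4 : r 8 4 = 0 := by
    have E := h.l14 10
    simp only [o1x, shx, o1y, shy, Matrix.cons_val, Fin.reduceEq, ↓reduceIte] at E
    linear_combination -E + z10_5
  have z5_6 : r 5 6 = 0 := by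
    have E := h.l5 11
    simp only [o1x, shx, Matrix.cons_val, Fin.reduceEq, ↓reduceIte] at E
    linear_combination E + z12_11
  funext μ i
  fin_cases μ <;> fin_cases i <;> assumption

end Pool.Agent.Lib.MP_3c1e96_ag
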