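import Pool.Agent.Lib.MP_3c1e96_ag.Orders
import Pool.Agent.Lib.MP_3c1e96_ag.Chart

/-!
The first and second order parts of the neighbour conditions at the base point.
-/

namespace Pool.Agent.Lib.MP_3c1e96_ag

universe u

variable {k : Type u} [Field k]

/-- the linearised neighbour conditions at the base point -/
structure Lin (r : Fin 13 → Fin 13 → k) : Prop where
  l1 : ∀ i, o1y r 0 i = r 7 i
  l2 : ∀ i, o1x r 3 i = r 10 i
  l3 : ∀ i, o1y r 1 i = r 9 i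
  l4 : ∀ i, o1x r 4 i = r 11 i
  l5 : ∀ i, o1x r 5 i = r 12 i
  l6 : ∀ i, o1y r 2 i = r 12 i
  l7 : ∀ i, o1x r 1 i = o1z r 0 i
  l8 : ∀ i, o1x r 2 i = o1z r 1 i
  l9 : ∀ i, o1x r 6 i = o1z r 2 i
  l10 : ∀ i, o1y r 4 i = o1z r 3 i
  l11 : ∀ i, o1y r 5 i = o1z r 4 i
  l12 : ∀ i, o1y r 6 i = o1z r 5 i
  l13 : ∀ i, o1x r 8 i = o1y r 7 i
  l14 : ∀ i, o1x r 10 i = o1y r 8 i
  l15 : ∀ i, o1x r 11 i = o1y r 9 i
  l16 : ∀ i, o1x r 9 i = o1z r 7 i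
  l17 : ∀ i, o1x r 11 i = o1z r 8 i
  l18 : ∀ i, o1x r 12 i = o1z r 9 i
  l19 : ∀ i, o1y r 9 i = o1z r 8 i
  l20 : ∀ i, o1y r 11 i = o1z r 10 i
  l21 : ∀ i, o1y r 12 i = o1z r 11 i

/-- the second order part of the neighbour conditions at the base point -/
structure Quad (r₁ r₂ : Fin 13 → Fin 13 → k) : Prop where
  q1 : ∀ i, biy r₁ (r₁ 0) i + o1y r₂ 0 i = r₂ 7 i
  q2 : ∀ i, bix r₁ (r₁ 3) i + o1x r₂ 3 i = r₂ 10 i
  q3 : ∀ i, biy r₁ (r₁ 1) i + o1y r₂ 1 i = r₂ 9 i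
  q4 : ∀ i, bix r₁ (r₁ 4) i + o1x r₂ 4 i = r₂ 11 i
  q5 : ∀ i, bix r₁ (r₁ 5) i + o1x r₂ 5 i = r₂ 12 i
  q6 : ∀ i, biy r₁ (r₁ 2) i + o1y r₂ 2 i = r₂ 12 i
  q7 : ∀ i, bix r₁ (r₁ 1) i + o1x r₂ 1 i = biz r₁ (r₁ 0) i + o1z r₂ 0 i
  q8 : ∀ i, bix r₁ (r₁ 2) i + o1x r₂ 2 i = biz r₁ (r₁ 1) i + o1z r₂ 1 i
  q9 : ∀ i, bix r₁ (r₁ 6) i + o1x r₂ 6 i = biz r₁ (r₁ 2) i + o1z r₂ 2 i
  q10 : ∀ i, biy r₁ (r₁ 4) i + o1y r₂ 4 i = biz r₁ (r₁ 3) i + o1z r₂ 3 i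
  q11 : ∀ i, biy r₁ (r₁ 5) i + o1y r₂ 5 i = biz r₁ (r₁ 4) i + o1z r₂ 4 i
  q12 : ∀ i, biy r₁ (r₁ 6) i + o1y r₂ 6 i = biz r₁ (r₁ 5) i + o1z r₂ 5 i
  q13 : ∀ i, bix r₁ (r₁ 8) i + o1x r₂ 8 i = biy r₁ (r₁ 7) i + o1y r₂ 7 i
  q14 : ∀ i, bix r₁ (r₁ 10) i + o1x r₂ 10 i = biy r₁ (r₁ 8) i + o1y r₂ 8 i
  q15 : ∀ i, bix r₁ (r₁ 11) i + o1x r₂ 11 i = biy r₁ (r₁ 9) i + o1y r₂ 9 i
  q16 : ∀ i, bix r₁ (r₁ 9) i + o1x r₂ 9 i = biz r₁ (r₁ 7) i + o1z r₂ 7 i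
  q17 : ∀ i, bix r₁ (r₁ 11) i + o1x r₂ 11 i = biz r₁ (r₁ 8) i + o1z r₂ 8 i
  q18 : ∀ i, bix r₁ (r₁ 12) i + o1x r₂ 12 i = biz r₁ (r₁ 9) i + o1z r₂ 9 i
  q19 : ∀ i, biy r₁ (r₁ 9) i + o1y r₂ 9 i = biz r₁ (r₁ 8) i + o1z r₂ 8 i
  q20 : ∀ i, biy r₁ (r₁ 11) i + o1y r₂ 11 i = biz r₁ (r₁ 10) i + o1z r₂ 10 i
  q21 : ∀ i, biy r₁ (r₁ 12) i + o1y r₂ 12 i = biz r₁ (r₁ 11) i + o1z r₂ 11 i

lemma zx (μ i : Fin 13) : bix R0 (R0 μ) i + shx (R0 μ) i = (0 : k) := by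
  rw [bix_R0, zero_add]
  by_cases h : μ = 6
  · subst h; rw [R0_six]; fin_cases i <;> simp [shx]
  · rw [R0_of_ne h]; fin_cases i <;> simp [shx]

lemma zy (μ i : Fin 13) : biy R0 (R0 μ) i + shy (R0 μ) i = (0 : k) := by
  rw [biy_R0, zero_add]
  by_cases h : μ = 6
  · subst h; rw [R0_six]; fin_cases i <;> simp [shy]
  · rw [R0_of_ne h]; fin_cases i <;> simp [shy]

lemma zz (μ i : Fin 13) : biz R0 (R0 μ) i + shz (R0 μ) i = (0 : k) := by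
  have h9 : (R0 μ 9 : k) = 0 := by simp [R0]
  rw [biz_R0, h9, ite_self, zero_add]
  by_cases h : μ = 6
  · subst h; rw [R0_six]; fin_cases i <;> simp [shz]
  · rw [R0_of_ne h]; fin_cases i <;> simp [shz]

lemma r0z {μ : Fin 13} (h : μ ≠ 6) (i : Fin 13) : (R0 μ i : k) = 0 := by
  rw [R0_of_ne h]; rfl

/-- second order arcs at the base point -/
theorem conds_arcR {r₁ r₂ : Fin 13 → Fin 13 → k} (h1 : Lin r₁) (h2 : Quad r₁ r₂) :
    Conds (arcR r₁ r₂) where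
  c1 := by
    funext i
    apply E3.ext
    · rw [c0_acty, zy, arcR, c0_mk3, r0z (by decide)]
    · rw [c1_acty, arcR, c1_mk3]; exact h1.l1 i
    · rw [c2_acty, arcR, c2_mk3]; exact h2.q1 i
  c2 := by
    funext i
    apply E3.ext
    · rw [c0_actx, zx, arcR, c0_mk3, r0z (by decide)]
    · rw [c1_actx, arcR, c1_mk3]; exact h1.l2 i
    · rw [c2_actx, arcR, c2_mk3]; exact h2.q2 i
  c3 := by
    funext i
    apply E3.ext
    · rw [c0_acty, zy, arcR, c0_mk3, r0z (by decide)]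
    · rw [c1_acty, arcR, c1_mk3]; exact h1.l3 i
    · rw [c2_acty, arcR, c2_mk3]; exact h2.q3 i
  c4 := by
    funext i
    apply E3.ext
    · rw [c0_actx, zx, arcR, c0_mk3, r0z (by decide)]
    · rw [c1_actx, arcR, c1_mk3]; exact h1.l4 i
    · rw [c2_actx, arcR, c2_mk3]; exact h2.q4 i
  c5 := by
    funext i
    apply E3.ext
    · rw [c0_actx, zx, arcR, c0_mk3, r0z (by decide)]
    · rw [c1_actx, arcR, c1_mk3]; exact h1.l5 i
    · rw [c2_actx, arcR, c2_mk3]; exact h2.q5 i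
  c6 := by
    funext i
    apply E3.ext
    · rw [c0_acty, zy, arcR, c0_mk3, r0z (by decide)]
    · rw [c1_acty, arcR, c1_mk3]; exact h1.l6 i
    · rw [c2_acty, arcR, c2_mk3]; exact h2.q6 i
  c7 := by
    funext i
    apply E3.ext
    · rw [c0_actx, c0_actz, zx, zz]
    · rw [c1_actx, c1_actz]; exact h1.l7 i
    · rw [c2_actx, c2_actz]; exact h2.q7 i
  c8 := by
    funext i
    apply E3.ext
    · rw [c0_actx, c0_actz, zx, zz]
    · rw [c1_actx, c1_actz]; exact h1.l8 i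
    · rw [c2_actx, c2_actz]; exact h2.q8 i
  c9 := by
    funext i
    apply E3.ext
    · rw [c0_actx, c0_actz, zx, zz]
    · rw [c1_actx, c1_actz]; exact h1.l9 i
    · rw [c2_actx, c2_actz]; exact h2.q9 i
  c10 := by
    funext i
    apply E3.ext
    · rw [c0_acty, c0_actz, zy, zz]
    · rw [c1_acty, c1_actz]; exact h1.l10 i
    · rw [c2_acty, c2_actz]; exact h2.q10 i
  c11 := by
    funext i
    apply E3.ext
    · rw [c0_acty, c0_actz, zy, zz]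
    · rw [c1_acty, c1_actz]; exact h1.l11 i
    · rw [c2_acty, c2_actz]; exact h2.q11 i
  c12 := by
    funext i
    apply E3.ext
    · rw [c0_acty, c0_actz, zy, zz]
    · rw [c1_acty, c1_actz]; exact h1.l12 i
    · rw [c2_acty, c2_actz]; exact h2.q12 i
  c13 := by
    funext i
    apply E3.ext
    · rw [c0_actx, c0_acty, zx, zy]
    · rw [c1_actx, c1_acty]; exact h1.l13 i
    · rw [c2_actx, c2_acty]; exact h2.q13 i
  c14 := by
    funext i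
    apply E3.ext
    · rw [c0_actx, c0_acty, zx, zy]
    · rw [c1_actx, c1_acty]; exact h1.l14 i
    · rw [c2_actx, c2_acty]; exact h2.q14 i
  c15 := by
    funext i
    apply E3.ext
    · rw [c0_actx, c0_acty, zx, zy]
    · rw [c1_actx, c1_acty]; exact h1.l15 i
    · rw [c2_actx, c2_acty]; exact h2.q15 i
  c16 := by
    funext i
    apply E3.ext
    · rw [c0_actx, c0_actz, zx, zz]
    · rw [c1_actx, c1_actz]; exact h1.l16 i
    · rw [c2_actx, c2_actz]; exact h2.q16 i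
  c17 := by
    funext i
    apply E3.ext
    · rw [c0_actx, c0_actz, zx, zz]
    · rw [c1_actx, c1_actz]; exact h1.l17 i
    · rw [c2_actx, c2_actz]; exact h2.q17 i
  c18 := by
    funext i
    apply E3.ext
    · rw [c0_actx, c0_actz, zx, zz]
    · rw [c1_actx, c1_actz]; exact h1.l18 i
    · rw [c2_actx, c2_actz]; exact h2.q18 i
  c19 := by
    funext i
    apply E3.ext
    · rw [c0_acty, c0_actz, zy, zz]
    · rw [c1_acty, c1_actz]; exact h1.l19 i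
    · rw [c2_acty, c2_actz]; exact h2.q19 i
  c20 := by
    funext i
    apply E3.ext
    · rw [c0_acty, c0_actz, zy, zz]
    · rw [c1_acty, c1_actz]; exact h1.l20 i
    · rw [c2_acty, c2_actz]; exact h2.q20 i
  c21 := by
    funext i
    apply E3.ext
    · rw [c0_acty, c0_actz, zy, zz]
    · rw [c1_acty, c1_actz]; exact h1.l21 i
    · rw [c2_acty, c2_actz]; exact h2.q21 i

section Derivation

variable {B : Type u} [CommRing B] [Algebra k B] {π : B →ₐ[k] k} {δ : B →ₗ[k] k}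
  {r : Fin 13 → Fin 13 → B}

lemma IsPDer.actx (hδ : IsPDer π δ) (hr : ∀ μ i, π (r μ i) = R0 μ i) (μ i : Fin 13) :
    δ (actx r (r μ) i) = o1x (fun μ i => δ (r μ i)) μ i := by
  rw [← o1x_eq, actx_apply, map_add]
  congr 1
  · have e : ∀ a b, δ (a * b) = π a * δ b + δ a * π b := hδ
    simp only [bix, map_add, e, hr]; ring
  · fin_cases i <;> simp [shx]

lemma IsPDer.acty (hδ : IsPDer π δ) (hr : ∀ μ i, π (r μ i) = R0 μ i) (μ i : Fin 13) :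
    δ (acty r (r μ) i) = o1y (fun μ i => δ (r μ i)) μ i := by
  rw [← o1y_eq, acty_apply, map_add]
  congr 1
  · have e : ∀ a b, δ (a * b) = π a * δ b + δ a * π b := hδ
    simp only [biy, map_add, e, hr]; ring
  · fin_cases i <;> simp [shy]

lemma IsPDer.actz (hδ : IsPDer π δ) (hr : ∀ μ i, π (r μ i) = R0 μ i) (μ i : Fin 13) :
    δ (actz r (r μ) i) = o1z (fun μ i => δ (r μ i)) μ i := by
  rw [← o1z_eq, actz_apply, map_add]
  congr 1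
  · have e : ∀ a b, δ (a * b) = π a * δ b + δ a * π b := hδ
    simp only [biz, map_add, e, hr]; ring
  · fin_cases i <;> simp [shz]

/-- a point derivation gives a solution of the linearised conditions -/
theorem IsPDer.lin (hδ : IsPDer π δ) (hr : ∀ μ i, π (r μ i) = R0 μ i) (hc : Conds r) :
    Lin (fun μ i => δ (r μ i)) where
  l1 i := by rw [← hδ.acty hr, hc.c1]
  l2 i := by rw [← hδ.actx hr, hc.c2]
  l3 i := by rw [← hδ.acty hr, hc.c3]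
  l4 i := by rw [← hδ.actx hr, hc.c4]
  l5 i := by rw [← hδ.actx hr, hc.c5]
  l6 i := by rw [← hδ.acty hr, hc.c6]
  l7 i := by rw [← hδ.actx hr, ← hδ.actz hr, hc.c7]
  l8 i := by rw [← hδ.actx hr, ← hδ.actz hr, hc.c8]
  l9 i := by rw [← hδ.actx hr, ← hδ.actz hr, hc.c9]
  l10 i := by rw [← hδ.acty hr, ← hδ.actz hr, hc.c10]
  l11 i := by rw [← hδ.acty hr, ← hδ.actz hr, hc.c11]
  l12 i := by rw [← hδ.acty hr, ← hδ.actz hr, hc.c12]
  l13 i := by rw [← hδ.actx hr, ← hδ.acty hr, hc.c13]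
  l14 i := by rw [← hδ.actx hr, ← hδ.acty hr, hc.c14]
  l15 i := by rw [← hδ.actx hr, ← hδ.acty hr, hc.c15]
  l16 i := by rw [← hδ.actx hr, ← hδ.actz hr, hc.c16]
  l17 i := by rw [← hδ.actx hr, ← hδ.actz hr, hc.c17]
  l18 i := by rw [← hδ.actx hr, ← hδ.actz hr, hc.c18]
  l19 i := by rw [← hδ.acty hr, ← hδ.actz hr, hc.c19]
  l20 i := by rw [← hδ.acty hr, ← hδ.actz hr, hc.c20]
  l21 i := by rw [← hδ.acty hr, ← hδ.actz hr, hc.c21]

end Derivation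

end Pool.Agent.Lib.MP_3c1e96_ag
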