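import Mathlib

/-!
The truncated polynomial ring `k[ε]/(ε³)` and lifting properties of augmented `k`-algebras.
-/

namespace Pool.Agent.Lib.MP_3c1e96_ag

universe u

open Polynomial

section Trunc

variable (k : Type u) [Field k]

/-- `k[ε]/(ε³)` -/
abbrev E3 : Type u := k[X] ⧸ Ideal.span {(X : k[X]) ^ 3}

variable {k}

/-- the class of `X` -/
noncomputable def eps : E3 k := Ideal.Quotient.mk _ X

/-- coefficient of `ε^n`, `n < 3` -/
noncomputable def cf (n : ℕ) (hn : n < 3) : E3 k →ₗ[k] k :=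
  Submodule.liftQ ((Ideal.span {(X : k[X]) ^ 3}).restrictScalars k) (Polynomial.lcoeff k n) (by
    intro p hp
    rw [Submodule.restrictScalars_mem, Ideal.mem_span_singleton] at hp
    obtain ⟨q, rfl⟩ := hp
    rw [LinearMap.mem_ker, Polynomial.lcoeff_apply, Polynomial.coeff_X_pow_mul', if_neg (by omega)])

lemma cf_mk (n : ℕ) (hn : n < 3) (p : k[X]) :
    cf n hn (Ideal.Quotient.mk _ p) = p.coeff n := rfl

noncomputable abbrev c0 : E3 k →ₗ[k] k := cf 0 (by norm_num)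
noncomputable abbrev c1 : E3 k →ₗ[k] k := cf 1 (by norm_num)
noncomputable abbrev c2 : E3 k →ₗ[k] k := cf 2 (by norm_num)

lemma c0_mul (x y : E3 k) : c0 (x * y) = c0 x * c0 y := by
  obtain ⟨p, rfl⟩ := Ideal.Quotient.mk_surjective x
  obtain ⟨q, rfl⟩ := Ideal.Quotient.mk_surjective y
  rw [← map_mul, cf_mk, cf_mk, cf_mk, Polynomial.mul_coeff_zero]

lemma c1_mul (x y : E3 k) : c1 (x * y) = c0 x * c1 y + c1 x * c0 y := by
  obtain ⟨p, rfl⟩ := Ideal.Quotient.mk_surjective x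
  obtain ⟨q, rfl⟩ := Ideal.Quotient.mk_surjective y
  rw [← map_mul, cf_mk, cf_mk, cf_mk, cf_mk, cf_mk, Polynomial.mul_coeff_one]

lemma c2_mul (x y : E3 k) : c2 (x * y) = c0 x * c2 y + c1 x * c1 y + c2 x * c0 y := by
  obtain ⟨p, rfl⟩ := Ideal.Quotient.mk_surjective x
  obtain ⟨q, rfl⟩ := Ideal.Quotient.mk_surjective y
  simp only [← map_mul, cf_mk]
  rw [Polynomial.coeff_mul, Finset.Nat.sum_antidiagonal_succ, Finset.Nat.sum_antidiagonal_succ]
  simp
  ring

lemma c0_one : c0 (1 : E3 k) = 1 := by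
  rw [← map_one (Ideal.Quotient.mk _), cf_mk]; simp

lemma c1_one : c1 (1 : E3 k) = 0 := by
  rw [← map_one (Ideal.Quotient.mk _), cf_mk]; simp [Polynomial.coeff_one]

lemma c2_one : c2 (1 : E3 k) = 0 := by
  rw [← map_one (Ideal.Quotient.mk _), cf_mk]; simp [Polynomial.coeff_one]

lemma c0_algebraMap (r : k) : c0 (algebraMap k (E3 k) r) = r := by
  rw [Algebra.algebraMap_eq_smul_one, map_smul, c0_one]; simp

lemma c1_algebraMap (r : k) : c1 (algebraMap k (E3 k) r) = 0 := by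
  rw [Algebra.algebraMap_eq_smul_one, map_smul, c1_one]; simp

lemma c2_algebraMap (r : k) : c2 (algebraMap k (E3 k) r) = 0 := by
  rw [Algebra.algebraMap_eq_smul_one, map_smul, c2_one]; simp

lemma c0_eps : c0 (eps : E3 k) = 0 := by
  rw [eps, cf_mk]; simp

lemma c1_eps : c1 (eps : E3 k) = 1 := by
  rw [eps, cf_mk]; simp

lemma c2_eps : c2 (eps : E3 k) = 0 := by
  rw [eps, cf_mk]; simp [coeff_X]

lemma eps_pow_three : (eps : E3 k) ^ 3 = 0 := by
  rw [eps, ← map_pow, Ideal.Quotient.eq_zero_iff_mem]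
  exact Ideal.mem_span_singleton_self _

lemma E3.ext {x y : E3 k} (h0 : c0 x = c0 y) (h1 : c1 x = c1 y) (h2 : c2 x = c2 y) : x = y := by
  obtain ⟨p, rfl⟩ := Ideal.Quotient.mk_surjective x
  obtain ⟨q, rfl⟩ := Ideal.Quotient.mk_surjective y
  rw [cf_mk, cf_mk] at h0 h1 h2
  rw [Ideal.Quotient.eq, Ideal.mem_span_singleton, Polynomial.X_pow_dvd_iff]
  intro d hd
  rw [Polynomial.coeff_sub, sub_eq_zero]
  interval_cases d
  · exact h0
  · exact h1
  · exact h2

/-- the augmentation `k[ε]/(ε³) → k` -/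
noncomputable def aug : E3 k →ₐ[k] k where
  toFun := c0
  map_one' := c0_one
  map_mul' := c0_mul
  map_zero' := map_zero _
  map_add' := map_add _
  commutes' := c0_algebraMap

lemma aug_apply (x : E3 k) : aug x = c0 x := rfl

lemma pow_three_eq_zero {x : E3 k} (hx : c0 x = 0) : x ^ 3 = 0 := by
  have h3 : x ^ 3 = x * (x * x) := by ring
  rw [h3]
  apply E3.ext
  · rw [c0_mul, hx, zero_mul, map_zero]
  · rw [c1_mul, c1_mul, c0_mul, hx, map_zero]; ring
  · rw [c2_mul, c2_mul, c1_mul, c0_mul, hx, map_zero]; ring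

lemma isUnit_E3 {x : E3 k} (hx : c0 x ≠ 0) : IsUnit x := by
  have h1 : x = algebraMap k (E3 k) (c0 x) + (x - algebraMap k (E3 k) (c0 x)) := by ring
  rw [h1]
  refine IsNilpotent.isUnit_add_left_of_commute ?_ ?_ (Commute.all _ _)
  · refine ⟨3, pow_three_eq_zero ?_⟩
    rw [map_sub, c0_algebraMap, sub_self]
  · exact (IsUnit.mk0 _ hx).map _

end Trunc

section Lift3

variable {k : Type u} [Field k] {B : Type u} [CommRing B] [Algebra k B]

/-- `δ` is a point derivation at the augmentation `π`. -/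
def IsPDer (π : B →ₐ[k] k) (δ : B →ₗ[k] k) : Prop :=
  ∀ x y, δ (x * y) = π x * δ y + δ x * π y

lemma IsPDer.map_one {π : B →ₐ[k] k} {δ : B →ₗ[k] k} (h : IsPDer π δ) : δ 1 = 0 := by
  have := h 1 1
  rw [mul_one, _root_.map_one π, one_mul, mul_one] at this
  simpa using this

lemma IsPDer.algebraMap {π : B →ₐ[k] k} {δ : B →ₗ[k] k} (h : IsPDer π δ) (r : k) :
    δ (algebraMap k B r) = 0 := by
  rw [Algebra.algebraMap_eq_smul_one, map_smul, h.map_one, smul_zero]

/-- Every tangent vector (point derivation) lifts to an arc of order two. -/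
def Lift3 (π : B →ₐ[k] k) : Prop :=
  ∀ δ : B →ₗ[k] k, IsPDer π δ → ∃ ψ : B →ₐ[k] E3 k, (∀ x, c0 (ψ x) = π x) ∧ ∀ x, c1 (ψ x) = δ x

/-- the `ε`-coefficient of an arc is a point derivation -/
lemma isPDer_of_arc {π : B →ₐ[k] k} (ψ : B →ₐ[k] E3 k) (h : ∀ x, c0 (ψ x) = π x) :
    IsPDer π (c1 ∘ₗ ψ.toLinearMap) := by
  intro x y
  simp only [LinearMap.comp_apply, AlgHom.toLinearMap_apply, map_mul, c1_mul, h]

end Lift3

end Pool.Agent.Lib.MP_3c1e96_ag
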