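import Pool.Agent.Lib.MP_3c1e96_ag.Defs
import Pool.Agent.Lib.MP_3c1e96_ag.Trunc

/-!
Passing the second order lifting property from a `k`-algebra with a `k`-point to the local ring,
its completion, and power series rings over it.
-/

namespace Pool.Agent.Lib.MP_3c1e96_ag

universe u

section Loc

variable {k : Type u} [Field k] {A : Type u} [CommRing A] [Algebra k A] (p : A →ₐ[k] k)

lemma mem_closedPoint {x : A} : x ∈ (closedPoint p).asIdeal ↔ p x = 0 := Iff.rfl

/-- extension of an arc at `p` to the local ring -/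
noncomputable def arcLoc (ψ : A →ₐ[k] E3 k) (h : ∀ x, c0 (ψ x) = p x) :
    LocalRingAt p →ₐ[k] E3 k :=
  IsLocalization.liftAlgHom (M := (closedPoint p).asIdeal.primeCompl) (f := ψ) (fun y => by
    apply isUnit_E3
    rw [h]
    exact fun h0 => y.2 h0)

lemma arcLoc_algebraMap (ψ : A →ₐ[k] E3 k) (h : ∀ x, c0 (ψ x) = p x) (x : A) :
    arcLoc p ψ h (algebraMap A (LocalRingAt p) x) = ψ x := by
  rw [arcLoc, IsLocalization.liftAlgHom_apply, IsLocalization.lift_eq]
  rfl

/-- extension of `p` to the local ring -/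
noncomputable def augLoc : LocalRingAt p →ₐ[k] k :=
  IsLocalization.liftAlgHom (M := (closedPoint p).asIdeal.primeCompl) (f := p) (fun y => by
    exact IsUnit.mk0 _ (fun h0 => y.2 h0))

lemma augLoc_algebraMap (x : A) : augLoc p (algebraMap A (LocalRingAt p) x) = p x := by
  rw [augLoc, IsLocalization.liftAlgHom_apply, IsLocalization.lift_eq]
  rfl

lemma augLoc_eq_zero_iff (x : LocalRingAt p) :
    augLoc p x = 0 ↔ x ∈ IsLocalRing.maximalIdeal (LocalRingAt p) := by
  constructor
  · intro h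
    rw [IsLocalRing.mem_maximalIdeal, mem_nonunits_iff]
    intro hu
    have := hu.map (augLoc p)
    rw [h] at this
    exact not_isUnit_zero this
  · intro h
    by_contra hne
    rw [IsLocalRing.mem_maximalIdeal, mem_nonunits_iff] at h
    apply h
    obtain ⟨⟨a, s⟩, hs⟩ := IsLocalization.surj (closedPoint p).asIdeal.primeCompl x
    have h1 : augLoc p x * p s = p a := by
      rw [← augLoc_algebraMap p (s : A), ← map_mul]
      simp only at hs
      rw [hs, augLoc_algebraMap]
    have h2 : p a ≠ 0 := by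
      rw [← h1]
      exact mul_ne_zero hne (fun h0 => s.2 h0)
    have h3 : IsUnit (algebraMap A (LocalRingAt p) a) :=
      IsLocalization.map_units (LocalRingAt p) (⟨a, h2⟩ : (closedPoint p).asIdeal.primeCompl)
    simp only at hs
    rw [← hs] at h3
    exact isUnit_of_mul_isUnit_left h3

lemma isPDer_loc_ext {δ δ' : LocalRingAt p →ₗ[k] k} (h : IsPDer (augLoc p) δ)
    (h' : IsPDer (augLoc p) δ') (he : ∀ x : A, δ (algebraMap A _ x) = δ' (algebraMap A _ x)) :
    δ = δ' := by
  ext x
  obtain ⟨⟨a, s⟩, hs⟩ := IsLocalization.surj (closedPoint p).asIdeal.primeCompl x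
  simp only at hs
  have hs0 : p s ≠ 0 := fun h0 => s.2 h0
  have e1 := h x (algebraMap A _ (s : A))
  have e2 := h' x (algebraMap A _ (s : A))
  rw [hs, augLoc_algebraMap] at e1 e2
  rw [he] at e1
  have e3 := he (s : A)
  rw [e2, e3] at e1
  have e4 : (δ x - δ' x) * p s = 0 := by linear_combination -e1
  rcases mul_eq_zero.mp e4 with e5 | e5
  · exact sub_eq_zero.mp e5
  · exact absurd e5 hs0

lemma c0_arcLoc (ψ : A →ₐ[k] E3 k) (h : ∀ x, c0 (ψ x) = p x) (x : LocalRingAt p) :
    c0 (arcLoc p ψ h x) = augLoc p x := by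
  have : (aug.comp (arcLoc p ψ h)) = augLoc p := by
    apply IsLocalization.algHom_ext (closedPoint p).asIdeal.primeCompl
    ext x
    change c0 (arcLoc p ψ h (algebraMap A (LocalRingAt p) x)) =
      augLoc p (algebraMap A (LocalRingAt p) x)
    rw [arcLoc_algebraMap, augLoc_algebraMap, h]
  rw [← this]
  rfl

lemma lift3_loc (h : Lift3 p) : Lift3 (augLoc p) := by
  intro δ hδ
  let f : A →ₐ[k] LocalRingAt p := IsScalarTower.toAlgHom k A _
  obtain ⟨ψ, h0, h1⟩ := h (δ ∘ₗ f.toLinearMap) (by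
    intro x y
    simp only [LinearMap.comp_apply, AlgHom.toLinearMap_apply, map_mul]
    rw [hδ]
    simp only [f, IsScalarTower.coe_toAlgHom', augLoc_algebraMap])
  refine ⟨arcLoc p ψ h0, c0_arcLoc p ψ h0, ?_⟩
  have hd := isPDer_loc_ext p (isPDer_of_arc (arcLoc p ψ h0) (c0_arcLoc p ψ h0)) hδ (by
    intro x
    simp only [LinearMap.comp_apply, AlgHom.toLinearMap_apply, arcLoc_algebraMap, h1]
    rfl)
  intro x
  exact congr_fun (congr_arg DFunLike.coe hd) x

end Loc

section Completion

variable {k : Type u} [Field k] {O : Type u} [CommRing O] [IsLocalRing O] [Algebra k O]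
  (π : O →ₐ[k] k) (hπ : ∀ x, π x = 0 ↔ x ∈ IsLocalRing.maximalIdeal O)

/-- the completion -/
abbrev Cpl (O : Type u) [CommRing O] [IsLocalRing O] : Type u :=
  AdicCompletion (IsLocalRing.maximalIdeal O) O

/-- extension of an arc to the completion -/
noncomputable def arcCpl (ψ : O →ₐ[k] E3 k)
    (h : ∀ x ∈ IsLocalRing.maximalIdeal O, c0 (ψ x) = 0) : Cpl O →ₐ[k] E3 k :=
  (Ideal.Quotient.liftₐ (IsLocalRing.maximalIdeal O ^ 3) ψ (by
    have hle : IsLocalRing.maximalIdeal O ^ 3 ≤ RingHom.ker (ψ : O →+* E3 k) := by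
      rw [pow_three, Ideal.mul_le]
      intro x hx y hy
      rw [RingHom.mem_ker, map_mul]
      have hy' : ∀ y ∈ IsLocalRing.maximalIdeal O * IsLocalRing.maximalIdeal O,
          c0 (ψ y) = 0 ∧ c1 (ψ y) = 0 := by
        intro y hy
        induction hy using Submodule.mul_induction_on' with
        | mem_mul_mem a ha b hb =>
          refine ⟨?_, ?_⟩
          · rw [map_mul, c0_mul, h a ha, zero_mul]
          · rw [map_mul, c1_mul, h a ha, h b hb]; ring
        | add a ha b hb h1 h2 =>
          refine ⟨?_, ?_⟩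
          · rw [map_add, map_add, h1.1, h2.1, add_zero]
          · rw [map_add, map_add, h1.2, h2.2, add_zero]
      have hy1 := hy' y hy
      apply E3.ext
      · change c0 (ψ x * ψ y) = _
        rw [c0_mul, h x hx, zero_mul, map_zero]
      · change c1 (ψ x * ψ y) = _
        rw [c1_mul, h x hx, hy1.1, map_zero]; ring
      · change c2 (ψ x * ψ y) = _
        rw [c2_mul, h x hx, hy1.1, hy1.2, map_zero]; ring
    intro x hx
    exact hle hx)).comp
    ((AdicCompletion.evalₐ (IsLocalRing.maximalIdeal O) 3).restrictScalars k)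

lemma arcCpl_of (ψ : O →ₐ[k] E3 k)
    (h : ∀ x ∈ IsLocalRing.maximalIdeal O, c0 (ψ x) = 0) (x : O) :
    arcCpl ψ h (algebraMap O (Cpl O) x) = ψ x := by
  rw [arcCpl, AlgHom.comp_apply]
  have : (AlgHom.restrictScalars k (AdicCompletion.evalₐ (IsLocalRing.maximalIdeal O) 3))
      (algebraMap O (Cpl O) x) = Ideal.Quotient.mk _ x :=
    (AdicCompletion.evalₐ (IsLocalRing.maximalIdeal O) 3).commutes x
  rw [this]
  rfl

/-- augmentation of the completion -/
noncomputable def augCpl (π : O →ₐ[k] k) (hπ : ∀ x, π x = 0 ↔ x ∈ IsLocalRing.maximalIdeal O) :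
    Cpl O →ₐ[k] k :=
  (Ideal.Quotient.liftₐ (IsLocalRing.maximalIdeal O) π (fun x hx => (hπ x).mpr hx)).comp
    ((AdicCompletion.evalOneₐ (IsLocalRing.maximalIdeal O)).restrictScalars k)

lemma augCpl_of (x : O) : augCpl π hπ (algebraMap O (Cpl O) x) = π x := by
  rw [augCpl, AlgHom.comp_apply]
  have : (AlgHom.restrictScalars k (AdicCompletion.evalOneₐ (IsLocalRing.maximalIdeal O)))
      (algebraMap O (Cpl O) x) = Ideal.Quotient.mk _ x :=
    (AdicCompletion.evalOneₐ (IsLocalRing.maximalIdeal O)).commutes x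
  rw [this]
  rfl

variable [IsNoetherianRing O]

lemma augCpl_eq_zero_iff (x : Cpl O) :
    augCpl π hπ x = 0 ↔ x ∈ IsLocalRing.maximalIdeal (Cpl O) := by
  constructor
  · intro h
    rw [IsLocalRing.mem_maximalIdeal, mem_nonunits_iff]
    intro hu
    have := hu.map (augCpl π hπ)
    rw [h] at this
    exact not_isUnit_zero this
  · intro h
    rw [AdicCompletion.maximalIdeal_eq_map] at h
    have hle : Ideal.map (algebraMap O (Cpl O)) (IsLocalRing.maximalIdeal O) ≤
        RingHom.ker (augCpl π hπ : Cpl O →+* k) := by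
      rw [Ideal.map_le_iff_le_comap]
      intro y hy
      rw [Ideal.mem_comap, RingHom.mem_ker]
      change augCpl π hπ (algebraMap O (Cpl O) y) = 0
      rw [augCpl_of]
      exact (hπ y).mpr hy
    exact hle h

/-- every element of the completion is an element of `O` up to the cube of the maximal ideal -/
lemma exists_approx (x : Cpl O) : ∃ o : O, x - algebraMap O (Cpl O) o ∈
    IsLocalRing.maximalIdeal (Cpl O) ^ 3 := by
  obtain ⟨o, ho⟩ := Ideal.Quotient.mk_surjective
    (AdicCompletion.evalₐ (IsLocalRing.maximalIdeal O) 3 x)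
  refine ⟨o, ?_⟩
  have h1 : AdicCompletion.evalₐ (IsLocalRing.maximalIdeal O) 3 (x - algebraMap O (Cpl O) o) = 0 := by
    rw [map_sub, AlgHom.commutes, ← ho]
    exact sub_self _
  have h2 : (x - algebraMap O (Cpl O) o) ∈
      (AdicCompletion.eval (IsLocalRing.maximalIdeal O) O 3).ker := by
    rw [LinearMap.mem_ker]
    have h3 := AdicCompletion.factor_evalₐ_eq_eval (I := IsLocalRing.maximalIdeal O) (n := 3)
      (x - algebraMap O (Cpl O) o) (by simp)
    rw [h1, map_zero] at h3
    exact h3.symm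
  rw [← AdicCompletion.pow_smul_top_eq_ker_eval (IsNoetherian.noetherian _)] at h2
  have h4 : (IsLocalRing.maximalIdeal (Cpl O)) ^ 3 =
      Ideal.map (algebraMap O (Cpl O)) (IsLocalRing.maximalIdeal O ^ 3) := by
    rw [AdicCompletion.maximalIdeal_eq_map, Ideal.map_pow]
  rw [h4]
  have h5 := Ideal.smul_top_eq_map (R := O) (S := Cpl O) (IsLocalRing.maximalIdeal O ^ 3)
  have h6 : x - algebraMap O (Cpl O) o ∈
      (IsLocalRing.maximalIdeal O ^ 3 • (⊤ : Submodule O (Cpl O))) := h2
  rw [h5, Submodule.restrictScalars_mem] at h6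
  exact h6

lemma IsPDer.sq {B : Type u} [CommRing B] [Algebra k B] {π : B →ₐ[k] k} {δ : B →ₗ[k] k}
    (h : IsPDer π δ) {I : Ideal B} (hI : ∀ x ∈ I, π x = 0) {x : B} (hx : x ∈ I ^ 2) : δ x = 0 := by
  rw [pow_two] at hx
  induction hx using Submodule.mul_induction_on' with
  | mem_mul_mem a ha b hb => rw [h, hI a ha, hI b hb]; ring
  | add a ha b hb h1 h2 => rw [map_add, h1, h2, add_zero]

lemma c0_arcCpl (ψ : O →ₐ[k] E3 k) (h : ∀ x, c0 (ψ x) = π x) (x : Cpl O) :
    c0 (arcCpl ψ (fun y hy => by rw [h]; exact (hπ y).mpr hy) x) = augCpl π hπ x := by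
  obtain ⟨o, ho⟩ := exists_approx x
  have h1 : x - algebraMap O (Cpl O) o ∈ IsLocalRing.maximalIdeal (Cpl O) :=
    Ideal.pow_le_self (by norm_num) ho
  set ψ' := arcCpl ψ (fun y hy => by rw [h]; exact (hπ y).mpr hy) with hψ'
  have h2 : c0 (ψ' (x - algebraMap O (Cpl O) o)) = 0 := by
    by_contra hne
    rw [IsLocalRing.mem_maximalIdeal, mem_nonunits_iff] at h1
    -- `ψ'` maps non-units to non-units: use that the maximal ideal is generated by that of `O`
    have h3 : x - algebraMap O (Cpl O) o ∈ Ideal.map (algebraMap O (Cpl O))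
        (IsLocalRing.maximalIdeal O) := by
      rw [← AdicCompletion.maximalIdeal_eq_map]
      rwa [IsLocalRing.mem_maximalIdeal, mem_nonunits_iff]
    have hle : Ideal.map (algebraMap O (Cpl O)) (IsLocalRing.maximalIdeal O) ≤
        RingHom.ker ((aug.comp ψ' : Cpl O →ₐ[k] k) : Cpl O →+* k) := by
      rw [Ideal.map_le_iff_le_comap]
      intro y hy
      rw [Ideal.mem_comap, RingHom.mem_ker]
      change c0 (ψ' (algebraMap O (Cpl O) y)) = 0
      rw [hψ', arcCpl_of, h]
      exact (hπ y).mpr hy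
    exact hne (hle h3)
  have h3 : augCpl π hπ (x - algebraMap O (Cpl O) o) = 0 :=
    (augCpl_eq_zero_iff π hπ _).mpr h1
  rw [map_sub, map_sub, sub_eq_zero] at h2
  rw [map_sub, sub_eq_zero] at h3
  rw [h2, h3, augCpl_of, hψ', arcCpl_of, h]

lemma lift3_cpl (h : Lift3 π) : Lift3 (augCpl π hπ) := by
  intro δ hδ
  let f : O →ₐ[k] Cpl O := IsScalarTower.toAlgHom k O _
  obtain ⟨ψ, h0, h1⟩ := h (δ ∘ₗ f.toLinearMap) (by
    intro x y
    simp only [LinearMap.comp_apply, AlgHom.toLinearMap_apply, map_mul]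
    rw [hδ]
    have : ∀ z, augCpl π hπ (f z) = π z := augCpl_of π hπ
    rw [this, this])
  refine ⟨arcCpl ψ (fun y hy => by rw [h0]; exact (hπ y).mpr hy), c0_arcCpl π hπ ψ h0, ?_⟩
  intro x
  set ψ' := arcCpl ψ (fun y hy => by rw [h0]; exact (hπ y).mpr hy) with hψ'
  obtain ⟨o, ho⟩ := exists_approx x
  have ho2 : x - algebraMap O (Cpl O) o ∈ IsLocalRing.maximalIdeal (Cpl O) ^ 2 :=
    Ideal.pow_le_pow_right (by norm_num) ho
  have hmax : ∀ y ∈ IsLocalRing.maximalIdeal (Cpl O), augCpl π hπ y = 0 :=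
    fun y hy => (augCpl_eq_zero_iff π hπ y).mpr hy
  have e1 : δ (x - algebraMap O (Cpl O) o) = 0 := hδ.sq hmax ho2
  have hder : IsPDer (augCpl π hπ) (c1 ∘ₗ ψ'.toLinearMap) :=
    isPDer_of_arc ψ' (c0_arcCpl π hπ ψ h0)
  have e2 : (c1 ∘ₗ ψ'.toLinearMap) (x - algebraMap O (Cpl O) o) = 0 := hder.sq hmax ho2
  rw [map_sub, sub_eq_zero] at e1 e2
  change (c1 ∘ₗ ψ'.toLinearMap) x = δ x
  rw [e1, e2]
  change c1 (ψ' (algebraMap O (Cpl O) o)) = δ (algebraMap O (Cpl O) o)
  rw [hψ', arcCpl_of, h1]
  rfl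

end Completion

section Good

variable (k : Type u) [Field k]

/-- An augmented local `k`-algebra with the second order lifting property. -/
def IsGood (B : Type u) [CommRing B] [Algebra k B] : Prop :=
  ∃ π : B →ₐ[k] k, (∀ x, π x ≠ 0 → IsUnit x) ∧ Lift3 π

variable {k}

lemma IsGood.of_algEquiv {B B' : Type u} [CommRing B] [Algebra k B] [CommRing B'] [Algebra k B']
    (e : B ≃ₐ[k] B') (h : IsGood k B) : IsGood k B' := by
  obtain ⟨π, h1, h2⟩ := h
  refine ⟨π.comp (e.symm : B' →ₐ[k] B), ?_, ?_⟩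
  · intro x hx
    have := (h1 _ hx).map (e : B →ₐ[k] B')
    simpa using this
  · intro δ hδ
    obtain ⟨ψ, h3, h4⟩ := h2 (δ ∘ₗ (e : B →ₐ[k] B').toLinearMap) (by
      intro x y
      simp only [LinearMap.comp_apply, AlgHom.toLinearMap_apply, map_mul]
      rw [hδ]
      simp)
    refine ⟨ψ.comp (e.symm : B' →ₐ[k] B), ?_, ?_⟩
    · intro x
      simp only [AlgHom.comp_apply, h3]
    · intro x
      simp only [AlgHom.comp_apply, h4, LinearMap.comp_apply]
      simp

/-- evaluation of power series in one variable at `t ε` -/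
noncomputable def arcPS {B : Type u} [CommRing B] [Algebra k B] (ψ : B →ₐ[k] E3 k) (t : k) :
    PowerSeries B →ₐ[k] E3 k where
  toFun f := ψ (PowerSeries.coeff 0 f) + ψ (PowerSeries.coeff 1 f) * (t • eps) +
    ψ (PowerSeries.coeff 2 f) * (t • eps) ^ 2
  map_one' := by
    simp [PowerSeries.coeff_one]
  map_mul' f g := by
    have he : (t • eps : E3 k) ^ 3 = 0 := by rw [smul_pow, eps_pow_three, smul_zero]
    have h0 : PowerSeries.coeff 0 (f * g) = PowerSeries.coeff 0 f * PowerSeries.coeff 0 g := by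
      rw [PowerSeries.coeff_mul]; simp
    have h1 : PowerSeries.coeff 1 (f * g) = PowerSeries.coeff 0 f * PowerSeries.coeff 1 g +
        PowerSeries.coeff 1 f * PowerSeries.coeff 0 g := by
      rw [PowerSeries.coeff_mul, Finset.Nat.sum_antidiagonal_succ]; simp
    have h2 : PowerSeries.coeff 2 (f * g) = PowerSeries.coeff 0 f * PowerSeries.coeff 2 g +
        PowerSeries.coeff 1 f * PowerSeries.coeff 1 g +
        PowerSeries.coeff 2 f * PowerSeries.coeff 0 g := by
      rw [PowerSeries.coeff_mul, Finset.Nat.sum_antidiagonal_succ,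
        Finset.Nat.sum_antidiagonal_succ]
      simp [add_assoc]
    rw [h0, h1, h2]
    simp only [map_add, map_mul]
    generalize (t • eps : E3 k) = e at he
    linear_combination (-(ψ (PowerSeries.coeff 1 f) * ψ (PowerSeries.coeff 2 g) +
      ψ (PowerSeries.coeff 2 f) * ψ (PowerSeries.coeff 1 g)) -
      e * ψ (PowerSeries.coeff 2 f) * ψ (PowerSeries.coeff 2 g)) * he
  map_zero' := by simp
  map_add' f g := by
    simp only [map_add]
    ring
  commutes' r := by
    rw [PowerSeries.algebraMap_apply]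
    simp [PowerSeries.coeff_C]

lemma IsGood.powerSeries {B : Type u} [CommRing B] [Algebra k B] (h : IsGood k B) :
    IsGood k (PowerSeries B) := by
  obtain ⟨π, h1, h2⟩ := h
  let cc : PowerSeries B →ₐ[k] B :=
    { PowerSeries.constantCoeff (R := B) with
      commutes' := by
        intro r
        rw [PowerSeries.algebraMap_apply]
        simp }
  have hcc : ∀ f, cc f = PowerSeries.constantCoeff f := fun f => rfl
  refine ⟨π.comp cc, ?_, ?_⟩
  · intro f hf
    rw [PowerSeries.isUnit_iff_constantCoeff]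
    exact h1 _ hf
  · intro δ hδ
    let inc : B →ₐ[k] PowerSeries B :=
      { PowerSeries.C (R := B) with
        commutes' := fun r => PowerSeries.algebraMap_apply.symm }
    have hinc : ∀ x, inc x = PowerSeries.C x := fun x => rfl
    obtain ⟨ψ, h3, h4⟩ := h2 (δ ∘ₗ inc.toLinearMap) (by
      intro x y
      simp only [LinearMap.comp_apply, AlgHom.toLinearMap_apply, map_mul]
      rw [hδ]
      simp [hinc, hcc])
    refine ⟨arcPS ψ (δ PowerSeries.X), ?_, ?_⟩
    · intro f
      change c0 (ψ (PowerSeries.coeff 0 f) + ψ (PowerSeries.coeff 1 f) * (δ PowerSeries.X • eps) +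
        ψ (PowerSeries.coeff 2 f) * (δ PowerSeries.X • eps) ^ 2) = _
      rw [map_add, map_add, pow_two, c0_mul, c0_mul, c0_mul, map_smul, c0_eps, h3]
      simp [hcc]
    · intro f
      change c1 (ψ (PowerSeries.coeff 0 f) + ψ (PowerSeries.coeff 1 f) * (δ PowerSeries.X • eps) +
        ψ (PowerSeries.coeff 2 f) * (δ PowerSeries.X • eps) ^ 2) = _
      rw [map_add, map_add, pow_two, c1_mul, c1_mul, c1_mul, c0_mul, map_smul, map_smul, c0_eps,
        c1_eps, h4, h3]
      have hf : f = (PowerSeries.X * PowerSeries.mk fun p => (PowerSeries.coeff (p + 1)) f) +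
          PowerSeries.C (PowerSeries.constantCoeff f) := PowerSeries.eq_X_mul_shift_add_const f
      conv_rhs => rw [hf]
      rw [map_add, hδ]
      simp [hcc, hinc]
      ring

lemma IsGood.mvPowerSeries {B : Type u} [CommRing B] [Algebra k B] (h : IsGood k B) (n : ℕ) :
    IsGood k (MvPowerSeries (Fin n) B) := by
  induction n with
  | zero =>
    exact IsGood.of_algEquiv ((MvPowerSeries.isEmptyEquiv (Fin 0) B).restrictScalars k).symm h
  | succ n ih =>
    exact IsGood.of_algEquiv ((MvPowerSeries.finSuccEquiv B n).restrictScalars k).symm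
      ih.powerSeries

end Good

section MainGood

variable {k : Type u} [Field k] {A : Type u} [CommRing A] [Algebra k A] [IsNoetherianRing A]

theorem isGood_of_lift3 (p : A →ₐ[k] k) (h : Lift3 p) (n : ℕ) :
    IsGood k (MvPowerSeries (Fin n) (CompletedLocalRingAt p)) := by
  apply IsGood.mvPowerSeries
  have : IsNoetherianRing (LocalRingAt p) :=
    IsLocalization.isNoetherianRing (closedPoint p).asIdeal.primeCompl _ inferInstance
  refine ⟨augCpl (augLoc p) (augLoc_eq_zero_iff p), ?_, ?_⟩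
  · intro x hx
    by_contra hu
    apply hx
    rw [augCpl_eq_zero_iff]
    exact hu
  · exact lift3_cpl _ _ (lift3_loc p h)

end MainGood

end Pool.Agent.Lib.MP_3c1e96_ag
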