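import Pool.Agent.Lib.MP_3c1e96_ag.Defs

namespace Pool.Agent.Lib.MP_3c1e96_ag

universe u

open MvPolynomial Matrix

section Eval

variable {R : Type u} [CommRing R] {d : ℕ}

/-- The ordered monomial `T₀^α₀ T₁^α₁ T₂^α₂`. -/
def ordMon (T : Fin 3 → Matrix (Fin d) (Fin d) R) (α : Fin 3 →₀ ℕ) : Matrix (Fin d) (Fin d) R :=
  T 0 ^ α 0 * T 1 ^ α 1 * T 2 ^ α 2

/-- pairwise commuting triples -/
def PComm (T : Fin 3 → Matrix (Fin d) (Fin d) R) : Prop := ∀ a b, Commute (T a) (T b)

@[simp] lemma ordMon_zero (T : Fin 3 → Matrix (Fin d) (Fin d) R) : ordMon T 0 = 1 := by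
  simp [ordMon]

lemma ordMon_add {T : Fin 3 → Matrix (Fin d) (Fin d) R} (hT : PComm T) (α β : Fin 3 →₀ ℕ) :
    ordMon T (α + β) = ordMon T α * ordMon T β := by
  simp only [ordMon, Finsupp.add_apply, pow_add]
  have h10 : Commute (T 1 ^ α 1) (T 0 ^ β 0) := (hT 1 0).pow_pow _ _
  have h20 : Commute (T 2 ^ α 2) (T 0 ^ β 0) := (hT 2 0).pow_pow _ _
  have h21 : Commute (T 2 ^ α 2) (T 1 ^ β 1) := (hT 2 1).pow_pow _ _
  calc T 0 ^ α 0 * T 0 ^ β 0 * (T 1 ^ α 1 * T 1 ^ β 1) * (T 2 ^ α 2 * T 2 ^ β 2)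
      = T 0 ^ α 0 * (T 0 ^ β 0 * T 1 ^ α 1) * (T 1 ^ β 1 * T 2 ^ α 2) * T 2 ^ β 2 := by
        simp only [mul_assoc]
    _ = T 0 ^ α 0 * (T 1 ^ α 1 * T 0 ^ β 0) * (T 2 ^ α 2 * T 1 ^ β 1) * T 2 ^ β 2 := by
        rw [h10.eq, h21.eq]
    _ = T 0 ^ α 0 * T 1 ^ α 1 * (T 0 ^ β 0 * T 2 ^ α 2) * T 1 ^ β 1 * T 2 ^ β 2 := by
        simp only [mul_assoc]
    _ = T 0 ^ α 0 * T 1 ^ α 1 * (T 2 ^ α 2 * T 0 ^ β 0) * T 1 ^ β 1 * T 2 ^ β 2 := by
        rw [h20.eq]
    _ = _ := by simp only [mul_assoc]

/-- evaluation of polynomials at a commuting triple of matrices -/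
noncomputable def evalMat (T : Fin 3 → Matrix (Fin d) (Fin d) R) (hT : PComm T) :
    MvPolynomial (Fin 3) R →ₐ[R] Matrix (Fin d) (Fin d) R :=
  AddMonoidAlgebra.lift R _ _
    { toFun := fun α => ordMon T (Multiplicative.toAdd α)
      map_one' := ordMon_zero T
      map_mul' := fun _ _ => ordMon_add hT _ _ }

lemma evalMat_monomial (T : Fin 3 → Matrix (Fin d) (Fin d) R) (hT : PComm T)
    (α : Fin 3 →₀ ℕ) (r : R) : evalMat T hT (monomial α r) = r • ordMon T α := by
  have : (monomial α r : MvPolynomial (Fin 3) R) = AddMonoidAlgebra.single α r := rfl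
  rw [this, evalMat, AddMonoidAlgebra.lift_single]
  rfl

lemma evalMat_X (T : Fin 3 → Matrix (Fin d) (Fin d) R) (hT : PComm T) (a : Fin 3) :
    evalMat T hT (X a) = T a := by
  rw [X, evalMat_monomial, one_smul]
  fin_cases a <;> simp [ordMon]

lemma ordMon_map {R' : Type u} [CommRing R'] (φ : R →+* R')
    (T : Fin 3 → Matrix (Fin d) (Fin d) R) (α : Fin 3 →₀ ℕ) :
    ordMon (fun a => (T a).map φ) α = (ordMon T α).map φ := by
  have h : ∀ a, (T a).map φ = φ.mapMatrix (T a) := fun a => rfl
  simp only [ordMon, h, ← map_pow, ← map_mul]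
  rfl

lemma PComm.map {R' : Type u} [CommRing R'] (φ : R →+* R')
    {T : Fin 3 → Matrix (Fin d) (Fin d) R} (hT : PComm T) :
    PComm (fun a => (T a).map φ) := by
  intro a b
  exact (hT a b).map φ.mapMatrix

lemma evalMat_map {R' : Type u} [CommRing R'] (φ : R →+* R')
    (T : Fin 3 → Matrix (Fin d) (Fin d) R) (hT : PComm T) (f : MvPolynomial (Fin 3) R) :
    evalMat (fun a => (T a).map φ) (hT.map φ) (MvPolynomial.map φ f) = (evalMat T hT f).map φ := by
  induction f using MvPolynomial.induction_on' with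
  | monomial α r =>
    rw [MvPolynomial.map_monomial, evalMat_monomial, evalMat_monomial, ordMon_map]
    ext i j
    simp
  | add p q hp hq =>
    rw [map_add, map_add, hp, hq, map_add]
    ext i j
    simp

end Eval

section ChartPoint

variable {R : Type u} [CommRing R] {d : ℕ} (b : Fin d → (Fin 3 →₀ ℕ)) (i₀ : Fin d)

/-- Triples of commuting matrices with the normalisation `b_i(T) e_{i₀} = e_i`. -/
structure IsChartPt (T : Fin 3 → Matrix (Fin d) (Fin d) R) : Prop where
  comm : PComm T
  norm : ∀ i, (ordMon T (b i)).mulVec (Pi.single i₀ 1) = Pi.single i 1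

variable {b i₀}

/-- `f ↦ f(T) e_{i₀}` -/
noncomputable def evalVec (i₀ : Fin d) (T : Fin 3 → Matrix (Fin d) (Fin d) R) (hT : PComm T) :
    MvPolynomial (Fin 3) R →ₗ[R] (Fin d → R) where
  toFun f := (evalMat T hT f).mulVec (Pi.single i₀ 1)
  map_add' f g := by rw [map_add, add_mulVec]
  map_smul' r f := by rw [map_smul, smul_mulVec]; rfl

lemma evalVec_apply (T : Fin 3 → Matrix (Fin d) (Fin d) R) (hT : PComm T)
    (f : MvPolynomial (Fin 3) R) :
    evalVec i₀ T hT f = (evalMat T hT f).mulVec (Pi.single i₀ 1) := rfl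

lemma evalVec_mul (T : Fin 3 → Matrix (Fin d) (Fin d) R) (hT : PComm T)
    (f g : MvPolynomial (Fin 3) R) :
    evalVec i₀ T hT (f * g) = (evalMat T hT f).mulVec (evalVec i₀ T hT g) := by
  rw [evalVec_apply, evalVec_apply, map_mul, mulVec_mulVec]

/-- The ideal of polynomials with `f(T) e_{i₀} = 0`. -/
noncomputable def idealOf (i₀ : Fin d) (T : Fin 3 → Matrix (Fin d) (Fin d) R) (hT : PComm T) :
    Ideal (MvPolynomial (Fin 3) R) where
  carrier := {f | evalVec i₀ T hT f = 0}
  add_mem' := by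
    intro f g hf hg
    simp only [Set.mem_ofPred_eq] at *
    rw [map_add, hf, hg, add_zero]
  zero_mem' := by simp
  smul_mem' := by
    intro g f hf
    simp only [Set.mem_ofPred_eq] at *
    rw [smul_eq_mul, evalVec_mul, hf, mulVec_zero]

lemma mem_idealOf {T : Fin 3 → Matrix (Fin d) (Fin d) R} {hT : PComm T}
    {f : MvPolynomial (Fin 3) R} : f ∈ idealOf i₀ T hT ↔ evalVec i₀ T hT f = 0 := Iff.rfl

lemma evalVec_basis {T : Fin 3 → Matrix (Fin d) (Fin d) R} (h : IsChartPt b i₀ T) (i : Fin d) :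
    evalVec i₀ T h.comm (monomial (b i) 1) = Pi.single i 1 := by
  rw [evalVec_apply, evalMat_monomial, one_smul, h.norm]

variable (b) in
/-- the polynomial `∑ c_i x^{b_i}` -/
noncomputable def comb (c : Fin d → R) : MvPolynomial (Fin 3) R :=
  ∑ i, monomial (b i) (c i)

lemma comb_add (c c' : Fin d → R) : comb b (c + c') = comb b c + comb b c' := by
  simp [comb, Finset.sum_add_distrib]

lemma comb_smul (r : R) (c : Fin d → R) : comb b (r • c) = r • comb b c := by
  simp [comb, Finset.smul_sum, MvPolynomial.smul_monomial]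

lemma comb_single (i : Fin d) (r : R) : comb b (Pi.single i r) = monomial (b i) r := by
  classical
  rw [comb, Finset.sum_eq_single i]
  · simp
  · intro j _ hj
    simp [Pi.single_eq_of_ne hj]
  · simp

lemma map_comb {R' : Type u} [CommRing R'] (φ : R →+* R') (c : Fin d → R) :
    MvPolynomial.map φ (comb b c) = comb b (fun i => φ (c i)) := by
  simp [comb, map_sum, MvPolynomial.map_monomial]

lemma evalVec_comb {T : Fin 3 → Matrix (Fin d) (Fin d) R} (h : IsChartPt b i₀ T)
    (c : Fin d → R) : evalVec i₀ T h.comm (comb b c) = c := by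
  classical
  have : ∀ i, evalVec i₀ T h.comm (monomial (b i) (c i)) = c i • Pi.single i (1 : R) := by
    intro i
    rw [← mul_one (c i), ← smul_eq_mul (c i) (1 : R), ← MvPolynomial.smul_monomial, map_smul,
      evalVec_basis h]
    simp
  rw [comb, map_sum]
  simp only [this]
  ext j
  simp [Finset.sum_apply, Pi.single_apply]

variable (b) in
/-- `J` has the monomials `x^{b_i}` as a basis of the quotient. -/
def HasBasis (J : Ideal (MvPolynomial (Fin 3) R)) : Prop :=
  (∀ f : MvPolynomial (Fin 3) R, ∃ c : Fin d → R, f - comb b c ∈ J) ∧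
  (∀ c : Fin d → R, comb b c ∈ J → c = 0)

lemma hasBasis_idealOf {T : Fin 3 → Matrix (Fin d) (Fin d) R} (h : IsChartPt b i₀ T) :
    HasBasis b (idealOf i₀ T h.comm) := by
  refine ⟨fun f => ⟨evalVec i₀ T h.comm f, ?_⟩, fun c hc => ?_⟩
  · rw [mem_idealOf, map_sub, evalVec_comb h, sub_self]
  · rw [mem_idealOf, evalVec_comb h] at hc
    exact hc

/-- the unique coordinates with respect to the basis -/
lemma HasBasis.unique {J : Ideal (MvPolynomial (Fin 3) R)} (hJ : HasBasis b J)
    {f : MvPolynomial (Fin 3) R} {c c' : Fin d → R} (h : f - comb b c ∈ J)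
    (h' : f - comb b c' ∈ J) : c = c' := by
  have : comb b (c - c') ∈ J := by
    have e : comb b (c - c') = (f - comb b c') - (f - comb b c) := by
      rw [show c - c' = c + (-1 : R) • c' by ext; simp [sub_eq_add_neg], comb_add, comb_smul]
      simp only [neg_smul, one_smul]
      ring
    rw [e]
    exact J.sub_mem h' h
  exact sub_eq_zero.mp (hJ.2 _ this)

/-- coordinate function of a family with basis `b` -/
noncomputable def HasBasis.coord {J : Ideal (MvPolynomial (Fin 3) R)} (hJ : HasBasis b J)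
    (f : MvPolynomial (Fin 3) R) : Fin d → R := (hJ.1 f).choose

lemma HasBasis.coord_spec {J : Ideal (MvPolynomial (Fin 3) R)} (hJ : HasBasis b J)
    (f : MvPolynomial (Fin 3) R) : f - comb b (hJ.coord f) ∈ J := (hJ.1 f).choose_spec

lemma HasBasis.coord_eq {J : Ideal (MvPolynomial (Fin 3) R)} (hJ : HasBasis b J)
    {f : MvPolynomial (Fin 3) R} {c : Fin d → R} (h : f - comb b c ∈ J) : hJ.coord f = c :=
  hJ.unique (hJ.coord_spec f) h

lemma HasBasis.coord_comb {J : Ideal (MvPolynomial (Fin 3) R)} (hJ : HasBasis b J)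
    (c : Fin d → R) : hJ.coord (comb b c) = c :=
  hJ.coord_eq (by simp)

lemma HasBasis.coord_congr {J : Ideal (MvPolynomial (Fin 3) R)} (hJ : HasBasis b J)
    {f g : MvPolynomial (Fin 3) R} (h : f - g ∈ J) : hJ.coord f = hJ.coord g := by
  refine hJ.coord_eq ?_
  have := J.add_mem h (hJ.coord_spec g)
  simpa using this

lemma HasBasis.coord_add {J : Ideal (MvPolynomial (Fin 3) R)} (hJ : HasBasis b J)
    (f g : MvPolynomial (Fin 3) R) : hJ.coord (f + g) = hJ.coord f + hJ.coord g := by
  refine hJ.coord_eq ?_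
  rw [comb_add]
  have := J.add_mem (hJ.coord_spec f) (hJ.coord_spec g)
  convert this using 1
  ring

lemma HasBasis.coord_smul {J : Ideal (MvPolynomial (Fin 3) R)} (hJ : HasBasis b J)
    (r : R) (f : MvPolynomial (Fin 3) R) : hJ.coord (r • f) = r • hJ.coord f := by
  refine hJ.coord_eq ?_
  rw [comb_smul, ← smul_sub]
  exact J.smul_of_tower_mem r (hJ.coord_spec f)

/-- the matrix of multiplication by `x_a` -/
noncomputable def HasBasis.mat {J : Ideal (MvPolynomial (Fin 3) R)} (hJ : HasBasis b J)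
    (a : Fin 3) : Matrix (Fin d) (Fin d) R :=
  Matrix.of fun i j => hJ.coord (X a * monomial (b j) 1) i

lemma HasBasis.mat_mulVec_coord {J : Ideal (MvPolynomial (Fin 3) R)} (hJ : HasBasis b J)
    (a : Fin 3) (f : MvPolynomial (Fin 3) R) :
    (hJ.mat a).mulVec (hJ.coord f) = hJ.coord (X a * f) := by
  classical
  have h1 : hJ.coord (X a * f) = hJ.coord (X a * comb b (hJ.coord f)) := by
    apply hJ.coord_congr
    rw [← mul_sub]
    exact J.mul_mem_left _ (hJ.coord_spec f)
  rw [h1]
  set c := hJ.coord f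
  have h2 : ∀ s : Finset (Fin d), hJ.coord (X a * ∑ i ∈ s, monomial (b i) (c i)) =
      ∑ i ∈ s, c i • hJ.coord (X a * monomial (b i) 1) := by
    intro s
    induction s using Finset.induction_on with
    | empty =>
      simp only [Finset.sum_empty, mul_zero]
      exact hJ.coord_eq (by simp [comb])
    | insert i s hi ih =>
      rw [Finset.sum_insert hi, mul_add, hJ.coord_add, ih, Finset.sum_insert hi,
        ← hJ.coord_smul]
      congr 2
      rw [← mul_smul_comm, MvPolynomial.smul_monomial, smul_eq_mul, mul_one]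
  rw [comb, h2]
  ext i
  simp [Matrix.mulVec, dotProduct, HasBasis.mat, Finset.sum_apply, mul_comm]

lemma HasBasis.comm_mat {J : Ideal (MvPolynomial (Fin 3) R)} (hJ : HasBasis b J) :
    PComm hJ.mat := by
  intro a a'
  have key : ∀ c : Fin d → R, (hJ.mat a * hJ.mat a').mulVec c = (hJ.mat a' * hJ.mat a).mulVec c := by
    intro c
    rw [← mulVec_mulVec, ← mulVec_mulVec]
    rw [← hJ.coord_comb c, hJ.mat_mulVec_coord, hJ.mat_mulVec_coord, hJ.mat_mulVec_coord,
      hJ.mat_mulVec_coord]
    congr 1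
    ring
  exact Matrix.ext_of_mulVec_single fun i => key _

lemma HasBasis.ordMon_mulVec {J : Ideal (MvPolynomial (Fin 3) R)} (hJ : HasBasis b J)
    (α : Fin 3 →₀ ℕ) (f : MvPolynomial (Fin 3) R) :
    (ordMon hJ.mat α).mulVec (hJ.coord f) = hJ.coord (monomial α 1 * f) := by
  have hp : ∀ (a : Fin 3) (n : ℕ) (f : MvPolynomial (Fin 3) R),
      (hJ.mat a ^ n).mulVec (hJ.coord f) = hJ.coord (X a ^ n * f) := by
    intro a n
    induction n with
    | zero => intro f; simp
    | succ n ih =>
      intro f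
      rw [pow_succ', ← mulVec_mulVec, ih, hJ.mat_mulVec_coord]
      congr 1
      ring
  rw [ordMon, ← mulVec_mulVec, ← mulVec_mulVec, hp, hp, hp]
  congr 1
  have : (monomial α 1 : MvPolynomial (Fin 3) R) = X 0 ^ α 0 * X 1 ^ α 1 * X 2 ^ α 2 := by
    rw [MvPolynomial.monomial_eq, Finsupp.prod_fintype _ _ (by simp)]
    simp [Fin.prod_univ_three]
  rw [this]
  ring

lemma HasBasis.isChartPt {J : Ideal (MvPolynomial (Fin 3) R)} (hJ : HasBasis b J)
    (hi₀ : b i₀ = 0) : IsChartPt b i₀ hJ.mat where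
  comm := hJ.comm_mat
  norm := by
    intro i
    have h0 : (Pi.single i₀ 1 : Fin d → R) = hJ.coord 1 := by
      rw [show (1 : MvPolynomial (Fin 3) R) = comb b (Pi.single i₀ 1) by
        rw [comb_single, hi₀]; rfl, hJ.coord_comb]
    rw [h0, hJ.ordMon_mulVec, mul_one, ← comb_single, hJ.coord_comb]

lemma HasBasis.idealOf_mat {J : Ideal (MvPolynomial (Fin 3) R)} (hJ : HasBasis b J)
    (hi₀ : b i₀ = 0) : idealOf i₀ hJ.mat hJ.comm_mat = J := by
  have h0 : (Pi.single i₀ 1 : Fin d → R) = hJ.coord 1 := by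
    rw [show (1 : MvPolynomial (Fin 3) R) = comb b (Pi.single i₀ 1) by
      rw [comb_single, hi₀]; rfl, hJ.coord_comb]
  have hev : ∀ f : MvPolynomial (Fin 3) R, evalVec i₀ hJ.mat hJ.comm_mat f = hJ.coord f := by
    intro f
    induction f using MvPolynomial.induction_on' with
    | monomial α r =>
      rw [evalVec_apply, evalMat_monomial, smul_mulVec, h0, hJ.ordMon_mulVec, mul_one,
        ← hJ.coord_smul, MvPolynomial.smul_monomial, smul_eq_mul, mul_one]
    | add p q hp hq => rw [map_add, hp, hq, hJ.coord_add]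
  ext f
  rw [mem_idealOf, hev]
  constructor
  · intro h
    have := hJ.coord_spec f
    rw [h] at this
    simpa [comb] using this
  · intro h
    exact hJ.coord_eq (by simpa [comb] using h)

lemma idealOf_injective {T T' : Fin 3 → Matrix (Fin d) (Fin d) R} (h : IsChartPt b i₀ T)
    (h' : IsChartPt b i₀ T') (e : idealOf i₀ T h.comm = idealOf i₀ T' h'.comm) : T = T' := by
  have key : ∀ (S : Fin 3 → Matrix (Fin d) (Fin d) R) (hS : IsChartPt b i₀ S) (a : Fin 3)
      (j : Fin d), X a * monomial (b j) 1 - comb b (fun i => S a i j) ∈ idealOf i₀ S hS.comm := by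
    intro S hS a j
    rw [mem_idealOf, map_sub, evalVec_comb hS, evalVec_mul, evalVec_basis hS, evalMat_X]
    ext i
    simp
  funext a
  ext i j
  have h1 := key T h a j
  have h2 := key T' h' a j
  rw [← e] at h2
  exact congr_fun ((hasBasis_idealOf h).unique h1 h2) i

lemma IsChartPt.map {R' : Type u} [CommRing R'] (φ : R →+* R')
    {T : Fin 3 → Matrix (Fin d) (Fin d) R} (h : IsChartPt b i₀ T) :
    IsChartPt b i₀ (fun a => (T a).map φ) where
  comm := h.comm.map φ
  norm := by
    intro i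
    rw [ordMon_map]
    have h1 := h.norm i
    ext j
    have h2 := congr_fun h1 j
    simp only [mulVec_single_one, col_apply] at h2 ⊢
    rw [Matrix.map_apply, h2]
    by_cases hij : j = i
    · subst hij; simp
    · simp [Pi.single_eq_of_ne hij]

/-- Functoriality: the ideal of the pushed-forward chart point is the base change. -/
lemma baseChange_idealOf {R' : Type u} [CommRing R'] (φ : R →+* R')
    {T : Fin 3 → Matrix (Fin d) (Fin d) R} (h : IsChartPt b i₀ T) :
    baseChange φ (idealOf i₀ T h.comm) =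
      idealOf i₀ (fun a => (T a).map φ) (h.comm.map φ) := by
  have hle : baseChange φ (idealOf i₀ T h.comm) ≤
      idealOf i₀ (fun a => (T a).map φ) (h.comm.map φ) := by
    rw [baseChange, Ideal.map_le_iff_le_comap]
    intro f hf
    rw [Ideal.mem_comap, mem_idealOf, evalVec_apply, evalMat_map φ T h.comm]
    rw [mem_idealOf, evalVec_apply] at hf
    ext j
    have := congr_fun hf j
    simp only [mulVec_single_one, col_apply, Pi.zero_apply] at this ⊢
    rw [Matrix.map_apply, this, map_zero]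
  refine le_antisymm hle ?_
  intro g hg
  -- every polynomial is congruent to a combination of the basis modulo the base change
  have key : ∀ g : MvPolynomial (Fin 3) R', ∃ c : Fin d → R',
      g - comb b c ∈ baseChange φ (idealOf i₀ T h.comm) := by
    intro g
    induction g using MvPolynomial.induction_on' with
    | monomial α r =>
      obtain ⟨c, hc⟩ := (hasBasis_idealOf h).1 (monomial α 1)
      refine ⟨r • (fun i => φ (c i)), ?_⟩
      have := Ideal.mem_map_of_mem (MvPolynomial.map φ) hc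
      rw [map_sub, MvPolynomial.map_monomial, map_one, map_comb] at this
      rw [comb_smul, show (monomial α r : MvPolynomial (Fin 3) R') = r • monomial α 1 by
        rw [MvPolynomial.smul_monomial, smul_eq_mul, mul_one], ← smul_sub]
      exact (baseChange φ (idealOf i₀ T h.comm)).smul_of_tower_mem r this
    | add p q hp hq =>
      obtain ⟨c, hc⟩ := hp
      obtain ⟨c', hc'⟩ := hq
      refine ⟨c + c', ?_⟩
      rw [comb_add]
      have := Ideal.add_mem _ hc hc'
      convert this using 1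
      ring
  obtain ⟨c, hc⟩ := key g
  have h1 := hle hc
  have h2 : comb b c ∈ idealOf i₀ (fun a => (T a).map φ) (h.comm.map φ) := by
    have := Ideal.sub_mem _ hg h1
    simpa using this
  have h3 : c = 0 := (hasBasis_idealOf (h.map φ)).2 c h2
  rw [h3] at hc
  simpa [comb] using hc

end ChartPoint

end Pool.Agent.Lib.MP_3c1e96_ag
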