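import Pool.Agent.Lib.MP_3c1e96_ag.BorderConv
import Pool.Agent.Lib.MP_3c1e96_ag.Trunc

/-!
Expansion of the neighbour conditions over `k[ε]/(ε³)` by powers of `ε`.
-/

namespace Pool.Agent.Lib.MP_3c1e96_ag

universe u

section

variable {R : Type u} [CommRing R]

def bix (r : Fin 13 → Fin 13 → R) (v : Fin 13 → R) (i : Fin 13) : R :=
  v 4 * r 0 i + v 7 * r 1 i + v 9 * r 2 i + v 10 * r 7 i + v 11 * r 8 i + v 12 * r 9 i

def biy (r : Fin 13 → Fin 13 → R) (v : Fin 13 → R) (i : Fin 13) : R :=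
  v 6 * r 3 i + v 8 * r 4 i + v 9 * r 5 i + v 10 * r 8 i + v 11 * r 10 i + v 12 * r 11 i

def biz (r : Fin 13 → Fin 13 → R) (v : Fin 13 → R) (i : Fin 13) : R :=
  v 4 * r 1 i + v 6 * r 4 i + v 7 * r 2 i + v 8 * r 5 i + v 9 * r 6 i + v 10 * r 9 i +
    v 11 * r 11 i + v 12 * r 12 i

def shx (v : Fin 13 → R) : Fin 13 → R := ![0, v 0, 0, 0, v 1, v 2, 0, v 3, 0, 0, v 5, v 6, v 8]

def shy (v : Fin 13 → R) : Fin 13 → R := ![0, 0, v 0, 0, 0, v 1, v 2, 0, v 3, 0, v 4, v 5, v 7]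

def shz (v : Fin 13 → R) : Fin 13 → R := ![0, 0, 0, v 0, 0, 0, 0, v 1, v 2, v 3, 0, 0, v 5]

lemma actx_apply (r : Fin 13 → Fin 13 → R) (v : Fin 13 → R) (i : Fin 13) :
    actx r v i = bix r v i + shx v i := rfl

lemma acty_apply (r : Fin 13 → Fin 13 → R) (v : Fin 13 → R) (i : Fin 13) :
    acty r v i = biy r v i + shy v i := rfl

lemma actz_apply (r : Fin 13 → Fin 13 → R) (v : Fin 13 → R) (i : Fin 13) :
    actz r v i = biz r v i + shz v i := rfl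

/-- the base point: `z³ = xyz`, all other border monomials are zero -/
def R0 : Fin 13 → Fin 13 → R := fun μ i => if μ = 6 ∧ i = 12 then 1 else 0

lemma R0_of_ne {μ : Fin 13} (h : μ ≠ 6) : (R0 μ : Fin 13 → R) = 0 := by
  funext i; simp [R0, h]

lemma R0_six : (R0 6 : Fin 13 → R) = Pi.single 12 1 := by
  funext i; simp [R0, Pi.single_apply]

lemma bix_R0 (v : Fin 13 → R) (i : Fin 13) : bix R0 v i = 0 := by
  simp [bix, R0]

lemma biy_R0 (v : Fin 13 → R) (i : Fin 13) : biy R0 v i = 0 := by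
  simp [biy, R0]

lemma biz_R0 (v : Fin 13 → R) (i : Fin 13) : biz R0 v i = if i = 12 then v 9 else 0 := by
  simp [biz, R0]

lemma bix_zero (r : Fin 13 → Fin 13 → R) (i : Fin 13) : bix r 0 i = 0 := by simp [bix]
lemma biy_zero (r : Fin 13 → Fin 13 → R) (i : Fin 13) : biy r 0 i = 0 := by simp [biy]
lemma biz_zero (r : Fin 13 → Fin 13 → R) (i : Fin 13) : biz r 0 i = 0 := by simp [biz]

lemma bix_single (r : Fin 13 → Fin 13 → R) (i : Fin 13) :
    bix r (Pi.single 12 1) i = r 9 i := by simp [bix]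
lemma biy_single (r : Fin 13 → Fin 13 → R) (i : Fin 13) :
    biy r (Pi.single 12 1) i = r 11 i := by simp [biy]
lemma biz_single (r : Fin 13 → Fin 13 → R) (i : Fin 13) :
    biz r (Pi.single 12 1) i = r 12 i := by simp [biz]

/-- first order part of `x · r_μ` at the base point -/
def o1x (r : Fin 13 → Fin 13 → R) (μ : Fin 13) (i : Fin 13) : R :=
  (if μ = 6 then r 9 i else 0) + shx (r μ) i

def o1y (r : Fin 13 → Fin 13 → R) (μ : Fin 13) (i : Fin 13) : R :=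
  (if μ = 6 then r 11 i else 0) + shy (r μ) i

def o1z (r : Fin 13 → Fin 13 → R) (μ : Fin 13) (i : Fin 13) : R :=
  (if μ = 6 then r 12 i else 0) + (if i = 12 then r μ 9 else 0) + shz (r μ) i

end

section

variable {k : Type u} [Field k]

/-- the element `a + b ε + c ε²` -/
noncomputable def mk3 (a b c : k) : E3 k :=
  algebraMap k _ a + algebraMap k _ b * eps + algebraMap k _ c * (eps * eps)

lemma c0_mk3 (a b c : k) : c0 (mk3 a b c) = a := by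
  simp only [mk3, map_add, c0_mul, c0_algebraMap, c0_eps]; ring

lemma c1_mk3 (a b c : k) : c1 (mk3 a b c) = b := by
  simp only [mk3, map_add, c0_mul, c1_mul, c0_algebraMap, c0_eps, c1_algebraMap, c1_eps]; ring

lemma c2_mk3 (a b c : k) : c2 (mk3 a b c) = c := by
  simp only [mk3, map_add, c0_mul, c1_mul, c2_mul, c0_algebraMap, c0_eps, c1_algebraMap, c1_eps,
    c2_algebraMap, c2_eps]; ring

variable (r₁ r₂ : Fin 13 → Fin 13 → k)

/-- border vectors over `k[ε]/(ε³)` with base point `R0` -/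
noncomputable def arcR (μ i : Fin 13) : E3 k := mk3 (R0 μ i) (r₁ μ i) (r₂ μ i)

lemma c_shx (n : ℕ) (hn : n < 3) (v : Fin 13 → E3 k) (i : Fin 13) :
    cf n hn (shx v i) = shx (fun j => cf n hn (v j)) i := by
  fin_cases i <;> simp [shx]

lemma c_shy (n : ℕ) (hn : n < 3) (v : Fin 13 → E3 k) (i : Fin 13) :
    cf n hn (shy v i) = shy (fun j => cf n hn (v j)) i := by
  fin_cases i <;> simp [shy]

lemma c_shz (n : ℕ) (hn : n < 3) (v : Fin 13 → E3 k) (i : Fin 13) :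
    cf n hn (shz v i) = shz (fun j => cf n hn (v j)) i := by
  fin_cases i <;> simp [shz]

lemma c0_actx (μ i : Fin 13) : c0 (actx (arcR r₁ r₂) (arcR r₁ r₂ μ) i) =
    bix R0 (R0 μ) i + shx (R0 μ) i := by
  rw [actx_apply, map_add, c_shx]
  congr 1
  · simp only [bix, arcR, map_add, c0_mul, c0_mk3]
  · simp only [arcR, c0_mk3]

lemma c0_acty (μ i : Fin 13) : c0 (acty (arcR r₁ r₂) (arcR r₁ r₂ μ) i) =
    biy R0 (R0 μ) i + shy (R0 μ) i := by
  rw [acty_apply, map_add, c_shy]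
  congr 1
  · simp only [biy, arcR, map_add, c0_mul, c0_mk3]
  · simp only [arcR, c0_mk3]

lemma c0_actz (μ i : Fin 13) : c0 (actz (arcR r₁ r₂) (arcR r₁ r₂ μ) i) =
    biz R0 (R0 μ) i + shz (R0 μ) i := by
  rw [actz_apply, map_add, c_shz]
  congr 1
  · simp only [biz, arcR, map_add, c0_mul, c0_mk3]
  · simp only [arcR, c0_mk3]

lemma c1_actx' (μ i : Fin 13) : c1 (actx (arcR r₁ r₂) (arcR r₁ r₂ μ) i) =
    bix R0 (r₁ μ) i + bix r₁ (R0 μ) i + shx (r₁ μ) i := by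
  rw [actx_apply, map_add, c_shx]
  congr 1
  · simp only [bix, arcR, map_add, c1_mul, c0_mk3, c1_mk3]; ring
  · simp only [arcR, c1_mk3]

lemma c1_acty' (μ i : Fin 13) : c1 (acty (arcR r₁ r₂) (arcR r₁ r₂ μ) i) =
    biy R0 (r₁ μ) i + biy r₁ (R0 μ) i + shy (r₁ μ) i := by
  rw [acty_apply, map_add, c_shy]
  congr 1
  · simp only [biy, arcR, map_add, c1_mul, c0_mk3, c1_mk3]; ring
  · simp only [arcR, c1_mk3]

lemma c1_actz' (μ i : Fin 13) : c1 (actz (arcR r₁ r₂) (arcR r₁ r₂ μ) i) =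
    biz R0 (r₁ μ) i + biz r₁ (R0 μ) i + shz (r₁ μ) i := by
  rw [actz_apply, map_add, c_shz]
  congr 1
  · simp only [biz, arcR, map_add, c1_mul, c0_mk3, c1_mk3]; ring
  · simp only [arcR, c1_mk3]

lemma c2_actx' (μ i : Fin 13) : c2 (actx (arcR r₁ r₂) (arcR r₁ r₂ μ) i) =
    bix r₁ (r₁ μ) i + (bix R0 (r₂ μ) i + bix r₂ (R0 μ) i + shx (r₂ μ) i) := by
  rw [actx_apply, map_add, c_shx]
  have h1 : c2 (bix (arcR r₁ r₂) (arcR r₁ r₂ μ) i) =
      bix r₁ (r₁ μ) i + (bix R0 (r₂ μ) i + bix r₂ (R0 μ) i) := by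
    simp only [bix, arcR, map_add, c2_mul, c0_mk3, c1_mk3, c2_mk3]; ring
  have h2 : (fun j => c2 (arcR r₁ r₂ μ j)) = r₂ μ := by
    funext j; simp only [arcR, c2_mk3]
  rw [h1, h2]; ring

lemma c2_acty' (μ i : Fin 13) : c2 (acty (arcR r₁ r₂) (arcR r₁ r₂ μ) i) =
    biy r₁ (r₁ μ) i + (biy R0 (r₂ μ) i + biy r₂ (R0 μ) i + shy (r₂ μ) i) := by
  rw [acty_apply, map_add, c_shy]
  have h1 : c2 (biy (arcR r₁ r₂) (arcR r₁ r₂ μ) i) =
      biy r₁ (r₁ μ) i + (biy R0 (r₂ μ) i + biy r₂ (R0 μ) i) := by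
    simp only [biy, arcR, map_add, c2_mul, c0_mk3, c1_mk3, c2_mk3]; ring
  have h2 : (fun j => c2 (arcR r₁ r₂ μ j)) = r₂ μ := by
    funext j; simp only [arcR, c2_mk3]
  rw [h1, h2]; ring

lemma c2_actz' (μ i : Fin 13) : c2 (actz (arcR r₁ r₂) (arcR r₁ r₂ μ) i) =
    biz r₁ (r₁ μ) i + (biz R0 (r₂ μ) i + biz r₂ (R0 μ) i + shz (r₂ μ) i) := by
  rw [actz_apply, map_add, c_shz]
  have h1 : c2 (biz (arcR r₁ r₂) (arcR r₁ r₂ μ) i) =
      biz r₁ (r₁ μ) i + (biz R0 (r₂ μ) i + biz r₂ (R0 μ) i) := by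
    simp only [biz, arcR, map_add, c2_mul, c0_mk3, c1_mk3, c2_mk3]; ring
  have h2 : (fun j => c2 (arcR r₁ r₂ μ j)) = r₂ μ := by
    funext j; simp only [arcR, c2_mk3]
  rw [h1, h2]; ring

lemma o1x_eq (r : Fin 13 → Fin 13 → k) (μ i : Fin 13) :
    bix R0 (r μ) i + bix r (R0 μ) i + shx (r μ) i = o1x r μ i := by
  rw [o1x, bix_R0, zero_add]
  by_cases h : μ = 6
  · subst h; rw [R0_six, bix_single, if_pos rfl]
  · rw [R0_of_ne h, bix_zero, if_neg h]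

lemma o1y_eq (r : Fin 13 → Fin 13 → k) (μ i : Fin 13) :
    biy R0 (r μ) i + biy r (R0 μ) i + shy (r μ) i = o1y r μ i := by
  rw [o1y, biy_R0, zero_add]
  by_cases h : μ = 6
  · subst h; rw [R0_six, biy_single, if_pos rfl]
  · rw [R0_of_ne h, biy_zero, if_neg h]

lemma o1z_eq (r : Fin 13 → Fin 13 → k) (μ i : Fin 13) :
    biz R0 (r μ) i + biz r (R0 μ) i + shz (r μ) i = o1z r μ i := by
  rw [o1z, biz_R0]
  by_cases h : μ = 6
  · subst h; rw [R0_six, biz_single, if_pos rfl]; ring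
  · rw [R0_of_ne h, biz_zero, if_neg h]; ring

lemma c1_actx (μ i : Fin 13) : c1 (actx (arcR r₁ r₂) (arcR r₁ r₂ μ) i) = o1x r₁ μ i := by
  rw [c1_actx', o1x_eq]
lemma c1_acty (μ i : Fin 13) : c1 (acty (arcR r₁ r₂) (arcR r₁ r₂ μ) i) = o1y r₁ μ i := by
  rw [c1_acty', o1y_eq]
lemma c1_actz (μ i : Fin 13) : c1 (actz (arcR r₁ r₂) (arcR r₁ r₂ μ) i) = o1z r₁ μ i := by
  rw [c1_actz', o1z_eq]
lemma c2_actx (μ i : Fin 13) : c2 (actx (arcR r₁ r₂) (arcR r₁ r₂ μ) i) =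
    bix r₁ (r₁ μ) i + o1x r₂ μ i := by
  rw [c2_actx', o1x_eq]
lemma c2_acty (μ i : Fin 13) : c2 (acty (arcR r₁ r₂) (arcR r₁ r₂ μ) i) =
    biy r₁ (r₁ μ) i + o1y r₂ μ i := by
  rw [c2_acty', o1y_eq]
lemma c2_actz (μ i : Fin 13) : c2 (actz (arcR r₁ r₂) (arcR r₁ r₂ μ) i) =
    biz r₁ (r₁ μ) i + o1z r₂ μ i := by
  rw [c2_actz', o1z_eq]

end

end Pool.Agent.Lib.MP_3c1e96_ag
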