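import Pool.Agent.Lib.MP_3c1e96_ag.SmoothData

/-!
The fibres of the smoothing family over `t ≠ 0` are radical ideals.
-/

set_option linter.unusedSimpArgs false

namespace Pool.Agent.Lib.MP_3c1e96_ag

universe u

open Matrix

section

variable {R : Type u} [CommRing R]

/-- values of the basis monomials at a point -/
def evb (P : Fin 3 → R) : Fin 13 → R :=
  ![1, P 0, P 1, P 2, P 0 ^ 2, P 0 * P 1, P 1 ^ 2, P 0 * P 2, P 1 * P 2, P 2 ^ 2,
    P 0 ^ 2 * P 1, P 0 * P 1 ^ 2, P 0 * P 1 * P 2]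

/-- values of the border monomials at a point -/
def evd (P : Fin 3 → R) : Fin 13 → R :=
  ![P 0 ^ 3, P 0 ^ 2 * P 2, P 0 * P 2 ^ 2, P 1 ^ 3, P 1 ^ 2 * P 2, P 1 * P 2 ^ 2, P 2 ^ 3,
    P 0 ^ 3 * P 1, P 0 ^ 2 * P 1 ^ 2, P 0 ^ 2 * P 1 * P 2, P 0 * P 1 ^ 3, P 0 * P 1 ^ 2 * P 2,
    P 0 * P 1 * P 2 ^ 2]

lemma evb_mul (P : Fin 3 → R) (a : Fin 3) (j : Fin 13) :
    P a * evb P j = Sum.elim (evb P) (evd P) (nxt a j) := by
  fin_cases a <;> fin_cases j <;> simp [evb, evd, nxt] <;> ring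

/-- the point `P` satisfies the border relations -/
def OnPoint (r : Fin 13 → Fin 13 → R) (P : Fin 3 → R) : Prop :=
  ∀ μ, evb P ⬝ᵥ r μ = evd P μ

lemma OnPoint.dot_mulVec {r : Fin 13 → Fin 13 → R} {P : Fin 3 → R} (h : OnPoint r P) (a : Fin 3)
    (v : Fin 13 → R) : evb P ⬝ᵥ (matOf r a).mulVec v = P a * (evb P ⬝ᵥ v) := by
  have h1 : vecMul (evb P) (matOf r a) = P a • evb P := by
    funext j
    rw [Pi.smul_apply, smul_eq_mul, evb_mul]
    change evb P ⬝ᵥ (fun i => matOf r a i j) = _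
    change evb P ⬝ᵥ (colOf r a j) = _
    rw [colOf]
    cases nxt a j with
    | inl j' => simp
    | inr μ => exact h μ
  rw [dotProduct_mulVec, h1, smul_dotProduct, smul_eq_mul]

lemma OnPoint.dot_evalMat {r : Fin 13 → Fin 13 → R} {P : Fin 3 → R} (h : OnPoint r P)
    (hT : PComm (matOf r)) (f : MvPolynomial (Fin 3) R) (v : Fin 13 → R) :
    evb P ⬝ᵥ (evalMat (matOf r) hT f).mulVec v = MvPolynomial.eval P f * (evb P ⬝ᵥ v) := by
  induction f using MvPolynomial.induction_on generalizing v with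
  | C c =>
    rw [MvPolynomial.eval_C, ← MvPolynomial.algebraMap_eq, AlgHom.commutes,
      Algebra.algebraMap_eq_smul_one, smul_mulVec, one_mulVec, dotProduct_smul, smul_eq_mul]
  | add p q hp hq => rw [map_add, map_add, add_mulVec, dotProduct_add, hp, hq]; ring
  | mul_X p a hp =>
    rw [map_mul, map_mul, evalMat_X, MvPolynomial.eval_X, ← mulVec_mulVec, hp, h.dot_mulVec]
    ring

lemma OnPoint.dot_evalVec {r : Fin 13 → Fin 13 → R} {P : Fin 3 → R} (h : OnPoint r P)
    (hT : PComm (matOf r)) (f : MvPolynomial (Fin 3) R) :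
    evb P ⬝ᵥ evalVec 0 (matOf r) hT f = MvPolynomial.eval P f := by
  rw [evalVec_apply, h.dot_evalMat hT]
  have : evb P ⬝ᵥ (Pi.single 0 1 : Fin 13 → R) = 1 := by
    rw [dotProduct_single, mul_one]
    rfl
  rw [this, mul_one]

end

section

variable {k : Type u} [Field k]

/-- border vectors vanishing at 13 distinct points define a radical ideal -/
theorem isRadical_idealOf {r : Fin 13 → Fin 13 → k} (hT : PComm (matOf r))
    {P : Fin 13 → Fin 3 → k} (hP : ∀ l, OnPoint r (P l)) (hinj : Function.Injective P) :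
    (idealOf 0 (matOf r) hT).IsRadical := by
  -- the matrix of values of the basis monomials is invertible
  let M : Matrix (Fin 13) (Fin 13) k := Matrix.of fun l i => evb (P l) i
  have hli : LinearIndependent k (fun l : Fin 13 =>
      (((MvPolynomial.eval (P l) : MvPolynomial (Fin 3) k →+* k) :
        MvPolynomial (Fin 3) k →* k) : MvPolynomial (Fin 3) k → k)) := by
    have h1 := linearIndependent_monoidHom (MvPolynomial (Fin 3) k) k
    refine h1.comp (fun l => ((MvPolynomial.eval (P l) : MvPolynomial (Fin 3) k →+* k) :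
        MvPolynomial (Fin 3) k →* k)) ?_
    intro l l' h
    apply hinj
    funext a
    have h2 := DFunLike.congr_fun h (MvPolynomial.X a)
    simpa using h2
  have hM : IsUnit M := by
    rw [← Matrix.linearIndependent_rows_iff_isUnit, Fintype.linearIndependent_iff]
    intro g hg
    rw [Fintype.linearIndependent_iff] at hli
    apply hli g
    funext f
    have h3 : ∀ l, MvPolynomial.eval (P l) f = evb (P l) ⬝ᵥ evalVec 0 (matOf r) hT f :=
      fun l => ((hP l).dot_evalVec hT f).symm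
    have h4 : (∑ l, g l • M.row l) ⬝ᵥ evalVec 0 (matOf r) hT f = 0 := by
      rw [hg, zero_dotProduct]
    rw [sum_dotProduct] at h4
    rw [Finset.sum_apply, Pi.zero_apply, ← h4]
    refine Finset.sum_congr rfl fun l _ => ?_
    rw [smul_dotProduct, Pi.smul_apply]
    congr 1
    exact h3 l
  have key : ∀ f : MvPolynomial (Fin 3) k, f ∈ idealOf 0 (matOf r) hT ↔
      ∀ l, MvPolynomial.eval (P l) f = 0 := by
    intro f
    rw [mem_idealOf]
    constructor
    · intro h l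
      rw [← (hP l).dot_evalVec hT f, h, dotProduct_zero]
    · intro h
      have h5 : M.mulVec (evalVec 0 (matOf r) hT f) = 0 := by
        funext l
        change evb (P l) ⬝ᵥ evalVec 0 (matOf r) hT f = 0
        rw [(hP l).dot_evalVec hT f, h l]
      have h6 := Matrix.mulVec_injective_of_isUnit hM
      exact h6 (h5.trans (mulVec_zero M).symm)
  intro f hf
  rw [key]
  obtain ⟨n, hn⟩ := hf
  intro l
  have := (key _).mp hn l
  rw [map_pow] at this
  by_contra h
  exact pow_ne_zero n h this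

end

section

variable {R : Type u} [CommRing R]

/-- the 13 points of the smoothing family -/
def smPt (c t : R) : Fin 13 → Fin 3 → R :=
  ![![0, 0, t], ![0, 0, -c * t], ![t, 0, 0], ![0, c * t, 0], ![t, c * t, 0],
    ![0, 0, (1 + c) * t], ![0, c * t, (1 + c) * t], ![0, t, (1 + c) * t],
    ![t, 0, (1 + c) * t], ![t, c * t, (1 + c) * t], ![t, t, (1 + c) * t],
    ![c * t, 0, (1 + c) * t], ![c * t, c * t, (1 + c) * t]]

lemma onPoint_0 (c t : R) : OnPoint (sm c t) (smPt c t 0) := by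
  intro μ
  rw [dotProduct]
  fin_cases μ <;> simp [Fin.sum_univ_succ, evb, evd, smPt, sm_0, smr0, sm_1, smr1, sm_2, smr2,
    sm_3, smr3, sm_4, smr4, sm_5, smr5, sm_6, smr6, sm_7, smr7, sm_8, smr8, sm_9, smr9, sm_10,
    smr10, sm_11, smr11, sm_12, smr12] <;> ring

lemma onPoint_1 (c t : R) : OnPoint (sm c t) (smPt c t 1) := by
  intro μ
  rw [dotProduct]
  fin_cases μ <;> simp [Fin.sum_univ_succ, evb, evd, smPt, sm_0, smr0, sm_1, smr1, sm_2, smr2,
    sm_3, smr3, sm_4, smr4, sm_5, smr5, sm_6, smr6, sm_7, smr7, sm_8, smr8, sm_9, smr9, sm_10,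
    smr10, sm_11, smr11, sm_12, smr12] <;> ring

lemma onPoint_2 (c t : R) : OnPoint (sm c t) (smPt c t 2) := by
  intro μ
  rw [dotProduct]
  fin_cases μ <;> simp [Fin.sum_univ_succ, evb, evd, smPt, sm_0, smr0, sm_1, smr1, sm_2, smr2,
    sm_3, smr3, sm_4, smr4, sm_5, smr5, sm_6, smr6, sm_7, smr7, sm_8, smr8, sm_9, smr9, sm_10,
    smr10, sm_11, smr11, sm_12, smr12] <;> ring

lemma onPoint_3 (c t : R) : OnPoint (sm c t) (smPt c t 3) := by
  intro μ
  rw [dotProduct]
  fin_cases μ <;> simp [Fin.sum_univ_succ, evb, evd, smPt, sm_0, smr0, sm_1, smr1, sm_2, smr2,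
    sm_3, smr3, sm_4, smr4, sm_5, smr5, sm_6, smr6, sm_7, smr7, sm_8, smr8, sm_9, smr9, sm_10,
    smr10, sm_11, smr11, sm_12, smr12] <;> ring

lemma onPoint_4 (c t : R) : OnPoint (sm c t) (smPt c t 4) := by
  intro μ
  rw [dotProduct]
  fin_cases μ <;> simp [Fin.sum_univ_succ, evb, evd, smPt, sm_0, smr0, sm_1, smr1, sm_2, smr2,
    sm_3, smr3, sm_4, smr4, sm_5, smr5, sm_6, smr6, sm_7, smr7, sm_8, smr8, sm_9, smr9, sm_10,
    smr10, sm_11, smr11, sm_12, smr12] <;> ring

lemma onPoint_5 (c t : R) : OnPoint (sm c t) (smPt c t 5) := by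
  intro μ
  rw [dotProduct]
  fin_cases μ <;> simp [Fin.sum_univ_succ, evb, evd, smPt, sm_0, smr0, sm_1, smr1, sm_2, smr2,
    sm_3, smr3, sm_4, smr4, sm_5, smr5, sm_6, smr6, sm_7, smr7, sm_8, smr8, sm_9, smr9, sm_10,
    smr10, sm_11, smr11, sm_12, smr12] <;> ring

lemma onPoint_6 (c t : R) : OnPoint (sm c t) (smPt c t 6) := by
  intro μ
  rw [dotProduct]
  fin_cases μ <;> simp [Fin.sum_univ_succ, evb, evd, smPt, sm_0, smr0, sm_1, smr1, sm_2, smr2,
    sm_3, smr3, sm_4, smr4, sm_5, smr5, sm_6, smr6, sm_7, smr7, sm_8, smr8, sm_9, smr9, sm_10,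
    smr10, sm_11, smr11, sm_12, smr12] <;> ring

lemma onPoint_7 (c t : R) : OnPoint (sm c t) (smPt c t 7) := by
  intro μ
  rw [dotProduct]
  fin_cases μ <;> simp [Fin.sum_univ_succ, evb, evd, smPt, sm_0, smr0, sm_1, smr1, sm_2, smr2,
    sm_3, smr3, sm_4, smr4, sm_5, smr5, sm_6, smr6, sm_7, smr7, sm_8, smr8, sm_9, smr9, sm_10,
    smr10, sm_11, smr11, sm_12, smr12] <;> ring

lemma onPoint_8 (c t : R) : OnPoint (sm c t) (smPt c t 8) := by
  intro μ
  rw [dotProduct]
  fin_cases μ <;> simp [Fin.sum_univ_succ, evb, evd, smPt, sm_0, smr0, sm_1, smr1, sm_2, smr2,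
    sm_3, smr3, sm_4, smr4, sm_5, smr5, sm_6, smr6, sm_7, smr7, sm_8, smr8, sm_9, smr9, sm_10,
    smr10, sm_11, smr11, sm_12, smr12] <;> ring

lemma onPoint_9 (c t : R) : OnPoint (sm c t) (smPt c t 9) := by
  intro μ
  rw [dotProduct]
  fin_cases μ <;> simp [Fin.sum_univ_succ, evb, evd, smPt, sm_0, smr0, sm_1, smr1, sm_2, smr2,
    sm_3, smr3, sm_4, smr4, sm_5, smr5, sm_6, smr6, sm_7, smr7, sm_8, smr8, sm_9, smr9, sm_10,
    smr10, sm_11, smr11, sm_12, smr12] <;> ring

lemma onPoint_10 (c t : R) : OnPoint (sm c t) (smPt c t 10) := by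
  intro μ
  rw [dotProduct]
  fin_cases μ <;> simp [Fin.sum_univ_succ, evb, evd, smPt, sm_0, smr0, sm_1, smr1, sm_2, smr2,
    sm_3, smr3, sm_4, smr4, sm_5, smr5, sm_6, smr6, sm_7, smr7, sm_8, smr8, sm_9, smr9, sm_10,
    smr10, sm_11, smr11, sm_12, smr12] <;> ring

lemma onPoint_11 (c t : R) : OnPoint (sm c t) (smPt c t 11) := by
  intro μ
  rw [dotProduct]
  fin_cases μ <;> simp [Fin.sum_univ_succ, evb, evd, smPt, sm_0, smr0, sm_1, smr1, sm_2, smr2,
    sm_3, smr3, sm_4, smr4, sm_5, smr5, sm_6, smr6, sm_7, smr7, sm_8, smr8, sm_9, smr9, sm_10,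
    smr10, sm_11, smr11, sm_12, smr12] <;> ring

lemma onPoint_12 (c t : R) : OnPoint (sm c t) (smPt c t 12) := by
  intro μ
  rw [dotProduct]
  fin_cases μ <;> simp [Fin.sum_univ_succ, evb, evd, smPt, sm_0, smr0, sm_1, smr1, sm_2, smr2,
    sm_3, smr3, sm_4, smr4, sm_5, smr5, sm_6, smr6, sm_7, smr7, sm_8, smr8, sm_9, smr9, sm_10,
    smr10, sm_11, smr11, sm_12, smr12] <;> ring

lemma onPoint_smPt (c t : R) (l : Fin 13) : OnPoint (sm c t) (smPt c t l) := by
  fin_cases l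
  · exact onPoint_0 c t
  · exact onPoint_1 c t
  · exact onPoint_2 c t
  · exact onPoint_3 c t
  · exact onPoint_4 c t
  · exact onPoint_5 c t
  · exact onPoint_6 c t
  · exact onPoint_7 c t
  · exact onPoint_8 c t
  · exact onPoint_9 c t
  · exact onPoint_10 c t
  · exact onPoint_11 c t
  · exact onPoint_12 c t

end

end Pool.Agent.Lib.MP_3c1e96_ag
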