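import Pool.Agent.Lib.MP_3c1e96_ag.BorderConv
import Pool.Agent.Lib.MP_3c1e96_ag.Chart

/-!
A one-parameter family of border vectors whose fibres over `t ≠ 0` are 13 distinct points.
-/

set_option linter.unusedSimpArgs false

namespace Pool.Agent.Lib.MP_3c1e96_ag

universe u

open Matrix

section

variable {R : Type u} [CommRing R]

def smr0 (c t : R) : Fin 13 → R :=
  ![0, -c * t ^ 2, 0, 0, (1 + c) * t, 0, 0, 0, 0, 0, 0, 0, 0]

def smr1 (c t : R) : Fin 13 → R :=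
  ![0, -(1 + c) * t ^ 2, 0, 0, (1 + c) * t, 0, 0, t, 0, 0, 0, 0, 0]

def smr2 (c t : R) : Fin 13 → R :=
  ![0, 0, 0, 0, 0, 0, 0, (1 + c) * t, 0, 0, 0, 0, 0]

def smr3 (c t : R) : Fin 13 → R :=
  ![0, 0, -c * t ^ 2, 0, 0, 0, (1 + c) * t, 0, 0, 0, 0, 0, 0]

def smr4 (c t : R) : Fin 13 → R :=
  ![0, 0, -(1 + c) * c * t ^ 2, 0, 0, 0, (1 + c) * t, 0, c * t, 0, 0, 0, 0]

def smr5 (c t : R) : Fin 13 → R :=
  ![0, 0, 0, 0, 0, 0, 0, 0, (1 + c) * t, 0, 0, 0, 0]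

def smr6 (c t : R) : Fin 13 → R :=
  ![-(1 + c) * c * t ^ 3, (1 + c) * c * t ^ 2, (1 + c) * t ^ 2, (c ^ 2 + c - 1) * t ^ 2, 0, -(1 +
    c) * t, 0, -c * t, -t, 2 * t, 0, 0, 1]

def smr7 (c t : R) : Fin 13 → R :=
  ![0, 0, 0, 0, 0, -c * t ^ 2, 0, 0, 0, 0, (1 + c) * t, 0, 0]

def smr8 (c t : R) : Fin 13 → R :=
  ![0, 0, 0, 0, 0, -c * t ^ 2, 0, 0, 0, 0, c * t, t, 0]

def smr9 (c t : R) : Fin 13 → R :=
  ![0, 0, 0, 0, 0, -(1 + c) * t ^ 2, 0, 0, 0, 0, (1 + c) * t, 0, t]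

def smr10 (c t : R) : Fin 13 → R :=
  ![0, 0, 0, 0, 0, -c * t ^ 2, 0, 0, 0, 0, 0, (1 + c) * t, 0]

def smr11 (c t : R) : Fin 13 → R :=
  ![0, 0, 0, 0, 0, -(1 + c) * c * t ^ 2, 0, 0, 0, 0, 0, (1 + c) * t, c * t]

def smr12 (c t : R) : Fin 13 → R :=
  ![0, 0, 0, 0, 0, 0, 0, 0, 0, 0, 0, 0, (1 + c) * t]

/-- border vectors of the smoothing family -/
def sm (c t : R) : Fin 13 → Fin 13 → R :=
  ![smr0 c t, smr1 c t, smr2 c t, smr3 c t, smr4 c t, smr5 c t, smr6 c t,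
    smr7 c t, smr8 c t, smr9 c t, smr10 c t, smr11 c t, smr12 c t]

lemma sm_0 (c t : R) : sm c t 0 = smr0 c t := rfl
lemma sm_1 (c t : R) : sm c t 1 = smr1 c t := rfl
lemma sm_2 (c t : R) : sm c t 2 = smr2 c t := rfl
lemma sm_3 (c t : R) : sm c t 3 = smr3 c t := rfl
lemma sm_4 (c t : R) : sm c t 4 = smr4 c t := rfl
lemma sm_5 (c t : R) : sm c t 5 = smr5 c t := rfl
lemma sm_6 (c t : R) : sm c t 6 = smr6 c t := rfl
lemma sm_7 (c t : R) : sm c t 7 = smr7 c t := rfl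
lemma sm_8 (c t : R) : sm c t 8 = smr8 c t := rfl
lemma sm_9 (c t : R) : sm c t 9 = smr9 c t := rfl
lemma sm_10 (c t : R) : sm c t 10 = smr10 c t := rfl
lemma sm_11 (c t : R) : sm c t 11 = smr11 c t := rfl
lemma sm_12 (c t : R) : sm c t 12 = smr12 c t := rfl

lemma sm_c1 (c t : R) : acty (sm c t) (sm c t 0) = sm c t 7 := by
  funext i
  fin_cases i <;> simp [acty, sm_0, smr0, sm_1, smr1, sm_2, smr2, sm_3, smr3, sm_4, smr4, sm_5,
    smr5, sm_6, smr6, sm_7, smr7, sm_8, smr8, sm_9, smr9, sm_10, smr10, sm_11, smr11, sm_12,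
    smr12]

lemma sm_c2 (c t : R) : actx (sm c t) (sm c t 3) = sm c t 10 := by
  funext i
  fin_cases i <;> simp [actx, sm_0, smr0, sm_1, smr1, sm_2, smr2, sm_3, smr3, sm_4, smr4, sm_5,
    smr5, sm_6, smr6, sm_7, smr7, sm_8, smr8, sm_9, smr9, sm_10, smr10, sm_11, smr11, sm_12,
    smr12]

lemma sm_c3 (c t : R) : acty (sm c t) (sm c t 1) = sm c t 9 := by
  funext i
  fin_cases i <;> simp [acty, sm_0, smr0, sm_1, smr1, sm_2, smr2, sm_3, smr3, sm_4, smr4, sm_5,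
    smr5, sm_6, smr6, sm_7, smr7, sm_8, smr8, sm_9, smr9, sm_10, smr10, sm_11, smr11, sm_12,
    smr12]

lemma sm_c4 (c t : R) : actx (sm c t) (sm c t 4) = sm c t 11 := by
  funext i
  fin_cases i <;> simp [actx, sm_0, smr0, sm_1, smr1, sm_2, smr2, sm_3, smr3, sm_4, smr4, sm_5,
    smr5, sm_6, smr6, sm_7, smr7, sm_8, smr8, sm_9, smr9, sm_10, smr10, sm_11, smr11, sm_12,
    smr12]

lemma sm_c5 (c t : R) : actx (sm c t) (sm c t 5) = sm c t 12 := by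
  funext i
  fin_cases i <;> simp [actx, sm_0, smr0, sm_1, smr1, sm_2, smr2, sm_3, smr3, sm_4, smr4, sm_5,
    smr5, sm_6, smr6, sm_7, smr7, sm_8, smr8, sm_9, smr9, sm_10, smr10, sm_11, smr11, sm_12,
    smr12]

lemma sm_c6 (c t : R) : acty (sm c t) (sm c t 2) = sm c t 12 := by
  funext i
  fin_cases i <;> simp [acty, sm_0, smr0, sm_1, smr1, sm_2, smr2, sm_3, smr3, sm_4, smr4, sm_5,
    smr5, sm_6, smr6, sm_7, smr7, sm_8, smr8, sm_9, smr9, sm_10, smr10, sm_11, smr11, sm_12,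
    smr12]

lemma sm_c7 (c t : R) : actx (sm c t) (sm c t 1) = actz (sm c t) (sm c t 0) := by
  funext i
  fin_cases i <;> simp [actx, actz, sm_0, smr0, sm_1, smr1, sm_2, smr2, sm_3, smr3, sm_4, smr4,
    sm_5, smr5, sm_6, smr6, sm_7, smr7, sm_8, smr8, sm_9, smr9, sm_10, smr10, sm_11, smr11,
    sm_12, smr12] <;> ring

lemma sm_c8 (c t : R) : actx (sm c t) (sm c t 2) = actz (sm c t) (sm c t 1) := by
  funext i
  fin_cases i <;> simp [actx, actz, sm_0, smr0, sm_1, smr1, sm_2, smr2, sm_3, smr3, sm_4, smr4,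
    sm_5, smr5, sm_6, smr6, sm_7, smr7, sm_8, smr8, sm_9, smr9, sm_10, smr10, sm_11, smr11,
    sm_12, smr12] <;> ring

lemma sm_c9 (c t : R) : actx (sm c t) (sm c t 6) = actz (sm c t) (sm c t 2) := by
  funext i
  fin_cases i <;> simp [actx, actz, sm_0, smr0, sm_1, smr1, sm_2, smr2, sm_3, smr3, sm_4, smr4,
    sm_5, smr5, sm_6, smr6, sm_7, smr7, sm_8, smr8, sm_9, smr9, sm_10, smr10, sm_11, smr11,
    sm_12, smr12] <;> ring

lemma sm_c10 (c t : R) : acty (sm c t) (sm c t 4) = actz (sm c t) (sm c t 3) := by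
  funext i
  fin_cases i <;> simp [acty, actz, sm_0, smr0, sm_1, smr1, sm_2, smr2, sm_3, smr3, sm_4, smr4,
    sm_5, smr5, sm_6, smr6, sm_7, smr7, sm_8, smr8, sm_9, smr9, sm_10, smr10, sm_11, smr11,
    sm_12, smr12] <;> ring

lemma sm_c11 (c t : R) : acty (sm c t) (sm c t 5) = actz (sm c t) (sm c t 4) := by
  funext i
  fin_cases i <;> simp [acty, actz, sm_0, smr0, sm_1, smr1, sm_2, smr2, sm_3, smr3, sm_4, smr4,
    sm_5, smr5, sm_6, smr6, sm_7, smr7, sm_8, smr8, sm_9, smr9, sm_10, smr10, sm_11, smr11,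
    sm_12, smr12] <;> ring

lemma sm_c12 (c t : R) : acty (sm c t) (sm c t 6) = actz (sm c t) (sm c t 5) := by
  funext i
  fin_cases i <;> simp [acty, actz, sm_0, smr0, sm_1, smr1, sm_2, smr2, sm_3, smr3, sm_4, smr4,
    sm_5, smr5, sm_6, smr6, sm_7, smr7, sm_8, smr8, sm_9, smr9, sm_10, smr10, sm_11, smr11,
    sm_12, smr12] <;> ring

lemma sm_c13 (c t : R) : actx (sm c t) (sm c t 8) = acty (sm c t) (sm c t 7) := by
  funext i
  fin_cases i <;> simp [actx, acty, sm_0, smr0, sm_1, smr1, sm_2, smr2, sm_3, smr3, sm_4, smr4,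
    sm_5, smr5, sm_6, smr6, sm_7, smr7, sm_8, smr8, sm_9, smr9, sm_10, smr10, sm_11, smr11,
    sm_12, smr12] <;> ring

lemma sm_c14 (c t : R) : actx (sm c t) (sm c t 10) = acty (sm c t) (sm c t 8) := by
  funext i
  fin_cases i <;> simp [actx, acty, sm_0, smr0, sm_1, smr1, sm_2, smr2, sm_3, smr3, sm_4, smr4,
    sm_5, smr5, sm_6, smr6, sm_7, smr7, sm_8, smr8, sm_9, smr9, sm_10, smr10, sm_11, smr11,
    sm_12, smr12] <;> ring

lemma sm_c15 (c t : R) : actx (sm c t) (sm c t 11) = acty (sm c t) (sm c t 9) := by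
  funext i
  fin_cases i <;> simp [actx, acty, sm_0, smr0, sm_1, smr1, sm_2, smr2, sm_3, smr3, sm_4, smr4,
    sm_5, smr5, sm_6, smr6, sm_7, smr7, sm_8, smr8, sm_9, smr9, sm_10, smr10, sm_11, smr11,
    sm_12, smr12] <;> ring

lemma sm_c16 (c t : R) : actx (sm c t) (sm c t 9) = actz (sm c t) (sm c t 7) := by
  funext i
  fin_cases i <;> simp [actx, actz, sm_0, smr0, sm_1, smr1, sm_2, smr2, sm_3, smr3, sm_4, smr4,
    sm_5, smr5, sm_6, smr6, sm_7, smr7, sm_8, smr8, sm_9, smr9, sm_10, smr10, sm_11, smr11,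
    sm_12, smr12] <;> ring

lemma sm_c17 (c t : R) : actx (sm c t) (sm c t 11) = actz (sm c t) (sm c t 8) := by
  funext i
  fin_cases i <;> simp [actx, actz, sm_0, smr0, sm_1, smr1, sm_2, smr2, sm_3, smr3, sm_4, smr4,
    sm_5, smr5, sm_6, smr6, sm_7, smr7, sm_8, smr8, sm_9, smr9, sm_10, smr10, sm_11, smr11,
    sm_12, smr12] <;> ring

lemma sm_c18 (c t : R) : actx (sm c t) (sm c t 12) = actz (sm c t) (sm c t 9) := by
  funext i
  fin_cases i <;> simp [actx, actz, sm_0, smr0, sm_1, smr1, sm_2, smr2, sm_3, smr3, sm_4, smr4,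
    sm_5, smr5, sm_6, smr6, sm_7, smr7, sm_8, smr8, sm_9, smr9, sm_10, smr10, sm_11, smr11,
    sm_12, smr12] <;> ring

lemma sm_c19 (c t : R) : acty (sm c t) (sm c t 9) = actz (sm c t) (sm c t 8) := by
  funext i
  fin_cases i <;> simp [acty, actz, sm_0, smr0, sm_1, smr1, sm_2, smr2, sm_3, smr3, sm_4, smr4,
    sm_5, smr5, sm_6, smr6, sm_7, smr7, sm_8, smr8, sm_9, smr9, sm_10, smr10, sm_11, smr11,
    sm_12, smr12] <;> ring

lemma sm_c20 (c t : R) : acty (sm c t) (sm c t 11) = actz (sm c t) (sm c t 10) := by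
  funext i
  fin_cases i <;> simp [acty, actz, sm_0, smr0, sm_1, smr1, sm_2, smr2, sm_3, smr3, sm_4, smr4,
    sm_5, smr5, sm_6, smr6, sm_7, smr7, sm_8, smr8, sm_9, smr9, sm_10, smr10, sm_11, smr11,
    sm_12, smr12] <;> ring

lemma sm_c21 (c t : R) : acty (sm c t) (sm c t 12) = actz (sm c t) (sm c t 11) := by
  funext i
  fin_cases i <;> simp [acty, actz, sm_0, smr0, sm_1, smr1, sm_2, smr2, sm_3, smr3, sm_4, smr4,
    sm_5, smr5, sm_6, smr6, sm_7, smr7, sm_8, smr8, sm_9, smr9, sm_10, smr10, sm_11, smr11,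
    sm_12, smr12] <;> ring

lemma conds_sm (c t : R) : Conds (sm c t) where
  c1 := sm_c1 c t
  c2 := sm_c2 c t
  c3 := sm_c3 c t
  c4 := sm_c4 c t
  c5 := sm_c5 c t
  c6 := sm_c6 c t
  c7 := sm_c7 c t
  c8 := sm_c8 c t
  c9 := sm_c9 c t
  c10 := sm_c10 c t
  c11 := sm_c11 c t
  c12 := sm_c12 c t
  c13 := sm_c13 c t
  c14 := sm_c14 c t
  c15 := sm_c15 c t
  c16 := sm_c16 c t
  c17 := sm_c17 c t
  c18 := sm_c18 c t
  c19 := sm_c19 c t
  c20 := sm_c20 c t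
  c21 := sm_c21 c t

end

end Pool.Agent.Lib.MP_3c1e96_ag
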