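import Pool.Agent.Lib.MP_3c1e96_ag.Radical
import Pool.Agent.Lib.MP_3c1e96_ag.Base

/-!
The point `[Γ]` lies on the smoothable component.
-/

namespace Pool.Agent.Lib.MP_3c1e96_ag

universe u

section

variable {k : Type u} [Field k]

lemma smPt_injective {c t : k} (ht : t ≠ 0) (hc0 : c ≠ 0) (hc1 : c ≠ 1) (hc2 : 1 + c ≠ 0)
    (hc3 : 1 + 2 * c ≠ 0) : Function.Injective (smPt c t) := by
  have f0t : 0 ≠ t := ht.symm
  have f0m : 0 ≠ -c * t := (mul_ne_zero (neg_ne_zero.mpr hc0) ht).symm
  have f0c : 0 ≠ c * t := (mul_ne_zero hc0 ht).symm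
  have f0e : 0 ≠ (1 + c) * t := (mul_ne_zero hc2 ht).symm
  have ftm : t ≠ -c * t := fun h => mul_ne_zero hc2 ht (by linear_combination h)
  have ftc : t ≠ c * t := fun h =>
    mul_ne_zero (sub_ne_zero.mpr hc1) ht (by linear_combination -h)
  have fte : t ≠ (1 + c) * t := fun h => mul_ne_zero hc0 ht (by linear_combination -h)
  have fme : -c * t ≠ (1 + c) * t := fun h => mul_ne_zero hc3 ht (by linear_combination -h)
  intro l l' h
  fin_cases l <;> fin_cases l' 
  · rfl
  · exact absurd (congr_fun h 2) ftm
  · exact absurd (congr_fun h 0) f0t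
  · exact absurd (congr_fun h 1) f0c
  · exact absurd (congr_fun h 0) f0t
  · exact absurd (congr_fun h 2) fte
  · exact absurd (congr_fun h 1) f0c
  · exact absurd (congr_fun h 1) f0t
  · exact absurd (congr_fun h 0) f0t
  · exact absurd (congr_fun h 0) f0t
  · exact absurd (congr_fun h 0) f0t
  · exact absurd (congr_fun h 0) f0c
  · exact absurd (congr_fun h 0) f0c
  · exact absurd (congr_fun h 2).symm ftm
  · rfl
  · exact absurd (congr_fun h 0) f0t
  · exact absurd (congr_fun h 1) f0c
  · exact absurd (congr_fun h 0) f0t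
  · exact absurd (congr_fun h 2) fme
  · exact absurd (congr_fun h 1) f0c
  · exact absurd (congr_fun h 1) f0t
  · exact absurd (congr_fun h 0) f0t
  · exact absurd (congr_fun h 0) f0t
  · exact absurd (congr_fun h 0) f0t
  · exact absurd (congr_fun h 0) f0c
  · exact absurd (congr_fun h 0) f0c
  · exact absurd (congr_fun h 0).symm f0t
  · exact absurd (congr_fun h 0).symm f0t
  · rfl
  · exact absurd (congr_fun h 0).symm f0t
  · exact absurd (congr_fun h 1) f0c
  · exact absurd (congr_fun h 0).symm f0t
  · exact absurd (congr_fun h 0).symm f0t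
  · exact absurd (congr_fun h 0).symm f0t
  · exact absurd (congr_fun h 2) f0e
  · exact absurd (congr_fun h 1) f0c
  · exact absurd (congr_fun h 1) f0t
  · exact absurd (congr_fun h 0) ftc
  · exact absurd (congr_fun h 0) ftc
  · exact absurd (congr_fun h 1).symm f0c
  · exact absurd (congr_fun h 1).symm f0c
  · exact absurd (congr_fun h 0) f0t
  · rfl
  · exact absurd (congr_fun h 0) f0t
  · exact absurd (congr_fun h 1).symm f0c
  · exact absurd (congr_fun h 2) f0e
  · exact absurd (congr_fun h 1).symm ftc
  · exact absurd (congr_fun h 0) f0t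
  · exact absurd (congr_fun h 0) f0t
  · exact absurd (congr_fun h 0) f0t
  · exact absurd (congr_fun h 0) f0c
  · exact absurd (congr_fun h 0) f0c
  · exact absurd (congr_fun h 0).symm f0t
  · exact absurd (congr_fun h 0).symm f0t
  · exact absurd (congr_fun h 1).symm f0c
  · exact absurd (congr_fun h 0).symm f0t
  · rfl
  · exact absurd (congr_fun h 0).symm f0t
  · exact absurd (congr_fun h 0).symm f0t
  · exact absurd (congr_fun h 0).symm f0t
  · exact absurd (congr_fun h 1).symm f0c
  · exact absurd (congr_fun h 2) f0e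
  · exact absurd (congr_fun h 1).symm ftc
  · exact absurd (congr_fun h 0) ftc
  · exact absurd (congr_fun h 0) ftc
  · exact absurd (congr_fun h 2).symm fte
  · exact absurd (congr_fun h 2).symm fme
  · exact absurd (congr_fun h 0) f0t
  · exact absurd (congr_fun h 1) f0c
  · exact absurd (congr_fun h 0) f0t
  · rfl
  · exact absurd (congr_fun h 1) f0c
  · exact absurd (congr_fun h 1) f0t
  · exact absurd (congr_fun h 0) f0t
  · exact absurd (congr_fun h 0) f0t
  · exact absurd (congr_fun h 0) f0t
  · exact absurd (congr_fun h 0) f0c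
  · exact absurd (congr_fun h 0) f0c
  · exact absurd (congr_fun h 1).symm f0c
  · exact absurd (congr_fun h 1).symm f0c
  · exact absurd (congr_fun h 0) f0t
  · exact absurd (congr_fun h 2).symm f0e
  · exact absurd (congr_fun h 0) f0t
  · exact absurd (congr_fun h 1).symm f0c
  · rfl
  · exact absurd (congr_fun h 1).symm ftc
  · exact absurd (congr_fun h 0) f0t
  · exact absurd (congr_fun h 0) f0t
  · exact absurd (congr_fun h 0) f0t
  · exact absurd (congr_fun h 0) f0c
  · exact absurd (congr_fun h 0) f0c
  · exact absurd (congr_fun h 1).symm f0t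
  · exact absurd (congr_fun h 1).symm f0t
  · exact absurd (congr_fun h 0) f0t
  · exact absurd (congr_fun h 1) ftc
  · exact absurd (congr_fun h 0) f0t
  · exact absurd (congr_fun h 1).symm f0t
  · exact absurd (congr_fun h 1) ftc
  · rfl
  · exact absurd (congr_fun h 0) f0t
  · exact absurd (congr_fun h 0) f0t
  · exact absurd (congr_fun h 0) f0t
  · exact absurd (congr_fun h 0) f0c
  · exact absurd (congr_fun h 0) f0c
  · exact absurd (congr_fun h 0).symm f0t
  · exact absurd (congr_fun h 0).symm f0t
  · exact absurd (congr_fun h 2).symm f0e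
  · exact absurd (congr_fun h 0).symm f0t
  · exact absurd (congr_fun h 1) f0c
  · exact absurd (congr_fun h 0).symm f0t
  · exact absurd (congr_fun h 0).symm f0t
  · exact absurd (congr_fun h 0).symm f0t
  · rfl
  · exact absurd (congr_fun h 1) f0c
  · exact absurd (congr_fun h 1) f0t
  · exact absurd (congr_fun h 0) ftc
  · exact absurd (congr_fun h 0) ftc
  · exact absurd (congr_fun h 0).symm f0t
  · exact absurd (congr_fun h 0).symm f0t
  · exact absurd (congr_fun h 1).symm f0c
  · exact absurd (congr_fun h 0).symm f0t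
  · exact absurd (congr_fun h 2).symm f0e
  · exact absurd (congr_fun h 0).symm f0t
  · exact absurd (congr_fun h 0).symm f0t
  · exact absurd (congr_fun h 0).symm f0t
  · exact absurd (congr_fun h 1).symm f0c
  · rfl
  · exact absurd (congr_fun h 1).symm ftc
  · exact absurd (congr_fun h 0) ftc
  · exact absurd (congr_fun h 0) ftc
  · exact absurd (congr_fun h 0).symm f0t
  · exact absurd (congr_fun h 0).symm f0t
  · exact absurd (congr_fun h 1).symm f0t
  · exact absurd (congr_fun h 0).symm f0t
  · exact absurd (congr_fun h 1) ftc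
  · exact absurd (congr_fun h 0).symm f0t
  · exact absurd (congr_fun h 0).symm f0t
  · exact absurd (congr_fun h 0).symm f0t
  · exact absurd (congr_fun h 1).symm f0t
  · exact absurd (congr_fun h 1) ftc
  · rfl
  · exact absurd (congr_fun h 0) ftc
  · exact absurd (congr_fun h 0) ftc
  · exact absurd (congr_fun h 0).symm f0c
  · exact absurd (congr_fun h 0).symm f0c
  · exact absurd (congr_fun h 0).symm ftc
  · exact absurd (congr_fun h 0).symm f0c
  · exact absurd (congr_fun h 0).symm ftc
  · exact absurd (congr_fun h 0).symm f0c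
  · exact absurd (congr_fun h 0).symm f0c
  · exact absurd (congr_fun h 0).symm f0c
  · exact absurd (congr_fun h 0).symm ftc
  · exact absurd (congr_fun h 0).symm ftc
  · exact absurd (congr_fun h 0).symm ftc
  · rfl
  · exact absurd (congr_fun h 1) f0c
  · exact absurd (congr_fun h 0).symm f0c
  · exact absurd (congr_fun h 0).symm f0c
  · exact absurd (congr_fun h 0).symm ftc
  · exact absurd (congr_fun h 0).symm f0c
  · exact absurd (congr_fun h 0).symm ftc
  · exact absurd (congr_fun h 0).symm f0c
  · exact absurd (congr_fun h 0).symm f0c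
  · exact absurd (congr_fun h 0).symm f0c
  · exact absurd (congr_fun h 0).symm ftc
  · exact absurd (congr_fun h 0).symm ftc
  · exact absurd (congr_fun h 0).symm ftc
  · exact absurd (congr_fun h 1).symm f0c
  · rfl

lemma sm_zero_eq (c : k) : sm c 0 = R0 := by
  funext μ i
  fin_cases μ <;> fin_cases i <;> simp [sm, smr0, smr1, smr2, smr3, smr4, smr5, smr6, smr7, smr8,
    smr9, smr10, smr11, smr12, R0]

/-- the fibre of the smoothing family at `t` -/
noncomputable def smHom (c t : k) : AA k →ₐ[k] k := bLift (conds_sm c t)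

lemma smHom_zero (c : k) : smHom c 0 = pt k := by
  apply hom_ext_uvec
  intro μ i
  rw [smHom, bLift_uvec, pt_uvec, sm_zero_eq]

lemma smr0_map {R R' : Type u} [CommRing R] [CommRing R'] (φ : R →+* R') (c t : R) (i : Fin 13) :
    φ (smr0 c t i) = smr0 (φ c) (φ t) i := by
  fin_cases i <;> simp [smr0]

lemma smr1_map {R R' : Type u} [CommRing R] [CommRing R'] (φ : R →+* R') (c t : R) (i : Fin 13) :
    φ (smr1 c t i) = smr1 (φ c) (φ t) i := by
  fin_cases i <;> simp [smr1]

lemma smr2_map {R R' : Type u} [CommRing R] [CommRing R'] (φ : R →+* R') (c t : R) (i : Fin 13) :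
    φ (smr2 c t i) = smr2 (φ c) (φ t) i := by
  fin_cases i <;> simp [smr2]

lemma smr3_map {R R' : Type u} [CommRing R] [CommRing R'] (φ : R →+* R') (c t : R) (i : Fin 13) :
    φ (smr3 c t i) = smr3 (φ c) (φ t) i := by
  fin_cases i <;> simp [smr3]

lemma smr4_map {R R' : Type u} [CommRing R] [CommRing R'] (φ : R →+* R') (c t : R) (i : Fin 13) :
    φ (smr4 c t i) = smr4 (φ c) (φ t) i := by
  fin_cases i <;> simp [smr4]

lemma smr5_map {R R' : Type u} [CommRing R] [CommRing R'] (φ : R →+* R') (c t : R) (i : Fin 13) :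
    φ (smr5 c t i) = smr5 (φ c) (φ t) i := by
  fin_cases i <;> simp [smr5]

lemma smr6_map {R R' : Type u} [CommRing R] [CommRing R'] (φ : R →+* R') (c t : R) (i : Fin 13) :
    φ (smr6 c t i) = smr6 (φ c) (φ t) i := by
  fin_cases i <;> simp [smr6]
  rw [map_ofNat]

lemma smr7_map {R R' : Type u} [CommRing R] [CommRing R'] (φ : R →+* R') (c t : R) (i : Fin 13) :
    φ (smr7 c t i) = smr7 (φ c) (φ t) i := by
  fin_cases i <;> simp [smr7]

lemma smr8_map {R R' : Type u} [CommRing R] [CommRing R'] (φ : R →+* R') (c t : R) (i : Fin 13) :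
    φ (smr8 c t i) = smr8 (φ c) (φ t) i := by
  fin_cases i <;> simp [smr8]

lemma smr9_map {R R' : Type u} [CommRing R] [CommRing R'] (φ : R →+* R') (c t : R) (i : Fin 13) :
    φ (smr9 c t i) = smr9 (φ c) (φ t) i := by
  fin_cases i <;> simp [smr9]

lemma smr10_map {R R' : Type u} [CommRing R] [CommRing R'] (φ : R →+* R') (c t : R) (i : Fin 13) :
    φ (smr10 c t i) = smr10 (φ c) (φ t) i := by
  fin_cases i <;> simp [smr10]

lemma smr11_map {R R' : Type u} [CommRing R] [CommRing R'] (φ : R →+* R') (c t : R) (i : Fin 13) :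
    φ (smr11 c t i) = smr11 (φ c) (φ t) i := by
  fin_cases i <;> simp [smr11]

lemma smr12_map {R R' : Type u} [CommRing R] [CommRing R'] (φ : R →+* R') (c t : R) (i : Fin 13) :
    φ (smr12 c t i) = smr12 (φ c) (φ t) i := by
  fin_cases i <;> simp [smr12]

lemma sm_map {R R' : Type u} [CommRing R] [CommRing R'] (φ : R →+* R') (c t : R)
    (μ i : Fin 13) : φ (sm c t μ i) = sm (φ c) (φ t) μ i := by
  fin_cases μ
  · exact smr0_map φ c t i
  · exact smr1_map φ c t i
  · exact smr2_map φ c t i
  · exact smr3_map φ c t i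
  · exact smr4_map φ c t i
  · exact smr5_map φ c t i
  · exact smr6_map φ c t i
  · exact smr7_map φ c t i
  · exact smr8_map φ c t i
  · exact smr9_map φ c t i
  · exact smr10_map φ c t i
  · exact smr11_map φ c t i
  · exact smr12_map φ c t i

/-- the total family -/
noncomputable def smTot (c : k) : AA k →ₐ[k] Polynomial k :=
  bLift (conds_sm (Polynomial.C c) Polynomial.X)

lemma smTot_eval (c t : k) (x : AA k) : (smTot c x).eval t = smHom c t x := by
  have h : (Polynomial.aeval t : Polynomial k →ₐ[k] k).comp (smTot c) = smHom c t := by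
    apply hom_ext_uvec
    intro μ i
    rw [AlgHom.comp_apply, smTot, smHom, bLift_uvec, bLift_uvec]
    have h1 := sm_map ((Polynomial.aeval t : Polynomial k →ₐ[k] k) : Polynomial k →+* k)
      (Polynomial.C c) Polynomial.X μ i
    simpa using h1
  rw [← h, AlgHom.comp_apply, Polynomial.aeval_def, Polynomial.eval₂_eq_eval_map]
  simp

lemma smHom_radical {c t : k} (ht : t ≠ 0) (hc0 : c ≠ 0) (hc1 : c ≠ 1) (hc2 : 1 + c ≠ 0)
    (hc3 : 1 + 2 * c ≠ 0) :
    (baseChange (smHom c t : AA k →+* k) (chartFamily k bas 0)).IsRadical := by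
  rw [smHom, bLift, baseChange_chartLift]
  exact isRadical_idealOf _ (onPoint_smPt c t) (smPt_injective ht hc0 hc1 hc2 hc3)

variable (k)

/-- the point `[Γ]` lies on the smoothable component -/
theorem pt_mem_smoothable [Infinite k] :
    closedPoint (pt k) ∈ smoothableComponent k (chartFamily k bas 0) := by
  obtain ⟨c, hc⟩ : ∃ c : k, (Polynomial.X * (Polynomial.X - 1) * (1 + Polynomial.X) *
      (1 + 2 * Polynomial.X) : Polynomial k).eval c ≠ 0 := by
    by_contra hcon
    push Not at hcon
    have h0 : (Polynomial.X * (Polynomial.X - 1) * (1 + Polynomial.X) *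
      (1 + 2 * Polynomial.X) : Polynomial k) = 0 := Polynomial.funext (by simpa using hcon)
    rw [mul_eq_zero, mul_eq_zero, mul_eq_zero] at h0
    rcases h0 with ((h0 | h0) | h0) | h0
    · exact Polynomial.X_ne_zero h0
    · have := congr_arg (Polynomial.eval 0) h0
      simp at this
    · have := congr_arg (Polynomial.eval 0) h0
      simp at this
    · have := congr_arg (Polynomial.eval 0) h0
      simp at this
  simp only [Polynomial.eval_mul, Polynomial.eval_X, Polynomial.eval_sub, Polynomial.eval_one,
    Polynomial.eval_add, Polynomial.eval_ofNat, mul_ne_zero_iff, sub_ne_zero] at hc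
  obtain ⟨⟨⟨hc0, hc1⟩, hc2⟩, hc3⟩ := hc
  rw [smoothableComponent, ← PrimeSpectrum.zeroLocus_vanishingIdeal_eq_closure,
    PrimeSpectrum.mem_zeroLocus]
  intro x hx
  rw [SetLike.mem_coe, PrimeSpectrum.mem_vanishingIdeal] at hx
  change pt k x = 0
  have h1 : ∀ t : k, t ≠ 0 → (smTot c x).eval t = 0 := by
    intro t ht
    rw [smTot_eval]
    exact hx (closedPoint (smHom c t)) ⟨smHom c t, smHom_radical ht hc0 hc1 hc2 hc3, rfl⟩
  have h2 : Polynomial.X * smTot c x = 0 := by
    apply Polynomial.funext
    intro t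
    by_cases ht : t = 0
    · subst ht; simp
    · rw [Polynomial.eval_mul, h1 t ht, mul_zero, Polynomial.eval_zero]
  have h3 : smTot c x = 0 := by
    rcases mul_eq_zero.mp h2 with h | h
    · exact absurd h Polynomial.X_ne_zero
    · exact h
  rw [← smHom_zero c, ← smTot_eval, h3, Polynomial.eval_zero]

end

end Pool.Agent.Lib.MP_3c1e96_ag
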