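import Pool.Agent.Lib.MP_3c1e96_ag.Data

/-!
The explicit data satisfy the first and second order conditions.
-/

set_option linter.unusedSimpArgs false

namespace Pool.Agent.Lib.MP_3c1e96_ag

universe u

variable {k : Type u} [Field k]

theorem lin_R1 (w : Fin 45 → k) : Lin (R1 w) where
  l1 i := by
    fin_cases i <;> simp [o1x, o1y, o1z, shx, shy, shz, R1_0, R1r0, R1_1, R1r1, R1_2, R1r2,
      R1_3, R1r3, R1_4, R1r4, R1_5, R1r5, R1_6, R1r6, R1_7, R1r7, R1_8, R1r8, R1_9, R1r9, R1_10,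
      R1r10, R1_11, R1r11, R1_12, R1r12]
  l2 i := by
    fin_cases i <;> simp [o1x, o1y, o1z, shx, shy, shz, R1_0, R1r0, R1_1, R1r1, R1_2, R1r2,
      R1_3, R1r3, R1_4, R1r4, R1_5, R1r5, R1_6, R1r6, R1_7, R1r7, R1_8, R1r8, R1_9, R1r9, R1_10,
      R1r10, R1_11, R1r11, R1_12, R1r12]
  l3 i := by
    fin_cases i <;> simp [o1x, o1y, o1z, shx, shy, shz, R1_0, R1r0, R1_1, R1r1, R1_2, R1r2,
      R1_3, R1r3, R1_4, R1r4, R1_5, R1r5, R1_6, R1r6, R1_7, R1r7, R1_8, R1r8, R1_9, R1r9, R1_10,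
      R1r10, R1_11, R1r11, R1_12, R1r12]
  l4 i := by
    fin_cases i <;> simp [o1x, o1y, o1z, shx, shy, shz, R1_0, R1r0, R1_1, R1r1, R1_2, R1r2,
      R1_3, R1r3, R1_4, R1r4, R1_5, R1r5, R1_6, R1r6, R1_7, R1r7, R1_8, R1r8, R1_9, R1r9, R1_10,
      R1r10, R1_11, R1r11, R1_12, R1r12]
  l5 i := by
    fin_cases i <;> simp [o1x, o1y, o1z, shx, shy, shz, R1_0, R1r0, R1_1, R1r1, R1_2, R1r2,
      R1_3, R1r3, R1_4, R1r4, R1_5, R1r5, R1_6, R1r6, R1_7, R1r7, R1_8, R1r8, R1_9, R1r9, R1_10,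
      R1r10, R1_11, R1r11, R1_12, R1r12]
  l6 i := by
    fin_cases i <;> simp [o1x, o1y, o1z, shx, shy, shz, R1_0, R1r0, R1_1, R1r1, R1_2, R1r2,
      R1_3, R1r3, R1_4, R1r4, R1_5, R1r5, R1_6, R1r6, R1_7, R1r7, R1_8, R1r8, R1_9, R1r9, R1_10,
      R1r10, R1_11, R1r11, R1_12, R1r12]
  l7 i := by
    fin_cases i <;> simp [o1x, o1y, o1z, shx, shy, shz, R1_0, R1r0, R1_1, R1r1, R1_2, R1r2,
      R1_3, R1r3, R1_4, R1r4, R1_5, R1r5, R1_6, R1r6, R1_7, R1r7, R1_8, R1r8, R1_9, R1r9, R1_10,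
      R1r10, R1_11, R1r11, R1_12, R1r12] <;> ring
  l8 i := by
    fin_cases i <;> simp [o1x, o1y, o1z, shx, shy, shz, R1_0, R1r0, R1_1, R1r1, R1_2, R1r2,
      R1_3, R1r3, R1_4, R1r4, R1_5, R1r5, R1_6, R1r6, R1_7, R1r7, R1_8, R1r8, R1_9, R1r9, R1_10,
      R1r10, R1_11, R1r11, R1_12, R1r12]
  l9 i := by
    fin_cases i <;> simp [o1x, o1y, o1z, shx, shy, shz, R1_0, R1r0, R1_1, R1r1, R1_2, R1r2,
      R1_3, R1r3, R1_4, R1r4, R1_5, R1r5, R1_6, R1r6, R1_7, R1r7, R1_8, R1r8, R1_9, R1r9, R1_10,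
      R1r10, R1_11, R1r11, R1_12, R1r12]
  l10 i := by
    fin_cases i <;> simp [o1x, o1y, o1z, shx, shy, shz, R1_0, R1r0, R1_1, R1r1, R1_2, R1r2,
      R1_3, R1r3, R1_4, R1r4, R1_5, R1r5, R1_6, R1r6, R1_7, R1r7, R1_8, R1r8, R1_9, R1r9, R1_10,
      R1r10, R1_11, R1r11, R1_12, R1r12] <;> ring
  l11 i := by
    fin_cases i <;> simp [o1x, o1y, o1z, shx, shy, shz, R1_0, R1r0, R1_1, R1r1, R1_2, R1r2,
      R1_3, R1r3, R1_4, R1r4, R1_5, R1r5, R1_6, R1r6, R1_7, R1r7, R1_8, R1r8, R1_9, R1r9, R1_10,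
      R1r10, R1_11, R1r11, R1_12, R1r12]
  l12 i := by
    fin_cases i <;> simp [o1x, o1y, o1z, shx, shy, shz, R1_0, R1r0, R1_1, R1r1, R1_2, R1r2,
      R1_3, R1r3, R1_4, R1r4, R1_5, R1r5, R1_6, R1r6, R1_7, R1r7, R1_8, R1r8, R1_9, R1r9, R1_10,
      R1r10, R1_11, R1r11, R1_12, R1r12]
  l13 i := by
    fin_cases i <;> simp [o1x, o1y, o1z, shx, shy, shz, R1_0, R1r0, R1_1, R1r1, R1_2, R1r2,
      R1_3, R1r3, R1_4, R1r4, R1_5, R1r5, R1_6, R1r6, R1_7, R1r7, R1_8, R1r8, R1_9, R1r9, R1_10,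
      R1r10, R1_11, R1r11, R1_12, R1r12]
  l14 i := by
    fin_cases i <;> simp [o1x, o1y, o1z, shx, shy, shz, R1_0, R1r0, R1_1, R1r1, R1_2, R1r2,
      R1_3, R1r3, R1_4, R1r4, R1_5, R1r5, R1_6, R1r6, R1_7, R1r7, R1_8, R1r8, R1_9, R1r9, R1_10,
      R1r10, R1_11, R1r11, R1_12, R1r12]
  l15 i := by
    fin_cases i <;> simp [o1x, o1y, o1z, shx, shy, shz, R1_0, R1r0, R1_1, R1r1, R1_2, R1r2,
      R1_3, R1r3, R1_4, R1r4, R1_5, R1r5, R1_6, R1r6, R1_7, R1r7, R1_8, R1r8, R1_9, R1r9, R1_10,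
      R1r10, R1_11, R1r11, R1_12, R1r12]
  l16 i := by
    fin_cases i <;> simp [o1x, o1y, o1z, shx, shy, shz, R1_0, R1r0, R1_1, R1r1, R1_2, R1r2,
      R1_3, R1r3, R1_4, R1r4, R1_5, R1r5, R1_6, R1r6, R1_7, R1r7, R1_8, R1r8, R1_9, R1r9, R1_10,
      R1r10, R1_11, R1r11, R1_12, R1r12]
  l17 i := by
    fin_cases i <;> simp [o1x, o1y, o1z, shx, shy, shz, R1_0, R1r0, R1_1, R1r1, R1_2, R1r2,
      R1_3, R1r3, R1_4, R1r4, R1_5, R1r5, R1_6, R1r6, R1_7, R1r7, R1_8, R1r8, R1_9, R1r9, R1_10,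
      R1r10, R1_11, R1r11, R1_12, R1r12]
  l18 i := by
    fin_cases i <;> simp [o1x, o1y, o1z, shx, shy, shz, R1_0, R1r0, R1_1, R1r1, R1_2, R1r2,
      R1_3, R1r3, R1_4, R1r4, R1_5, R1r5, R1_6, R1r6, R1_7, R1r7, R1_8, R1r8, R1_9, R1r9, R1_10,
      R1r10, R1_11, R1r11, R1_12, R1r12]
  l19 i := by
    fin_cases i <;> simp [o1x, o1y, o1z, shx, shy, shz, R1_0, R1r0, R1_1, R1r1, R1_2, R1r2,
      R1_3, R1r3, R1_4, R1r4, R1_5, R1r5, R1_6, R1r6, R1_7, R1r7, R1_8, R1r8, R1_9, R1r9, R1_10,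
      R1r10, R1_11, R1r11, R1_12, R1r12]
  l20 i := by
    fin_cases i <;> simp [o1x, o1y, o1z, shx, shy, shz, R1_0, R1r0, R1_1, R1r1, R1_2, R1r2,
      R1_3, R1r3, R1_4, R1r4, R1_5, R1r5, R1_6, R1r6, R1_7, R1r7, R1_8, R1r8, R1_9, R1r9, R1_10,
      R1r10, R1_11, R1r11, R1_12, R1r12]
  l21 i := by
    fin_cases i <;> simp [o1x, o1y, o1z, shx, shy, shz, R1_0, R1r0, R1_1, R1r1, R1_2, R1r2,
      R1_3, R1r3, R1_4, R1r4, R1_5, R1r5, R1_6, R1r6, R1_7, R1r7, R1_8, R1r8, R1_9, R1r9, R1_10,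
      R1r10, R1_11, R1r11, R1_12, R1r12]

lemma quad_1 (w : Fin 45 → k) (i : Fin 13) :
    biy (R1 w) (R1 w 0) i + o1y (R2 w) 0 i =
      R2 w 7 i := by
    fin_cases i <;> simp [o1y, shy, biy, R1_0, R1r0, R1_1, R1r1, R1_2, R1r2, R1_3, R1r3, R1_4,
      R1r4, R1_5, R1r5, R1_6, R1r6, R1_7, R1r7, R1_8, R1r8, R1_9, R1r9, R1_10, R1r10, R1_11,
      R1r11, R1_12, R1r12, R2_0, R2r0, R2_1, R2r1, R2_2, R2r2, R2_3, R2r3, R2_4, R2r4, R2_5,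
      R2r5, R2_6, R2r6, R2_7, R2r7, R2_8, R2r8, R2_9, R2r9, R2_10, R2r10, R2_11, R2r11, R2_12,
      R2r12] <;> ring

lemma quad_2 (w : Fin 45 → k) (i : Fin 13) :
    bix (R1 w) (R1 w 3) i + o1x (R2 w) 3 i =
      R2 w 10 i := by
    fin_cases i <;> simp [o1x, shx, bix, R1_0, R1r0, R1_1, R1r1, R1_2, R1r2, R1_3, R1r3, R1_4,
      R1r4, R1_5, R1r5, R1_6, R1r6, R1_7, R1r7, R1_8, R1r8, R1_9, R1r9, R1_10, R1r10, R1_11,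
      R1r11, R1_12, R1r12, R2_0, R2r0, R2_1, R2r1, R2_2, R2r2, R2_3, R2r3, R2_4, R2r4, R2_5,
      R2r5, R2_6, R2r6, R2_7, R2r7, R2_8, R2r8, R2_9, R2r9, R2_10, R2r10, R2_11, R2r11, R2_12,
      R2r12] <;> ring

lemma quad_3 (w : Fin 45 → k) (i : Fin 13) :
    biy (R1 w) (R1 w 1) i + o1y (R2 w) 1 i =
      R2 w 9 i := by
    fin_cases i <;> simp [o1y, shy, biy, R1_0, R1r0, R1_1, R1r1, R1_2, R1r2, R1_3, R1r3, R1_4,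
      R1r4, R1_5, R1r5, R1_6, R1r6, R1_7, R1r7, R1_8, R1r8, R1_9, R1r9, R1_10, R1r10, R1_11,
      R1r11, R1_12, R1r12, R2_0, R2r0, R2_1, R2r1, R2_2, R2r2, R2_3, R2r3, R2_4, R2r4, R2_5,
      R2r5, R2_6, R2r6, R2_7, R2r7, R2_8, R2r8, R2_9, R2r9, R2_10, R2r10, R2_11, R2r11, R2_12,
      R2r12] <;> ring

lemma quad_4 (w : Fin 45 → k) (i : Fin 13) :
    bix (R1 w) (R1 w 4) i + o1x (R2 w) 4 i =
      R2 w 11 i := by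
    fin_cases i <;> simp [o1x, shx, bix, R1_0, R1r0, R1_1, R1r1, R1_2, R1r2, R1_3, R1r3, R1_4,
      R1r4, R1_5, R1r5, R1_6, R1r6, R1_7, R1r7, R1_8, R1r8, R1_9, R1r9, R1_10, R1r10, R1_11,
      R1r11, R1_12, R1r12, R2_0, R2r0, R2_1, R2r1, R2_2, R2r2, R2_3, R2r3, R2_4, R2r4, R2_5,
      R2r5, R2_6, R2r6, R2_7, R2r7, R2_8, R2r8, R2_9, R2r9, R2_10, R2r10, R2_11, R2r11, R2_12,
      R2r12] <;> ring

lemma quad_5 (w : Fin 45 → k) (i : Fin 13) :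
    bix (R1 w) (R1 w 5) i + o1x (R2 w) 5 i =
      R2 w 12 i := by
    fin_cases i <;> simp [o1x, shx, bix, R1_0, R1r0, R1_1, R1r1, R1_2, R1r2, R1_3, R1r3, R1_4,
      R1r4, R1_5, R1r5, R1_6, R1r6, R1_7, R1r7, R1_8, R1r8, R1_9, R1r9, R1_10, R1r10, R1_11,
      R1r11, R1_12, R1r12, R2_0, R2r0, R2_1, R2r1, R2_2, R2r2, R2_3, R2r3, R2_4, R2r4, R2_5,
      R2r5, R2_6, R2r6, R2_7, R2r7, R2_8, R2r8, R2_9, R2r9, R2_10, R2r10, R2_11, R2r11, R2_12,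
      R2r12] <;> ring

lemma quad_6 (w : Fin 45 → k) (i : Fin 13) :
    biy (R1 w) (R1 w 2) i + o1y (R2 w) 2 i =
      R2 w 12 i := by
    fin_cases i <;> simp [o1y, shy, biy, R1_0, R1r0, R1_1, R1r1, R1_2, R1r2, R1_3, R1r3, R1_4,
      R1r4, R1_5, R1r5, R1_6, R1r6, R1_7, R1r7, R1_8, R1r8, R1_9, R1r9, R1_10, R1r10, R1_11,
      R1r11, R1_12, R1r12, R2_0, R2r0, R2_1, R2r1, R2_2, R2r2, R2_3, R2r3, R2_4, R2r4, R2_5,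
      R2r5, R2_6, R2r6, R2_7, R2r7, R2_8, R2r8, R2_9, R2r9, R2_10, R2r10, R2_11, R2r11, R2_12,
      R2r12] <;> ring

lemma quad_7 (w : Fin 45 → k) (i : Fin 13) :
    bix (R1 w) (R1 w 1) i + o1x (R2 w) 1 i =
      biz (R1 w) (R1 w 0) i + o1z (R2 w) 0 i := by
    fin_cases i <;> simp [o1x, shx, bix, o1z, shz, biz, R1_0, R1r0, R1_1, R1r1, R1_2, R1r2,
      R1_3, R1r3, R1_4, R1r4, R1_5, R1r5, R1_6, R1r6, R1_7, R1r7, R1_8, R1r8, R1_9, R1r9, R1_10,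
      R1r10, R1_11, R1r11, R1_12, R1r12, R2_0, R2r0, R2_1, R2r1, R2_2, R2r2, R2_3, R2r3, R2_4,
      R2r4, R2_5, R2r5, R2_6, R2r6, R2_7, R2r7, R2_8, R2r8, R2_9, R2r9, R2_10, R2r10, R2_11,
      R2r11, R2_12, R2r12] <;> ring

lemma quad_8 (w : Fin 45 → k) (i : Fin 13) :
    bix (R1 w) (R1 w 2) i + o1x (R2 w) 2 i =
      biz (R1 w) (R1 w 1) i + o1z (R2 w) 1 i := by
    fin_cases i <;> simp [o1x, shx, bix, o1z, shz, biz, R1_0, R1r0, R1_1, R1r1, R1_2, R1r2,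
      R1_3, R1r3, R1_4, R1r4, R1_5, R1r5, R1_6, R1r6, R1_7, R1r7, R1_8, R1r8, R1_9, R1r9, R1_10,
      R1r10, R1_11, R1r11, R1_12, R1r12, R2_0, R2r0, R2_1, R2r1, R2_2, R2r2, R2_3, R2r3, R2_4,
      R2r4, R2_5, R2r5, R2_6, R2r6, R2_7, R2r7, R2_8, R2r8, R2_9, R2r9, R2_10, R2r10, R2_11,
      R2r11, R2_12, R2r12] <;> ring

lemma quad_9 (w : Fin 45 → k) (i : Fin 13) :
    bix (R1 w) (R1 w 6) i + o1x (R2 w) 6 i =
      biz (R1 w) (R1 w 2) i + o1z (R2 w) 2 i := by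
    fin_cases i <;> simp [o1x, shx, bix, o1z, shz, biz, R1_0, R1r0, R1_1, R1r1, R1_2, R1r2,
      R1_3, R1r3, R1_4, R1r4, R1_5, R1r5, R1_6, R1r6, R1_7, R1r7, R1_8, R1r8, R1_9, R1r9, R1_10,
      R1r10, R1_11, R1r11, R1_12, R1r12, R2_0, R2r0, R2_1, R2r1, R2_2, R2r2, R2_3, R2r3, R2_4,
      R2r4, R2_5, R2r5, R2_6, R2r6, R2_7, R2r7, R2_8, R2r8, R2_9, R2r9, R2_10, R2r10, R2_11,
      R2r11, R2_12, R2r12] <;> ring

lemma quad_10 (w : Fin 45 → k) (i : Fin 13) :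
    biy (R1 w) (R1 w 4) i + o1y (R2 w) 4 i =
      biz (R1 w) (R1 w 3) i + o1z (R2 w) 3 i := by
    fin_cases i <;> simp [o1y, shy, biy, o1z, shz, biz, R1_0, R1r0, R1_1, R1r1, R1_2, R1r2,
      R1_3, R1r3, R1_4, R1r4, R1_5, R1r5, R1_6, R1r6, R1_7, R1r7, R1_8, R1r8, R1_9, R1r9, R1_10,
      R1r10, R1_11, R1r11, R1_12, R1r12, R2_0, R2r0, R2_1, R2r1, R2_2, R2r2, R2_3, R2r3, R2_4,
      R2r4, R2_5, R2r5, R2_6, R2r6, R2_7, R2r7, R2_8, R2r8, R2_9, R2r9, R2_10, R2r10, R2_11,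
      R2r11, R2_12, R2r12] <;> ring

lemma quad_11 (w : Fin 45 → k) (i : Fin 13) :
    biy (R1 w) (R1 w 5) i + o1y (R2 w) 5 i =
      biz (R1 w) (R1 w 4) i + o1z (R2 w) 4 i := by
    fin_cases i <;> simp [o1y, shy, biy, o1z, shz, biz, R1_0, R1r0, R1_1, R1r1, R1_2, R1r2,
      R1_3, R1r3, R1_4, R1r4, R1_5, R1r5, R1_6, R1r6, R1_7, R1r7, R1_8, R1r8, R1_9, R1r9, R1_10,
      R1r10, R1_11, R1r11, R1_12, R1r12, R2_0, R2r0, R2_1, R2r1, R2_2, R2r2, R2_3, R2r3, R2_4,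
      R2r4, R2_5, R2r5, R2_6, R2r6, R2_7, R2r7, R2_8, R2r8, R2_9, R2r9, R2_10, R2r10, R2_11,
      R2r11, R2_12, R2r12] <;> ring

lemma quad_12 (w : Fin 45 → k) (i : Fin 13) :
    biy (R1 w) (R1 w 6) i + o1y (R2 w) 6 i =
      biz (R1 w) (R1 w 5) i + o1z (R2 w) 5 i := by
    fin_cases i <;> simp [o1y, shy, biy, o1z, shz, biz, R1_0, R1r0, R1_1, R1r1, R1_2, R1r2,
      R1_3, R1r3, R1_4, R1r4, R1_5, R1r5, R1_6, R1r6, R1_7, R1r7, R1_8, R1r8, R1_9, R1r9, R1_10,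
      R1r10, R1_11, R1r11, R1_12, R1r12, R2_0, R2r0, R2_1, R2r1, R2_2, R2r2, R2_3, R2r3, R2_4,
      R2r4, R2_5, R2r5, R2_6, R2r6, R2_7, R2r7, R2_8, R2r8, R2_9, R2r9, R2_10, R2r10, R2_11,
      R2r11, R2_12, R2r12] <;> ring

lemma quad_13 (w : Fin 45 → k) (i : Fin 13) :
    bix (R1 w) (R1 w 8) i + o1x (R2 w) 8 i =
      biy (R1 w) (R1 w 7) i + o1y (R2 w) 7 i := by
    fin_cases i <;> simp [o1x, shx, bix, o1y, shy, biy, R1_0, R1r0, R1_1, R1r1, R1_2, R1r2,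
      R1_3, R1r3, R1_4, R1r4, R1_5, R1r5, R1_6, R1r6, R1_7, R1r7, R1_8, R1r8, R1_9, R1r9, R1_10,
      R1r10, R1_11, R1r11, R1_12, R1r12, R2_0, R2r0, R2_1, R2r1, R2_2, R2r2, R2_3, R2r3, R2_4,
      R2r4, R2_5, R2r5, R2_6, R2r6, R2_7, R2r7, R2_8, R2r8, R2_9, R2r9, R2_10, R2r10, R2_11,
      R2r11, R2_12, R2r12] <;> ring

lemma quad_14 (w : Fin 45 → k) (i : Fin 13) :
    bix (R1 w) (R1 w 10) i + o1x (R2 w) 10 i =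
      biy (R1 w) (R1 w 8) i + o1y (R2 w) 8 i := by
    fin_cases i <;> simp [o1x, shx, bix, o1y, shy, biy, R1_0, R1r0, R1_1, R1r1, R1_2, R1r2,
      R1_3, R1r3, R1_4, R1r4, R1_5, R1r5, R1_6, R1r6, R1_7, R1r7, R1_8, R1r8, R1_9, R1r9, R1_10,
      R1r10, R1_11, R1r11, R1_12, R1r12, R2_0, R2r0, R2_1, R2r1, R2_2, R2r2, R2_3, R2r3, R2_4,
      R2r4, R2_5, R2r5, R2_6, R2r6, R2_7, R2r7, R2_8, R2r8, R2_9, R2r9, R2_10, R2r10, R2_11,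
      R2r11, R2_12, R2r12] <;> ring

lemma quad_15 (w : Fin 45 → k) (i : Fin 13) :
    bix (R1 w) (R1 w 11) i + o1x (R2 w) 11 i =
      biy (R1 w) (R1 w 9) i + o1y (R2 w) 9 i := by
    fin_cases i <;> simp [o1x, shx, bix, o1y, shy, biy, R1_0, R1r0, R1_1, R1r1, R1_2, R1r2,
      R1_3, R1r3, R1_4, R1r4, R1_5, R1r5, R1_6, R1r6, R1_7, R1r7, R1_8, R1r8, R1_9, R1r9, R1_10,
      R1r10, R1_11, R1r11, R1_12, R1r12, R2_0, R2r0, R2_1, R2r1, R2_2, R2r2, R2_3, R2r3, R2_4,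
      R2r4, R2_5, R2r5, R2_6, R2r6, R2_7, R2r7, R2_8, R2r8, R2_9, R2r9, R2_10, R2r10, R2_11,
      R2r11, R2_12, R2r12] <;> ring

lemma quad_16 (w : Fin 45 → k) (i : Fin 13) :
    bix (R1 w) (R1 w 9) i + o1x (R2 w) 9 i =
      biz (R1 w) (R1 w 7) i + o1z (R2 w) 7 i := by
    fin_cases i <;> simp [o1x, shx, bix, o1z, shz, biz, R1_0, R1r0, R1_1, R1r1, R1_2, R1r2,
      R1_3, R1r3, R1_4, R1r4, R1_5, R1r5, R1_6, R1r6, R1_7, R1r7, R1_8, R1r8, R1_9, R1r9, R1_10,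
      R1r10, R1_11, R1r11, R1_12, R1r12, R2_0, R2r0, R2_1, R2r1, R2_2, R2r2, R2_3, R2r3, R2_4,
      R2r4, R2_5, R2r5, R2_6, R2r6, R2_7, R2r7, R2_8, R2r8, R2_9, R2r9, R2_10, R2r10, R2_11,
      R2r11, R2_12, R2r12] <;> ring

lemma quad_17 (w : Fin 45 → k) (i : Fin 13) :
    bix (R1 w) (R1 w 11) i + o1x (R2 w) 11 i =
      biz (R1 w) (R1 w 8) i + o1z (R2 w) 8 i := by
    fin_cases i <;> simp [o1x, shx, bix, o1z, shz, biz, R1_0, R1r0, R1_1, R1r1, R1_2, R1r2,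
      R1_3, R1r3, R1_4, R1r4, R1_5, R1r5, R1_6, R1r6, R1_7, R1r7, R1_8, R1r8, R1_9, R1r9, R1_10,
      R1r10, R1_11, R1r11, R1_12, R1r12, R2_0, R2r0, R2_1, R2r1, R2_2, R2r2, R2_3, R2r3, R2_4,
      R2r4, R2_5, R2r5, R2_6, R2r6, R2_7, R2r7, R2_8, R2r8, R2_9, R2r9, R2_10, R2r10, R2_11,
      R2r11, R2_12, R2r12] <;> ring

lemma quad_18 (w : Fin 45 → k) (i : Fin 13) :
    bix (R1 w) (R1 w 12) i + o1x (R2 w) 12 i =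
      biz (R1 w) (R1 w 9) i + o1z (R2 w) 9 i := by
    fin_cases i <;> simp [o1x, shx, bix, o1z, shz, biz, R1_0, R1r0, R1_1, R1r1, R1_2, R1r2,
      R1_3, R1r3, R1_4, R1r4, R1_5, R1r5, R1_6, R1r6, R1_7, R1r7, R1_8, R1r8, R1_9, R1r9, R1_10,
      R1r10, R1_11, R1r11, R1_12, R1r12, R2_0, R2r0, R2_1, R2r1, R2_2, R2r2, R2_3, R2r3, R2_4,
      R2r4, R2_5, R2r5, R2_6, R2r6, R2_7, R2r7, R2_8, R2r8, R2_9, R2r9, R2_10, R2r10, R2_11,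
      R2r11, R2_12, R2r12] <;> ring

lemma quad_19 (w : Fin 45 → k) (i : Fin 13) :
    biy (R1 w) (R1 w 9) i + o1y (R2 w) 9 i =
      biz (R1 w) (R1 w 8) i + o1z (R2 w) 8 i := by
    fin_cases i <;> simp [o1y, shy, biy, o1z, shz, biz, R1_0, R1r0, R1_1, R1r1, R1_2, R1r2,
      R1_3, R1r3, R1_4, R1r4, R1_5, R1r5, R1_6, R1r6, R1_7, R1r7, R1_8, R1r8, R1_9, R1r9, R1_10,
      R1r10, R1_11, R1r11, R1_12, R1r12, R2_0, R2r0, R2_1, R2r1, R2_2, R2r2, R2_3, R2r3, R2_4,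
      R2r4, R2_5, R2r5, R2_6, R2r6, R2_7, R2r7, R2_8, R2r8, R2_9, R2r9, R2_10, R2r10, R2_11,
      R2r11, R2_12, R2r12] <;> ring

lemma quad_20 (w : Fin 45 → k) (i : Fin 13) :
    biy (R1 w) (R1 w 11) i + o1y (R2 w) 11 i =
      biz (R1 w) (R1 w 10) i + o1z (R2 w) 10 i := by
    fin_cases i <;> simp [o1y, shy, biy, o1z, shz, biz, R1_0, R1r0, R1_1, R1r1, R1_2, R1r2,
      R1_3, R1r3, R1_4, R1r4, R1_5, R1r5, R1_6, R1r6, R1_7, R1r7, R1_8, R1r8, R1_9, R1r9, R1_10,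
      R1r10, R1_11, R1r11, R1_12, R1r12, R2_0, R2r0, R2_1, R2r1, R2_2, R2r2, R2_3, R2r3, R2_4,
      R2r4, R2_5, R2r5, R2_6, R2r6, R2_7, R2r7, R2_8, R2r8, R2_9, R2r9, R2_10, R2r10, R2_11,
      R2r11, R2_12, R2r12] <;> ring

lemma quad_21 (w : Fin 45 → k) (i : Fin 13) :
    biy (R1 w) (R1 w 12) i + o1y (R2 w) 12 i =
      biz (R1 w) (R1 w 11) i + o1z (R2 w) 11 i := by
    fin_cases i <;> simp [o1y, shy, biy, o1z, shz, biz, R1_0, R1r0, R1_1, R1r1, R1_2, R1r2,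
      R1_3, R1r3, R1_4, R1r4, R1_5, R1r5, R1_6, R1r6, R1_7, R1r7, R1_8, R1r8, R1_9, R1r9, R1_10,
      R1r10, R1_11, R1r11, R1_12, R1r12, R2_0, R2r0, R2_1, R2r1, R2_2, R2r2, R2_3, R2r3, R2_4,
      R2r4, R2_5, R2r5, R2_6, R2r6, R2_7, R2r7, R2_8, R2r8, R2_9, R2r9, R2_10, R2r10, R2_11,
      R2r11, R2_12, R2r12] <;> ring

theorem quad_R (w : Fin 45 → k) : Quad (R1 w) (R2 w) where
  q1 := quad_1 w
  q2 := quad_2 w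
  q3 := quad_3 w
  q4 := quad_4 w
  q5 := quad_5 w
  q6 := quad_6 w
  q7 := quad_7 w
  q8 := quad_8 w
  q9 := quad_9 w
  q10 := quad_10 w
  q11 := quad_11 w
  q12 := quad_12 w
  q13 := quad_13 w
  q14 := quad_14 w
  q15 := quad_15 w
  q16 := quad_16 w
  q17 := quad_17 w
  q18 := quad_18 w
  q19 := quad_19 w
  q20 := quad_20 w
  q21 := quad_21 w

end Pool.Agent.Lib.MP_3c1e96_ag
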